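import Pool.Agent.MP_be2dd8_ag.H81.Spec

set_option autoImplicit false

/-! The empty family is rigid; one set serves all relations. -/

namespace Pool.Agent.MP_be2dd8_ag.H81

open Filter Topology MvPolynomial
open Pool.Agent.MP_be2dd8_ag.H53

namespace BASE

lemma base (hE : ExpS) : BaseS := by
  intro X J K _ _ _ C y S _ q Y hY h
  obtain ⟨e1, e2, e3, -, -, -, e7, e8, -⟩ := hE X Kˣ C
  obtain ⟨Γ, hΓ, hm⟩ := e7 S Y hY
  have k : ∀ a b, ∀ᶠ x in C.c, ∀ t : K,
      (∀ᶠ x in (C.U : Filter X), (Y a x : K) = t * Y b x) → (Y a x : K) = t * Y b x := by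
    intro a b
    by_cases ex : ∃ t : K, ∀ᶠ x in (C.U : Filter X), (Y a x : K) = t * Y b x
    · obtain ⟨t, ht⟩ := ex
      have t0 : t ≠ 0 := by
        rintro rfl
        simpa using ht.exists
      have := e8 _ ⊥ (e2 _ _ (hY a) (e3 _ (-1) (e2 _ _ (e1 (Units.mk0 t t0)) (hY b))))
        (ht.mono fun x hx => by
          rw [Subgroup.mem_bot, zpow_neg_one, mul_inv_eq_one]
          exact Units.ext hx)
      filter_upwards [this] with x hx t' ht'
      obtain ⟨z, h1, h2⟩ := (ht.and ht').exists
      rw [Subgroup.mem_bot, zpow_neg_one, mul_inv_eq_one] at hx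
      rw [← mul_right_cancel₀ (Y b z).ne_zero (h1.symm.trans h2)]
      exact congrArg Units.val hx
    · exact Eventually.of_forall fun x t ht => absurd ⟨t, ht⟩ ex
  have hW := hm.and (eventually_all.2 fun a => eventually_all.2 fun b => k a b)
  have ev : ∀ n s, eval (fun j => y j n) (q s) = eval isEmptyElim (q s) := fun n s => by
    rw [Subsingleton.elim (fun j => y j n) isEmptyElim]
  simp only [ev] at h ⊢
  exact hW.mono (uec (unitEq K) hΓ C.U (C.le hW) (fun x a => Y a x) (fun x hx => hx.1)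
    (fun a b t ht x hx => hx.2 a b t ht) _ h)

lemma uni (hE : ExpS) : UniS := by
  intro X J A K _ _ _ C y u hy hu
  obtain ⟨-, -, e3, e4, -⟩ := hE X Kˣ C
  let I : Ideal (MvPolynomial (J ⊕ A) K) :=
    { carrier := {q | ∀ᶠ n in (C.U : Filter X),
        eval (Sum.elim (fun j => y j n) fun a => (u a n : K)) q = 0}
      add_mem' := fun {a b} ha hb => by
        filter_upwards [ha, hb] with n h1 h2
        rw [map_add, h1, h2, add_zero]
      zero_mem' := Eventually.of_forall fun _ => map_zero _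
      smul_mem' := fun c a ha => by
        filter_upwards [ha] with n h1
        rw [smul_eq_mul, map_mul, h1, mul_zero] }
  obtain ⟨G, hG⟩ : I.FG := IsNoetherian.noetherian I
  have k : ∀ q ∈ I, ∀ᶠ n in C.c, eval (Sum.elim (fun j => y j n) fun a => (u a n : K)) q = 0 := by
    intro q hq
    have e : ∀ n, eval (Sum.elim (fun j => y j n) fun a => (u a n : K)) q =
        ∑ s : q.support, eval (fun j => y j n) (MvPolynomial.C (q.coeff s) *
          ∏ j, MvPolynomial.X j ^ s.1 (Sum.inl j)) *
            ((∏ a, u a n ^ (s.1 (Sum.inr a) : ℤ) : Kˣ) : K) := fun n => by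
      rw [eval_eq', ← Finset.sum_coe_sort]
      simp [Fintype.prod_sum_type, mul_assoc]
    have hq' : ∀ᶠ n in (C.U : Filter X), _ := hq
    simp only [e] at hq' ⊢
    exact hy _ _ _ (fun s => e4 A Finset.univ _ fun a _ => e3 _ _ (hu a)) hq'
  refine ⟨_, (eventually_all_finset G).2 fun q hq => k q (hG ▸ Ideal.subset_span hq),
    fun q hq n hn => ?_⟩
  exact (Ideal.span_le (I := RingHom.ker (eval _))).2 hn (hG ▸ (hq : q ∈ I))

end BASE

theorem rowBase : OfBase := fun h => ⟨BASE.base h, BASE.uni h⟩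

end Pool.Agent.MP_be2dd8_ag.H81
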