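import Pool.Agent.MP_be2dd8_ag.H81.Spec

set_option autoImplicit false

/-! Row BFIN: Boettcher parameters of escaping orbits and of orbits attracted by a
superattracting cycle. -/

namespace Pool.Agent.MP_be2dd8_ag.H81

open Filter Topology Polynomial
open Pool.Agent.MP_be2dd8_ag.H53 Pool.Agent.MP_be2dd8_ag.H53.Gl Pool.Agent.MP_be2dd8_ag.H53D

namespace BFIN

variable {κ : Type} [Field κ]

theorem ncs {c : κ} (h : c ≠ 0) : ‖cs κ c‖ = 1 := by
  have h1 : nm (HahnSeries.C c : LaurentSeries κ) = _ := nm_of_ne (HahnSeries.C_ne_zero h)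
  rw [HahnSeries.order_C] at h1
  exact h1.trans (by norm_num)

theorem ncs_le (c : κ) : ‖cs κ c‖ ≤ 1 := by
  by_cases h : c = 0
  · simp [h]
  · exact (ncs h).le

theorem nnat [CharZero κ] (n : ℕ) (h : n ≠ 0) : ‖(n : LS κ)‖ = 1 := by
  rw [← map_natCast (cs κ)]
  exact ncs (Nat.cast_ne_zero.2 h)

theorem ev_le (g : κ[X]) {y : LS κ} {r : ℝ} (hr : 1 ≤ r) (hy : ‖y‖ ≤ r) {m : ℕ}
    (hm : g.natDegree ≤ m) : ‖(g.map (cs κ)).eval y‖ ≤ r ^ m := by
  rw [eval_map, eval₂_eq_sum_range]
  refine IsUltrametricDist.norm_sum_le_of_forall_le_of_nonneg (by positivity) fun i hi => ?_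
  rw [norm_mul, norm_pow]
  have h1 : ‖y‖ ^ i ≤ r ^ m := (pow_le_pow_left₀ (norm_nonneg _) hy i).trans
    (pow_le_pow_right₀ hr (by have := Finset.mem_range.1 hi; omega))
  exact (mul_le_of_le_one_left (by positivity) (ncs_le _)).trans h1

theorem ev_eq (f : κ[X]) (hf : 0 < f.natDegree) {y : LS κ} (hy : 1 < ‖y‖) :
    ‖(f.map (cs κ)).eval y‖ = ‖y‖ ^ f.natDegree := by
  have h0 : f ≠ 0 := ne_zero_of_natDegree_gt hf
  have h1 := (ev_le f.eraseLead hy.le le_rfl f.eraseLead_natDegree_le).trans_lt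
    (pow_lt_pow_right₀ hy (show f.natDegree - 1 < f.natDegree by omega))
  have h2 : ‖cs κ f.leadingCoeff * y ^ f.natDegree‖ = ‖y‖ ^ f.natDegree := by
    rw [norm_mul, norm_pow, ncs (leadingCoeff_ne_zero.2 h0), one_mul]
  have h3 : (f.map (cs κ)).eval y =
      (f.eraseLead.map (cs κ)).eval y + cs κ f.leadingCoeff * y ^ f.natDegree := by
    have := congrArg (fun g : κ[X] => (g.map (cs κ)).eval y) f.eraseLead_add_C_mul_X_pow
    simp only [Polynomial.map_add, Polynomial.map_mul, Polynomial.map_pow, map_C, map_X, eval_add,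
      eval_mul, eval_pow, eval_C, eval_X] at this
    exact this.symm
  rw [h3, IsUltrametricDist.norm_add_eq_max_of_norm_ne_norm (by rw [h2]; exact h1.ne), h2,
    max_eq_right h1.le]

theorem binf : BinfS := by
  intro κ _ _ f a hf ha
  have h1 : ∀ n, ‖a‖ ^ (n + 1) ≤ ‖it (f.map (cs κ)) n a‖ := by
    intro n
    induction n with
    | zero => exact (pow_one _).le
    | succ n ih =>
      have h2 : ‖a‖ ≤ ‖it (f.map (cs κ)) n a‖ := (le_self_pow₀ ha.le (by omega)).trans ih
      rw [Main.it_succ, ev_eq f (by omega) (ha.trans_le h2)]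
      refine le_trans ?_ (pow_le_pow_right₀ (ha.le.trans h2) hf)
      rw [pow_succ, pow_succ _ 1, pow_one]
      exact mul_le_mul ih h2 (norm_nonneg _) (norm_nonneg _)
  obtain ⟨c, u, β, R, M, h4, h5, h6⟩ := boett (LS κ) nnat (f.map (cs κ))
    (by rwa [natDegree_map]) (fun n => it (f.map (cs κ)) n a) (fun n => Main.it_succ _ _ _)
    (fun R => by
      obtain ⟨m, hm⟩ := pow_unbounded_of_one_lt R ha
      exact ⟨m, hm.trans_le ((pow_le_pow_right₀ ha.le (Nat.le_succ m)).trans (h1 m))⟩)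
  refine ⟨u, fun _ => β, fun _ => c, fun _ => (f.map (cs κ)).natDegree, R, M, 1, one_pos, h5,
    fun n hn => ?_⟩
  obtain ⟨a1, a2, a3, a4⟩ := h6 n hn
  exact ⟨by rwa [natDegree_map], a1, a2, a3, rfl, rfl, rfl, h4, a4⟩

/-- the iterate expanded at `c` -/
noncomputable def pp (f : κ[X]) (n : ℕ) (c : κ) : κ[X] := it (f.map C) n (X + C c)

theorem pp_succ (f : κ[X]) (n : ℕ) (c : κ) : pp f (n + 1) c = f.comp (pp f n c) := by
  rw [pp, Main.it_succ, eval_map]
  rfl

theorem pp_deg {f : κ[X]} (hf : 0 < f.natDegree) (n : ℕ) (c : κ) : 0 < (pp f n c).natDegree := by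
  induction n with
  | zero => exact (natDegree_X_add_C c).ge
  | succ n ih => rw [pp_succ, natDegree_comp]; positivity

theorem pp_zero (f : κ[X]) (n : ℕ) (c : κ) : (pp f n c).eval 0 = it f n c := by
  induction n with
  | zero => simp [pp, it]
  | succ n ih => rw [pp_succ, eval_comp, ih, Main.it_succ]

theorem pp_der {f : κ[X]} {c : κ} {i : ℕ} (h : f.derivative.eval (it f i c) = 0) (n : ℕ)
    (hn : i < n) : (pp f n c).derivative.eval 0 = 0 := by
  induction n, hn using Nat.le_induction with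
  | base => rw [pp_succ, derivative_comp, eval_mul, eval_comp, pp_zero, h, mul_zero]
  | succ n _ ih => rw [pp_succ, derivative_comp, eval_mul, ih, zero_mul]

theorem pp_ev (f : κ[X]) (n : ℕ) (c : κ) (z : LS κ) :
    ((pp f n c).map (cs κ)).eval (z - cs κ c) = it (f.map (cs κ)) n z := by
  induction n with
  | zero => simp [pp, it]
  | succ n ih => rw [pp_succ, map_comp, eval_comp, ih, Main.it_succ]

theorem near (f : κ[X]) (n : ℕ) {c : κ} {z : LS κ} (h : ‖z - cs κ c‖ < 1) :
    ‖it (f.map (cs κ)) n z - cs κ (it f n c)‖ < 1 := by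
  obtain ⟨q, hq⟩ : X ∣ pp f n c - C (it f n c) := by
    rw [X_dvd_iff, coeff_zero_eq_eval_zero, eval_sub, pp_zero, eval_C, sub_self]
  have h1 := congrArg (fun g : κ[X] => (g.map (cs κ)).eval (z - cs κ c)) hq
  simp only [Polynomial.map_sub, Polynomial.map_mul, map_C, map_X, eval_sub, eval_mul, eval_C,
    eval_X, pp_ev] at h1
  have h2 := ev_le q le_rfl h.le le_rfl
  rw [one_pow] at h2
  rw [h1, norm_mul]
  exact (mul_le_of_le_one_right (norm_nonneg _) h2).trans_lt h

theorem cyc [CharZero κ] (hB : BloS) {f : κ[X]} (hf : 0 < f.natDegree) {c : κ} {p i : ℕ}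
    (hi : i < p) (hp : it f p c = c) (hc : f.derivative.eval (it f i c) = 0) (x : ℕ → LS κ)
    (hx : ∀ k, x (k + 1) = it (f.map (cs κ)) p (x k)) (h0 : x 0 ≠ cs κ c)
    (h1 : ‖x 0 - cs κ c‖ < 1) :
    ∃ (w d : ℕ → LS κ) (β : LS κ) (e : ℕ), 2 ≤ e ∧ (∀ k, ‖d k‖ ≤ 2) ∧ Tendsto w atTop (𝓝 0) ∧
      ∀ n, w n ≠ 0 ∧ ‖w n‖ < 1 ∧ w (n + 1) = β * w n ^ e ∧
        HasSum (fun k => d k * w n ^ k) (x n * w n) := by
  have g0 : pp f p c - C c ≠ 0 :=
    ne_zero_of_natDegree_gt (n := 0) (by rw [natDegree_sub_C]; exact pp_deg hf p c)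
  obtain ⟨h, a1, a2⟩ := exists_eq_pow_rootMultiplicity_mul_and_not_dvd _ g0 0
  have e2 : 2 ≤ rootMultiplicity 0 (pp f p c - C c) := by
    rw [le_rootMultiplicity_iff g0, C_0, sub_zero, X_pow_dvd_iff]
    intro d hd
    obtain rfl | rfl : d = 0 ∨ d = 1 := by omega
    · rw [coeff_zero_eq_eval_zero, eval_sub, pp_zero, eval_C, hp, sub_self]
    · have := pp_der hc p hi
      rw [← coeff_zero_eq_eval_zero, coeff_derivative] at this
      simpa [coeff_C] using this
  generalize rootMultiplicity 0 (pp f p c - C c) = e at a1 e2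
  rw [C_0, sub_zero] at a1 a2
  rw [X_dvd_iff] at a2
  obtain ⟨d, w, b1, b2, b3⟩ := hB (LS κ) nnat (h.map (cs κ)) e e2
    (fun k => by rw [coeff_map]; exact ncs_le _) (by rw [coeff_map]; exact ncs a2)
    (fun k => x k - cs κ c) (sub_ne_zero.2 h0) h1 (fun k => by
      have h2 := congrArg (fun g : κ[X] => (g.map (cs κ)).eval (x k - cs κ c)) a1
      simpa only [Polynomial.map_sub, Polynomial.map_mul, Polynomial.map_pow, map_C, map_X,
        eval_sub, eval_mul, eval_pow, eval_C, eval_X, pp_ev, ← hx] using h2)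
  refine ⟨w, fun k => Nat.casesOn k 0 fun k => d k + if k = 0 then cs κ c else 0, _, e, e2,
    fun k => ?_, b2, fun n => ⟨(b3 n).1, (b3 n).2.1, (b3 n).2.2.1, ?_⟩⟩
  · cases k with
    | zero => simp
    | succ k =>
      have h2 : ‖if k = 0 then cs κ c else 0‖ ≤ 1 := by
        split_ifs
        · exact ncs_le c
        · simp
      have := b1 k
      exact (norm_add_le _ _).trans (by linarith)
  · have h2 := ((b3 n).2.2.2.add (hasSum_ite_eq 0 (cs κ c))).mul_right (w n)
    rw [sub_add_cancel] at h2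
    refine (hasSum_nat_add_iff' 1).1 ?_
    simp only [Finset.range_one, Finset.sum_singleton, Nat.rec_zero, zero_mul, sub_zero]
    have h3 : ∀ k, (d k * w n ^ k + if k = 0 then cs κ c else 0) * w n =
        (d k + if k = 0 then cs κ c else 0) * w n ^ (k + 1) := by
      intro k
      split_ifs with hk
      · rw [hk]
        ring
      · ring
    simpa only [h3] using h2

theorem bfin (hB : BloS) : BfinS := by
  intro κ _ _ f a a0 hf ha hc hinf
  have d0 : f.derivative ≠ 0 := fun h => by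
    have := derivative_eq_zero.1 h
    omega
  obtain ⟨M, hM, b, -, hlt, he⟩ :=
    (Nat.frequently_atTop_iff_infinite.1 hc).exists_lt_map_eq_of_mapsTo
      (f := fun n => it f n a0) (t := {z | f.derivative.IsRoot z}) (fun n hn => hn)
      (finite_setOfPred_isRoot d0)
  have per := Main.per_of_eq f a0 hlt he
  have p0 : 0 < b - M := by omega
  generalize b - M = p at per p0
  have inj := Main.inj_of_infinite _ _ hinf
  have key : ∀ r : ℕ, ∃ (w d : ℕ → LS κ) (β : LS κ) (e : ℕ), 2 ≤ e ∧ (∀ k, ‖d k‖ ≤ 2) ∧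
      Tendsto w atTop (𝓝 0) ∧ ∀ n, w n ≠ 0 ∧ ‖w n‖ < 1 ∧ w (n + 1) = β * w n ^ e ∧
        HasSum (fun k => d k * w n ^ k) (it (f.map (cs κ)) (M + r + p * n) a * w n) := by
    intro r
    have h1 := Nat.div_add_mod (r + p - 1) p
    have h2 := Nat.mod_lt (r + p - 1) p0
    have h3 : it f p (it f (M + r) a0) = it f (M + r) a0 := by
      have := per (M + r) (by omega) 1
      rwa [mul_one, add_comm, SPEC.it_add] at this
    refine cyc hB (by omega) (c := it f (M + r) a0) (i := p - 1 - (r + p - 1) % p) (p := p)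
      (by omega) h3 ?_ _ (fun k => ?_) (fun e => ?_) (near f _ ha)
    · rw [← SPEC.it_add, show p - 1 - (r + p - 1) % p + (M + r) = M + p * ((r + p - 1) / p) by omega,
        per M le_rfl]
      exact hM
    · rw [← SPEC.it_add]
      congr 1
      ring
    · have e' : it (f.map (cs κ)) (M + r) a = cs κ (it f (M + r) a0) := e
      have h4 : it (f.map (cs κ)) (p + (M + r)) a = it (f.map (cs κ)) (M + r) a := by
        rw [SPEC.it_add, e', ← Main.it_map, h3]
      have := inj h4
      omega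
  choose w d β e h1 h2 h3 h4 using key
  refine ⟨fun n => w ((n - M) % p) ((n - M) / p), fun n => β ((n - M) % p),
    fun n => d ((n - M) % p), fun n => e ((n - M) % p), 2, M, p, p0, ?_, fun n hn => ?_⟩
  · have t1 : Tendsto (fun n => (n - M) / p) atTop atTop :=
      (Nat.tendsto_div_const_atTop p0.ne').comp (tendsto_sub_atTop_nat M)
    have t2 := tendsto_finsetSum (Finset.range p) fun r _ => ((h3 r).comp t1).norm
    simp only [norm_zero, Finset.sum_const_zero] at t2
    refine squeeze_zero_norm (fun n => ?_) t2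
    exact Finset.single_le_sum (f := fun r => ‖w r ((n - M) / p)‖) (fun _ _ => norm_nonneg _)
      (Finset.mem_range.2 (Nat.mod_lt _ p0))
  · have e1 : n + p - M = n - M + p := by omega
    have e2 := Nat.mod_add_div (n - M) p
    obtain ⟨a1, a2, a3, a4⟩ := h4 ((n - M) % p) ((n - M) / p)
    rw [show M + (n - M) % p + p * ((n - M) / p) = n by omega] at a4
    simp only [e1, Nat.add_mod_right, Nat.add_div_right _ p0]
    exact ⟨h1 _, a1, a2, a3, trivial, trivial, trivial, h2 _, a4⟩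

end BFIN

theorem rowBfin : OfBfin := fun hB => ⟨BFIN.binf, BFIN.bfin hB⟩

end Pool.Agent.MP_be2dd8_ag.H81
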