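import Pool.Agent.MP_be2dd8_ag.H81.Spec

set_option autoImplicit false

/-! The Boettcher coordinate at a superattracting fixed point. -/

namespace Pool.Agent.MP_be2dd8_ag.H81

open Filter Topology Finset
open Pool.Agent.MP_be2dd8_ag.H53 Pool.Agent.MP_be2dd8_ag.H53.Bo

namespace BLO

open PowerSeries

theorem exists_psi' {O : Type} [CommRing O] {d : ℕ} (hd : 2 ≤ d) (D : ℕ) (e : O)
    (he : e * d = 1) (b : ℕ → O) (β : O) :
    ∃ ψ : O⟦X⟧, constantCoeff ψ = 1 ∧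
      ψ ^ d + ∑ k ∈ range D, C (b k) * X ^ (k + 1) * ψ ^ (d + (k + 1)) = sb β d ψ := by
  have hed : (C e : O⟦X⟧) * d = 1 := by
    rw [← map_natCast (C : O →+* O⟦X⟧), ← map_mul, he, map_one]
  obtain ⟨ψ, h1, h2⟩ := exists_fix (fun ψ : O⟦X⟧ => ψ - C e *
      (ψ ^ d + ∑ k ∈ range D, C (b k) * X ^ (k + 1) * ψ ^ (d + (k + 1)) - sb β d ψ)) (by
    intro ψ h
    have : constantCoeff (∑ k ∈ range D, C (b k) * X ^ (k + 1) * ψ ^ (d + (k + 1))) = 0 := by
      rw [map_sum]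
      refine Finset.sum_eq_zero fun k _ => ?_
      simp
    simp only [map_sub, map_mul, map_add, map_pow, h, this, sb_const]
    ring) (by
    intro ψ ψ' j hj h h' hdv
    have a1 : X ^ (j + 1) ∣ ψ - ψ' - C e * (ψ ^ d - ψ' ^ d) := by
      have : ψ - ψ' - C e * (ψ ^ d - ψ' ^ d) =
          (ψ - ψ') * (1 - C e * ∑ i ∈ range d, ψ ^ i * ψ' ^ (d - 1 - i)) := by
        rw [← (Commute.all ψ ψ').geom_sum₂_mul d]
        ring
      rw [this, pow_succ]
      refine mul_dvd_mul hdv (X_dvd_iff.2 ?_)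
      simp [map_sum, h, h', he]
    have a2 : X ^ (j + 1) ∣ ∑ k ∈ range D, C (b k) * X ^ (k + 1) * ψ ^ (d + (k + 1)) -
        ∑ k ∈ range D, C (b k) * X ^ (k + 1) * ψ' ^ (d + (k + 1)) := by
      rw [← Finset.sum_sub_distrib]
      refine Finset.dvd_sum fun k _ => ?_
      rw [← mul_sub, pow_succ']
      exact mul_dvd_mul (Dvd.dvd.mul_left (dvd_pow_self _ (by omega)) _)
        (hdv.trans (sub_dvd_pow_sub_pow _ _ _))
    have a3 := sb_dvd β hd hj hdv
    rw [sb_sub] at a3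
    convert (a1.sub (a2.mul_left (C e))).add (a3.mul_left (C e)) using 1
    ring)
  refine ⟨ψ, h1, ?_⟩
  have h3 := sub_eq_self.1 h2
  have h4 : (d : O⟦X⟧) * (C e *
      (ψ ^ d + ∑ k ∈ range D, C (b k) * X ^ (k + 1) * ψ ^ (d + (k + 1)) - sb β d ψ)) = 0 := by
    rw [h3, mul_zero]
  rw [← mul_assoc, mul_comm (d : O⟦X⟧), hed, one_mul] at h4
  exact sub_eq_zero.1 h4

theorem start {F : Type} [NormedField F] [IsUltrametricDist F] [CompleteSpace F] {s : F}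
    (hs0 : s ≠ 0) (hs1 : ‖s‖ < 1) (ψ : (UB F)⟦X⟧) (h1 : constantCoeff ψ = 1) :
    ∃ t : F, t ≠ 0 ∧ ‖t‖ < 1 ∧ s = t * ev t ψ := by
  obtain ⟨t, h0, ht, h⟩ := exists_start hs0 hs1 (invOfUnit ψ 1) (by simp)
  refine ⟨t, h0, ht, ?_⟩
  have h2 := congrArg (evH ht) (mul_invOfUnit ψ 1 (by simpa using h1))
  rw [map_mul, map_one] at h2
  change ev t ψ * ev t (invOfUnit ψ 1) = 1 at h2
  calc s = s * (ev t ψ * ev t (invOfUnit ψ 1)) := by rw [h2, mul_one]
    _ = s * ev t (invOfUnit ψ 1) * ev t ψ := by ring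
    _ = t * ev t ψ := by rw [← h]

end BLO

theorem rowBlo : BloS := by
  intro F _ _ _ hn h e he hc h0 y hy0 hy1 hy
  have hβ0 : h.coeff 0 ≠ 0 := norm_pos_iff.1 (by rw [h0]; norm_num)
  let b : ℕ → UB F := fun k => ⟨h.coeff (k + 1) / h.coeff 0, by
    show ‖h.coeff (k + 1) / h.coeff 0‖ ≤ 1
    rw [norm_div, h0, div_one]
    exact hc _⟩
  let β : UB F := ⟨h.coeff 0, hc 0⟩
  have hdn : ‖(e : F)‖ = 1 := hn e (by omega)
  have hd0 : (e : F) ≠ 0 := norm_pos_iff.1 (by rw [hdn]; norm_num)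
  obtain ⟨ψ, hψ1, hψ⟩ := BLO.exists_psi' (O := UB F) he h.natDegree
    ⟨(e : F)⁻¹, show ‖(e : F)⁻¹‖ ≤ 1 by rw [norm_inv, hdn, inv_one]⟩
    (Subtype.ext (by simp [hd0])) b β
  have step : ∀ t : F, ‖t‖ < 1 → (t * ev t ψ) ^ e * h.eval (t * ev t ψ) =
      h.coeff 0 * t ^ e * ev (h.coeff 0 * t ^ e) ψ := by
    intro t ht
    have h1 := congrArg (evH ht) hψ
    simp only [map_add, map_pow, map_sum, map_mul] at h1
    change ev t ψ ^ e + ∑ k ∈ range h.natDegree, ev t (PowerSeries.C (b k)) *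
      ev t PowerSeries.X ^ (k + 1) * ev t ψ ^ (e + (k + 1)) = ev t (sb β e ψ) at h1
    rw [ev_sb ht β he] at h1
    change _ = ev (h.coeff 0 * t ^ e) ψ at h1
    rw [← h1, Polynomial.eval_eq_sum_range, Finset.sum_range_succ', mul_add, mul_add, add_comm,
      Finset.mul_sum, Finset.mul_sum]
    congr 1
    · ring
    · refine Finset.sum_congr rfl fun k _ => ?_
      rw [ev_C, ev_X]
      simp only [b]
      field_simp
      ring
  obtain ⟨t0, ht0, ht1, ht2⟩ := BLO.start hy0 hy1 ψ hψ1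
  let w : ℕ → F := fun j => (fun t => h.coeff 0 * t ^ e)^[j] t0
  have hw : ∀ j, w (j + 1) = h.coeff 0 * w j ^ e := fun j => Function.iterate_succ_apply' _ _ _
  have hind : ∀ j, w j ≠ 0 ∧ ‖w j‖ ≤ ‖t0‖ ^ (j + 1) ∧ y j = w j * ev (w j) ψ := by
    intro j
    induction j with
    | zero => exact ⟨ht0, by simp [w], ht2⟩
    | succ j ih =>
      obtain ⟨i1, i2, i3⟩ := ih
      have i4 : ‖w j‖ ≤ ‖t0‖ := i2.trans (pow_le_of_le_one (norm_nonneg _) ht1.le (by omega))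
      rw [hw]
      refine ⟨mul_ne_zero hβ0 (pow_ne_zero _ i1), ?_, ?_⟩
      · refine (step_le (hc 0) (i4.trans_lt ht1) he).trans ?_
        rw [sq, pow_succ]
        gcongr
      · rw [hy, i3]
        exact step _ (i4.trans_lt ht1)
  have hlt : ∀ j, ‖w j‖ < 1 := fun j =>
    (hind j).2.1.trans_lt (pow_lt_one₀ (norm_nonneg _) ht1 (by omega))
  refine ⟨fun k => ((PowerSeries.coeff k (PowerSeries.X * ψ) : UB F) : F), w, fun k => ub_le _, ?_,
    fun n => ⟨(hind n).1, hlt n, hw n, ?_⟩⟩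
  · refine squeeze_zero_norm (fun j => (hind j).2.1) ?_
    exact (tendsto_pow_atTop_nhds_zero_of_lt_one (norm_nonneg _) ht1).comp (tendsto_add_atTop_nat 1)
  · have h1 : ev (w n) (PowerSeries.X * ψ) = y n := by
      rw [(hind n).2.2]
      have h2 := map_mul (evH (hlt n)) PowerSeries.X ψ
      change ev (w n) (PowerSeries.X * ψ) = ev (w n) PowerSeries.X * ev (w n) ψ at h2
      rw [h2, ev_X]
    rw [← h1]
    exact hs (hlt n) _

end Pool.Agent.MP_be2dd8_ag.H81
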