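import Pool.Agent.MP_be2dd8_ag.H81.Spec

set_option autoImplicit false

/-! The standard context of an ultrafilter on exponent tuples. -/

namespace Pool.Agent.MP_be2dd8_ag.H81

open Filter Topology
open Pool.Agent.MP_be2dd8_ag.H53

namespace CTX

variable {N : ℕ} {U : Ultrafilter (Fin N → ℕ)}

/-- differences of exponent tuples -/
def df (n γ : Fin N → ℕ) : Fin N → ℤ := fun i => (n i : ℤ) - γ i

lemma df_sub (n γ β : Fin N → ℕ) : df n β - df γ β = df n γ := by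
  funext i; simp [df]

lemma df_add (n γ β : Fin N → ℕ) : df n γ + df γ β = df n β := by
  funext i; simp [df]

lemma mem_Co {n γ : Fin N → ℕ} {H : AddSubgroup (Fin N → ℤ)} :
    n ∈ Co γ H ↔ df n γ ∈ H ∧ ∀ i, γ i ≤ n i := by
  refine ⟨fun ⟨h, h1, h2, h3⟩ => ⟨?_, fun i => ?_⟩, fun ⟨h1, h2⟩ =>
    ⟨_, h1, fun i => sub_nonneg.2 (Nat.cast_le.2 (h2 i)), fun i => by simp [df]⟩⟩
  · rwa [show df n γ = h from funext fun i => by simp [df, h3 i]]
  · have := h2 i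
    have := h3 i
    omega

lemma pick {S : Set (Fin N → ℕ)} (hS : S ∈ U) :
    ∃ γ ∈ S, ∀ᶠ n in (U : Filter (Fin N → ℕ)), ∀ i, γ i ≤ n i := by
  obtain ⟨γ, h1, h2⟩ := ((eventually_all.2 fun i =>
    H15.ev_const (U : Filter (Fin N → ℕ)) fun n => n i).and hS).exists
  refine ⟨γ, h2, eventually_all.2 fun i => ?_⟩
  by_cases h : ∃ b, ∀ᶠ n in (U : Filter (Fin N → ℕ)), n i = b
  · exact (h1 i h).mono fun _ e => e.ge
  · exact (H15.tendsto_of_not_const U _ h).eventually (eventually_ge_atTop _)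

/-- the filter of cosets -/
def cf (U : Ultrafilter (Fin N → ℕ)) : Filter (Fin N → ℕ) where
  sets := {S | ∃ γ H, Co γ H ∈ U ∧ Co γ H ⊆ S}
  univ_sets := by
    obtain ⟨γ, -, h⟩ := pick (U := U) univ_mem
    exact ⟨γ, ⊤, h.mono fun n hn => mem_Co.2 ⟨trivial, hn⟩, Set.subset_univ _⟩
  sets_of_superset := fun ⟨γ, H, a, b⟩ h => ⟨γ, H, a, b.trans h⟩
  inter_sets := fun ⟨γ, H, a, b⟩ ⟨γ', H', a', b'⟩ => by
    obtain ⟨β, ⟨h1, h2⟩, h⟩ := pick (U := U) (inter_mem a a')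
    rw [mem_Co] at h1 h2
    refine ⟨β, H ⊓ H', ?_, fun n hn => ?_⟩
    · filter_upwards [a, a', h] with n c c' d
      exact mem_Co.2 ⟨⟨df_sub n β γ ▸ H.sub_mem (mem_Co.1 c).1 h1.1,
        df_sub n β γ' ▸ H'.sub_mem (mem_Co.1 c').1 h2.1⟩, d⟩
    · obtain ⟨⟨c, c'⟩, d⟩ := mem_Co.1 hn
      exact ⟨b (mem_Co.2 ⟨df_add n β γ ▸ H.add_mem c h1.1, fun i => (h1.2 i).trans (d i)⟩),
        b' (mem_Co.2 ⟨df_add n β γ' ▸ H'.add_mem c' h2.1, fun i => (h2.2 i).trans (d i)⟩)⟩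

lemma le_cf : (U : Filter (Fin N → ℕ)) ≤ cf U := fun _ ⟨_, _, a, b⟩ => mem_of_superset a b

lemma transfer {p : (Fin N → ℕ) → Prop} (H : AddSubgroup (Fin N → ℤ))
    (hp : ∀ᶠ n in (U : Filter (Fin N → ℕ)), p n) (h1 : ∀ n γ, p n → p γ → df n γ ∈ H)
    (h2 : ∀ n γ, p γ → (∀ i, γ i ≤ n i) → df n γ ∈ H → p n) : ∀ᶠ n in cf U, p n := by
  obtain ⟨γ, a, b⟩ := pick (U := U) hp
  exact ⟨γ, H, (hp.and b).mono fun n hn => mem_Co.2 ⟨h1 n γ hn.1 a, hn.2⟩,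
    fun n hn => h2 n γ a (mem_Co.1 hn).2 (mem_Co.1 hn).1⟩

lemma cst (i : Fin N) (b : ℕ) (h : ∀ᶠ n in (U : Filter (Fin N → ℕ)), n i = b) :
    ∀ᶠ n in cf U, n i = b :=
  transfer (Pi.evalAddMonoidHom (fun _ => ℤ) i).ker h
    (fun n γ a c => show (n i : ℤ) - γ i = 0 by rw [a, c, sub_self]) fun n γ a _ c => by
      have : (n i : ℤ) - γ i = 0 := c
      omega

lemma big (i : Fin N) (h : Tendsto (fun n : Fin N → ℕ => n i) (U : Filter (Fin N → ℕ)) atTop) :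
    Tendsto (fun n : Fin N → ℕ => n i) (cf U) atTop :=
  tendsto_atTop.2 fun b => transfer ⊤ (tendsto_atTop.1 h b) (fun _ _ _ _ => trivial)
    fun _ _ a c _ => a.trans (c i)

lemma modU (i : Fin N) {p : ℕ} (hp : 0 < p) :
    ∃ r, ∀ᶠ n in (U : Filter (Fin N → ℕ)), n i % p = r := by
  by_contra h
  obtain ⟨n, hn⟩ := ((H15.tendsto_of_not_const U _ h).eventually (eventually_ge_atTop p)).exists
  exact absurd (Nat.mod_lt (n i) hp) (not_lt.2 hn)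

lemma sub_eq {a b p : ℕ} (h : a % p = b % p) :
    (a : ℤ) - b = p * (((a / p : ℕ) : ℤ) - (b / p : ℕ)) := by
  have h1 : ((p * (a / p) + a % p : ℕ) : ℤ) = a := congrArg _ (Nat.div_add_mod a p)
  have h2 : ((p * (b / p) + b % p : ℕ) : ℤ) = b := congrArg _ (Nat.div_add_mod b p)
  rw [h] at h1
  rw [Nat.cast_add, Nat.cast_mul] at h1 h2
  linear_combination h2 - h1

lemma mod_eq {a b p : ℕ} {t : ℤ} (h : (a : ℤ) - b = p * t) : a % p = b % p :=
  (Nat.modEq_iff_dvd.2 ⟨t, h⟩).symm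

lemma md (i : Fin N) (p : ℕ) (hp : 0 < p) : ∃ r, ∀ᶠ n in cf U, n i % p = r :=
  (modU (U := U) i hp).imp fun _ h => transfer
    ((AddSubgroup.zmultiples (p : ℤ)).comap (Pi.evalAddMonoidHom (fun _ => ℤ) i)) h
    (fun n γ a c => Int.mem_zmultiples_iff.2 ⟨_, sub_eq (a.trans c.symm)⟩) fun n γ a _ c => by
      obtain ⟨t, ht⟩ := Int.mem_zmultiples_iff.1 c
      exact (mod_eq ht).trans a

lemma dv (i : Fin N) {p : ℕ} (hp : 0 < p) (b : ℕ)
    (h : ∀ᶠ n in (U : Filter (Fin N → ℕ)), n i / p = b) : ∀ᶠ n in cf U, n i / p = b := by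
  obtain ⟨r, hr⟩ := modU (U := U) i hp
  have e : ∀ᶠ n in (U : Filter (Fin N → ℕ)), n i = p * b + r := by
    filter_upwards [h, hr] with n a c
    rw [← a, ← c, Nat.div_add_mod]
  obtain ⟨m, h1, h2⟩ := (h.and e).exists
  exact (cst i _ e).mono fun n hn => by rw [hn, ← h2, h1]

lemma rel (i j : Fin N) {p q : ℕ} (hp : 0 < p) (hq : 0 < q) {d e : ℚ} (hd : d ≠ 0) (he : e ≠ 0)
    (t : ℚ) (h : ∀ᶠ n in (U : Filter (Fin N → ℕ)), d ^ (n i / p) = t * e ^ (n j / q)) :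
    ∀ᶠ n in cf U, d ^ (n i / p) = t * e ^ (n j / q) := by
  obtain ⟨r, hr⟩ := modU (U := U) i hp
  obtain ⟨s, hs⟩ := modU (U := U) j hq
  let H : AddSubgroup (Fin N → ℤ) :=
    { carrier := {h | ∃ a b : ℤ, h i = p * a ∧ h j = q * b ∧ d ^ a = e ^ b}
      zero_mem' := ⟨0, 0, by simp⟩
      add_mem' := fun ⟨a, b, h1, h2, h3⟩ ⟨a', b', h4, h5, h6⟩ => ⟨a + a', b + b',
        by rw [Pi.add_apply, h1, h4, mul_add], by rw [Pi.add_apply, h2, h5, mul_add],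
        by rw [zpow_add₀ hd, zpow_add₀ he, h3, h6]⟩
      neg_mem' := fun ⟨a, b, h1, h2, h3⟩ => ⟨-a, -b, by rw [Pi.neg_apply, h1, mul_neg],
        by rw [Pi.neg_apply, h2, mul_neg], by rw [zpow_neg, zpow_neg, h3]⟩ }
  refine (transfer H ((hr.and hs).and h) ?_ ?_).mono fun _ h => h.2
  · rintro n γ ⟨⟨a1, a2⟩, a3⟩ ⟨⟨b1, b2⟩, b3⟩
    refine ⟨_, _, sub_eq (a1.trans b1.symm), sub_eq (a2.trans b2.symm), ?_⟩
    have t0 : t ≠ 0 := left_ne_zero_of_mul (a3 ▸ pow_ne_zero _ hd)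
    rw [zpow_sub₀ hd, zpow_sub₀ he, zpow_natCast, zpow_natCast, zpow_natCast, zpow_natCast, a3, b3,
      mul_div_mul_left _ _ t0]
  · rintro n γ ⟨⟨b1, b2⟩, b3⟩ - ⟨a, b, h1, h2, h3⟩
    have m1 := mod_eq h1
    have m2 := mod_eq h2
    have e1 := mul_left_cancel₀ (Nat.cast_ne_zero.2 hp.ne') ((sub_eq m1).symm.trans h1)
    have e2 := mul_left_cancel₀ (Nat.cast_ne_zero.2 hq.ne') ((sub_eq m2).symm.trans h2)
    refine ⟨⟨m1.trans b1, m2.trans b2⟩, ?_⟩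
    rw [← zpow_natCast d, ← zpow_natCast e, eq_add_of_sub_eq e1, eq_add_of_sub_eq e2, zpow_add₀ hd,
      zpow_add₀ he, zpow_natCast, zpow_natCast, h3, b3, mul_left_comm]

lemma all_of {Y : Type} {P : (Fin N → ℕ) → Y → Prop} (h1 : ∀ n y y', P n y → P n y' → y = y')
    (h2 : ∀ y, (∀ᶠ n in (U : Filter (Fin N → ℕ)), P n y) → ∀ᶠ n in cf U, P n y) :
    ∀ᶠ n in cf U, ∀ y, (∀ᶠ n in (U : Filter (Fin N → ℕ)), P n y) → P n y := by
  by_cases h : ∃ y, ∀ᶠ n in (U : Filter (Fin N → ℕ)), P n y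
  · obtain ⟨y, hy⟩ := h
    refine (h2 y hy).mono fun n hn y' hy' => ?_
    obtain ⟨m, a, b⟩ := (hy.and hy').exists
    exact h1 m y y' a b ▸ hn
  · exact Eventually.of_forall fun _ y hy => absurd ⟨y, hy⟩ h

lemma scale {B : Type} [Fintype B] (ix : B → Fin N) (p e : B → ℕ) (hb : ∀ b, 0 < p b ∧ 2 ≤ e b)
    (r : B → ℚ) (t : ℚ)
    (h : ∀ᶠ n in (U : Filter (Fin N → ℕ)), ∑ b, r b * (e b : ℚ) ^ (n (ix b) / p b) = t) :
    ∀ᶠ n in cf U, ∑ b, r b * (e b : ℚ) ^ (n (ix b) / p b) = t := by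
  have e0 : ∀ b, (e b : ℚ) ≠ 0 := fun b => Nat.cast_ne_zero.2 (by have := (hb b).2; omega)
  have W := (eventually_all.2 fun b => all_of (U := U) (P := fun n y => n (ix b) / p b = y)
    (fun _ _ _ a c => a.symm.trans c) (dv (ix b) (hb b).1)).and
    (eventually_all.2 fun b => eventually_all.2 fun b' => all_of (U := U)
      (P := fun n y => (e b : ℚ) ^ (n (ix b) / p b) = y * (e b' : ℚ) ^ (n (ix b') / p b'))
      (fun _ _ _ a c => mul_right_cancel₀ (pow_ne_zero _ (e0 b')) (a.symm.trans c))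
      (rel (ix b) (ix b') (hb b).1 (hb b').1 (e0 b) (e0 b')))
  let σ := (Fintype.equivFin B).symm
  have k := scaleG (unitEq ℚ) U (le_cf W) (fun i => e (σ i)) (fun i => (hb _).2)
    (fun n i => n (ix (σ i)) / p (σ i)) (fun i b hi n hn => hn.1 _ b hi)
    (fun i j t hi n hn => hn.2 _ _ t hi) (fun i => r (σ i)) t (h.mono fun n hn =>
      (σ.sum_comp fun b => r b * (e b : ℚ) ^ (n (ix b) / p b)).trans hn)
  exact W.mono fun n hn =>
    (σ.sum_comp fun b => r b * (e b : ℚ) ^ (n (ix b) / p b)).symm.trans (k n hn)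

lemma cong (i : Fin N) {p Q : ℕ} (e : ℕ) (hp : 0 < p) (hQ : 0 < Q) :
    ∃ ρ : ℤ, ∀ᶠ n in cf U, (Q : ℤ) ∣ (e : ℤ) ^ (n i / p) - ρ := by
  by_cases h : ∃ b, ∀ᶠ n in (U : Filter (Fin N → ℕ)), n i = b
  · obtain ⟨b, hb⟩ := h
    exact ⟨e ^ (b / p), (cst i b hb).mono fun n hn => by rw [hn, sub_self]; exact dvd_zero _⟩
  have : NeZero Q := ⟨hQ.ne'⟩
  obtain ⟨M, P, P0, hP⟩ := H15.periodic_of_finite (fun k => (e : ZMod Q) ^ k) (· * e) 0
    (fun k _ => pow_succ _ _) Set.finite_univ fun _ _ => trivial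
  obtain ⟨r, hr⟩ := md (U := U) i (p * P) (Nat.mul_pos hp P0)
  refine ⟨e ^ (r / p + P * M), ?_⟩
  filter_upwards [hr, (big i (H15.tendsto_of_not_const U _ h)).eventually_ge_atTop
    (P * M * p)] with n h1 h2
  have a1 : n i / p % P = r / p := by rw [← h1, Nat.mod_mul_right_div_self]
  have a2 : M ≤ n i / p / P := (Nat.le_div_iff_mul_le P0).2
    (mul_comm P M ▸ (Nat.le_div_iff_mul_le hp).2 h2)
  obtain ⟨t, ht⟩ := Nat.exists_eq_add_of_le a2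
  have a3 : n i / p = r / p + P * M + P * t := by
    rw [add_assoc, ← mul_add, ← ht, ← a1, Nat.mod_add_div]
  refine (ZMod.intCast_eq_intCast_iff_dvd_sub _ _ Q).1 ?_
  push_cast
  rw [a3]
  exact (H15.per_mul (x := fun k => (e : ZMod Q) ^ k) hP
    ((Nat.le_mul_of_pos_left M P0).trans (Nat.le_add_left _ _)) t).symm

/-- the space of rigid functions -/
def LL (U : Ultrafilter (Fin N → ℕ)) : Submodule ℚ ((Fin N → ℕ) → ℚ) where
  carrier := {φ | ∃ (B : Type) (_ : Fintype B) (ix : B → Fin N) (p e : B → ℕ) (r : B → ℚ)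
    (s : ℚ), (∀ b, 0 < p b ∧ 2 ≤ e b) ∧
      ∀ᶠ n in cf U, φ n = s + ∑ b, r b * (e b : ℚ) ^ (n (ix b) / p b)}
  zero_mem' := ⟨Empty, inferInstance, Empty.elim, Empty.elim, Empty.elim, Empty.elim, 0,
    fun b => b.elim, Eventually.of_forall fun _ => by simp⟩
  add_mem' := fun ⟨B, _, ix, p, e, r, s, h1, h2⟩ ⟨B', _, ix', p', e', r', s', h3, h4⟩ =>
    ⟨B ⊕ B', inferInstance, Sum.elim ix ix', Sum.elim p p', Sum.elim e e', Sum.elim r r', s + s',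
      fun b => b.rec h1 h3, (h2.and h4).mono fun n hn => by
        rw [Pi.add_apply, hn.1, hn.2, Fintype.sum_sum_type, add_add_add_comm]
        rfl⟩
  smul_mem' := fun c _ ⟨B, _, ix, p, e, r, s, h1, h2⟩ =>
    ⟨B, inferInstance, ix, p, e, fun b => c * r b, c * s, h1, h2.mono fun n hn => by
      simp only [Pi.smul_apply, hn, smul_eq_mul, mul_add, Finset.mul_sum, mul_assoc]⟩

lemma r2 (m : (Fin N → ℕ) → ℤ) (hm : (fun x => (m x : ℚ)) ∈ LL U) (τ : ℕ) (hτ : 0 < τ) :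
    ∃ r : ℤ, ∀ᶠ x in cf U, (τ : ℤ) ∣ m x - r := by
  obtain ⟨B, _, ix, p, e, r, s, h1, h2⟩ := hm
  have D0 : 0 < ∏ b, (r b).den := Finset.prod_pos fun b _ => (r b).den_pos
  have hR : ∀ b, ∃ R : ℤ, (R : ℚ) = (∏ b, (r b).den : ℕ) * r b := fun b => by
    obtain ⟨k, hk⟩ := Finset.dvd_prod_of_mem (fun b => (r b).den) (Finset.mem_univ b)
    exact ⟨k * (r b).num, by rw [hk, Nat.cast_mul, mul_right_comm, Rat.den_mul_eq_num]; push_cast; ring⟩
  generalize ∏ b, (r b).den = D at D0 hR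
  choose R hR using hR
  choose ρ hρ using fun b => cong (U := U) (ix b) (e b) (h1 b).1 (Nat.mul_pos D0 hτ)
  have W := h2.and (eventually_all.2 hρ)
  obtain ⟨n0, a1, a2⟩ := (W.filter_mono le_cf).exists
  refine ⟨m n0, W.mono fun n ⟨b1, b2⟩ => ?_⟩
  have k : (D : ℤ) * (m n - m n0) = ∑ b, R b * (((e b : ℤ) ^ (n (ix b) / p b) - ρ b)
      - ((e b : ℤ) ^ (n0 (ix b) / p b) - ρ b)) := by
    refine Int.cast_injective (α := ℚ) ?_
    push_cast
    rw [show (m n0 : ℚ) = _ from a1, show (m n : ℚ) = _ from b1, add_sub_add_left_eq_sub,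
      ← Finset.sum_sub_distrib, Finset.mul_sum]
    exact Finset.sum_congr rfl fun b _ => by rw [hR]; ring
  refine Int.dvd_of_mul_dvd_mul_left (Nat.cast_ne_zero.2 D0.ne') ?_
  rw [k, ← Nat.cast_mul]
  exact Finset.dvd_sum fun b _ => ((b2 b).sub (a2 b)).mul_left _

end CTX

open CTX in
theorem rowCtx : CtxS := fun N U => by
  refine ⟨⟨U, cf U, LL U, le_cf, ⟨Empty, inferInstance, Empty.elim, Empty.elim, Empty.elim,
    Empty.elim, 1, fun b => b.elim, Eventually.of_forall fun _ => by simp⟩, ?_, ?_, r2⟩, rfl,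
    fun _ h => h, cst, big, md, fun i p e hp he => ⟨Unit, inferInstance, fun _ => i, fun _ => p,
      fun _ => e, fun _ => 1, 0, fun _ => ⟨hp, he⟩, Eventually.of_forall fun _ => by simp⟩,
    fun _ h => h⟩
  · rintro φ ⟨B, _, ix, p, e, r, s, h1, h2⟩ ψ h
    exact ⟨B, inferInstance, ix, p, e, r, s, h1, (h.and h2).mono fun n hn => hn.1.trans hn.2⟩
  · rintro φ ⟨B, _, ix, p, e, r, s, h1, h2⟩ h
    have := scale (U := U) ix p e h1 r (-s) ((h.and (h2.filter_mono le_cf)).mono fun n hn => by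
      linarith [hn.1, hn.2])
    exact (this.and h2).mono fun n hn => by rw [hn.2, hn.1, add_neg_cancel]

end Pool.Agent.MP_be2dd8_ag.H81
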