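import Pool.Agent.MP_be2dd8_ag.H81.Spec

set_option autoImplicit false

/-! Rigidity passes to a regular extension. -/

namespace Pool.Agent.MP_be2dd8_ag.H81

open Filter MvPolynomial

namespace DOWN

variable {k F J : Type} [Field k] [Field F] [Algebra k F]

lemma ev_eq (v : J → k) (p : MvPolynomial J F) : eval (fun j => algebraMap k F (v j)) p =
    ∑ m ∈ p.support, (∏ i ∈ m.support, v i ^ m i) • coeff m p := by
  rw [eval_eq]
  refine Finset.sum_congr rfl fun m _ => ?_
  rw [Algebra.smul_def, map_prod, mul_comm]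
  simp only [map_pow]

/-- a functional applied to all coefficients -/
noncomputable def mp (l : F →ₗ[k] k) (p : MvPolynomial J F) : MvPolynomial J k :=
  ∑ m ∈ p.support, monomial m (l (coeff m p))

lemma ev_mp (l : F →ₗ[k] k) (v : J → k) (p : MvPolynomial J F) :
    eval v (mp l p) = l (eval (fun j => algebraMap k F (v j)) p) := by
  rw [ev_eq, mp, map_sum, map_sum]
  refine Finset.sum_congr rfl fun m _ => ?_
  rw [eval_monomial, map_smul, smul_eq_mul, mul_comm]
  rfl

lemma sep (T : Finset F) : ∃ L : Finset (F →ₗ[k] k), ∀ e ∈ Submodule.span k (T : Set F),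
    (∀ l ∈ L, l e = 0) → e = 0 := by
  classical
  let b := Module.Basis.ofVectorSpace k F
  refine ⟨(T.biUnion fun t => (b.repr t).support).image b.coord, fun e he h => ?_⟩
  refine b.forall_coord_eq_zero_iff.1 fun i => ?_
  by_cases hi : i ∈ T.biUnion fun t => (b.repr t).support
  · exact h _ (Finset.mem_image_of_mem _ hi)
  · refine (Submodule.span_le (p := LinearMap.ker (b.coord i))).2 (fun t ht => ?_) he
    by_contra h0
    exact hi (Finset.mem_biUnion.2 ⟨t, ht, Finsupp.mem_support_iff.2 h0⟩)

/-- proportional along the ultrafilter -/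
def st (k : Type) {F X S : Type} [Field k] [Field F] [Algebra k F] (U : Ultrafilter X)
    (Y : S → X → Fˣ) : Setoid S where
  r a b := ∃ t : F, ∀ᶠ x in (U : Filter X), ∃ z : k, (Y a x : F) = algebraMap k F z * t * Y b x
  iseqv := by
    refine ⟨fun a => ⟨1, Eventually.of_forall fun x => ⟨1, by simp⟩⟩, ?_, ?_⟩
    · rintro a b ⟨t, h⟩
      refine ⟨t⁻¹, h.mono fun x ⟨z, hz⟩ => ⟨z⁻¹, ?_⟩⟩
      have h0 := (Y a x).ne_zero
      rw [hz] at h0
      have h1 := left_ne_zero_of_mul h0
      have h2 := left_ne_zero_of_mul h1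
      have h3 := right_ne_zero_of_mul h1
      rw [hz, map_inv₀]
      field_simp
    · rintro a b c ⟨t, h⟩ ⟨t', h'⟩
      refine ⟨t * t', (h.and h').mono fun x ⟨⟨z, hz⟩, z', hz'⟩ => ⟨z * z', ?_⟩⟩
      rw [hz, hz', map_mul]
      ring

end DOWN

open DOWN in
theorem rowDown : OfDown := by
  intro hE hU X J k F _ _ _ _ hk C y hy S _ q Y hY h0
  classical
  obtain ⟨e1, e2, e3, -, -, -, e7, e8, e9⟩ := hE X Fˣ C
  let R := st k C.U Y
  let o : S → S := fun s => (Quotient.mk R s).out
  choose t ht using fun s => R.symm (Quotient.mk_out (s := R) s)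
  have hz : ∀ s, ∃ z : X → kˣ, ExpT C z ∧
      ∀ᶠ x in C.c, (Y s x : F) = algebraMap k F (z x) * t s * Y (o s) x := by
    intro s
    have t0 : t s ≠ 0 := by
      obtain ⟨x, z, hz⟩ := (ht s).exists
      intro h
      exact (Y s x).ne_zero (by rw [hz, h, mul_zero, zero_mul])
    have hu := e2 _ _ (hY s) (e3 _ (-1) (e2 _ _ (e1 (Units.mk0 _ t0)) (hY (o s))))
    let j : kˣ →* Fˣ := Units.map (algebraMap k F : k →* F)
    obtain ⟨z, z1, z2⟩ := e9 kˣ j _ (Units.map_injective (algebraMap k F).injective) hu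
      (e8 _ j.range hu ((ht s).mono fun x ⟨z, hz⟩ => by
        have z0 : z ≠ 0 := fun h => (Y s x).ne_zero (by rw [hz, h, map_zero, zero_mul, zero_mul])
        refine ⟨Units.mk0 z z0, Units.ext ?_⟩
        have := (Y (o s) x).ne_zero
        simp only [zpow_neg, zpow_one, Units.val_mul, Units.val_inv_eq_inv_val, Units.val_mk0, hz]
        change algebraMap k F z = algebraMap k F z * t s * Y (o s) x * (t s * Y (o s) x)⁻¹
        field_simp))
    refine ⟨z, z1, z2.mono fun x hx => ?_⟩
    have h1 := congrArg Units.val hx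
    have := (Y (o s) x).ne_zero
    simp only [zpow_neg, zpow_one, Units.val_mul, Units.val_inv_eq_inv_val, Units.val_mk0] at h1
    change algebraMap k F (z x) = _ at h1
    rw [h1]
    field_simp
  choose z z1 z2 using hz
  let p : S → MvPolynomial J F := fun s => MvPolynomial.C (t s) * q s
  let e : Quotient R → X → F := fun a x => ∑ s with Quotient.mk R s = a,
    (z s x : k) • eval (fun j => algebraMap k F (y j x)) (p s)
  have key : ∀ᶠ x in C.c, ∑ s, eval (fun j => algebraMap k F (y j x)) (q s) * (Y s x : F) =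
      ∑ a, e a x * (Y a.out x : F) := by
    filter_upwards [eventually_all.2 z2] with x hx
    rw [← Finset.sum_fiberwise Finset.univ (Quotient.mk R)]
    refine Finset.sum_congr rfl fun a _ => ?_
    rw [Finset.sum_mul]
    refine Finset.sum_congr rfl fun s hs => ?_
    rw [← (Finset.mem_filter.1 hs).2, hx s, Algebra.smul_def, map_mul, eval_C]
    ring
  let T : Finset F := Finset.univ.biUnion fun s => (p s).support.image fun m => coeff m (p s)
  have hT : ∀ a x, e a x ∈ Submodule.span k (T : Set F) := fun a x =>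
    Submodule.sum_mem _ fun s _ => Submodule.smul_mem _ _ (by
      rw [ev_eq]
      exact Submodule.sum_mem _ fun m hm => Submodule.smul_mem _ _ (Submodule.subset_span
        (Finset.mem_biUnion.2 ⟨s, Finset.mem_univ _, Finset.mem_image_of_mem _ hm⟩)))
  obtain ⟨Γ, g1, g2⟩ := e7 S Y hY
  have h1 := hU k F X (Quotient R) hk Γ _ g1 ⟨T, rfl⟩ C.U (fun a => Y a.out) e
    ((g2.filter_mono C.le).mono fun x hx a => ⟨hx _, hT a x⟩)
    (fun a b hab t h => hab (Quotient.out_equiv_out.1 ⟨t, h⟩))
    ((h0.and (key.filter_mono C.le)).mono fun x hx => hx.2 ▸ hx.1)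
  obtain ⟨L, hL⟩ := sep (k := k) T
  have h2 : ∀ a, ∀ l ∈ L, ∀ᶠ x in C.c, l (e a x) = 0 := by
    intro a l _
    have h3 : ∀ x, l (e a x) = ∑ s, eval (fun j => y j x)
        (if Quotient.mk R s = a then mp l (p s) else 0) * (z s x : k) := fun x => by
      rw [map_sum, Finset.sum_filter]
      refine Finset.sum_congr rfl fun s _ => ?_
      split_ifs
      · rw [ev_mp, map_smul, smul_eq_mul, mul_comm]
      · simp
    simp only [h3]
    exact hy S _ z z1 ((h1 a).mono fun x hx => by rw [← h3, hx, map_zero])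
  filter_upwards [key, eventually_all.2 fun a => (eventually_all_finset L).2 (h2 a)] with x hx h4
  rw [hx]
  exact Finset.sum_eq_zero fun a _ => by rw [hL _ (hT a x) (h4 a), zero_mul]

end Pool.Agent.MP_be2dd8_ag.H81
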