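import Pool.Agent.MP_be2dd8_ag.H81.Spec

set_option autoImplicit false

/-!
The calculus of functions of exponential type.
-/

namespace Pool.Agent.MP_be2dd8_ag.H81

open Filter

namespace EXP

/-- a sublattice in diagonal form -/
theorem snf (B : Type) [Fintype B] (Λ : Submodule ℤ (B → ℤ)) :
    ∃ (n : ℕ) (θ : B → (B → ℤ) →ₗ[ℤ] ℤ) (f : Fin n → B) (a : Fin n → ℤ) (v : Fin n → B → ℤ),
      (∀ i, a i ≠ 0) ∧ (∀ i, v i ∈ Λ) ∧
      (∀ m ∈ Λ, (∀ j, j ∉ Set.range f → θ j m = 0) ∧ ∀ i, a i ∣ θ (f i) m) ∧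
      ∀ m, (∀ j, j ∉ Set.range f → θ j m = 0) → (∀ i, a i ∣ θ (f i) m) →
        m = ∑ i, (θ (f i) m / a i) • v i := by
  classical
  obtain ⟨n, S⟩ := Λ.smithNormalForm (Pi.basisFun ℤ B)
  refine ⟨n, fun j => S.bM.coord j, S.f, S.a, fun i => S.bN i, fun i h => ?_, fun i => (S.bN i).2,
    fun m hm => ⟨fun j hj => S.repr_eq_zero_of_notMem_range ⟨m, hm⟩ hj, fun i => ?_⟩,
    fun m h1 h2 => ?_⟩
  · have h3 := S.snf i
    rw [h, zero_smul] at h3
    exact S.bN.ne_zero i (Subtype.ext h3)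
  · have h3 := S.repr_apply_embedding_eq_repr_smul ⟨m, hm⟩ (i := i)
    rw [map_smul, Finsupp.smul_apply, smul_eq_mul] at h3
    exact ⟨_, h3⟩
  · conv_lhs => rw [← S.bM.sum_repr m]
    rw [← Finset.sum_subset (Finset.subset_univ (Finset.univ.map S.f)), Finset.sum_map]
    · refine Finset.sum_congr rfl fun i _ => ?_
      beta_reduce
      rw [S.snf i, smul_smul, Int.ediv_mul_cancel (h2 i)]
      rfl
    · intro j _ hj
      have h3 : S.bM.repr m j = 0 := h1 j fun ⟨i, hi⟩ =>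
        hj (Finset.mem_map.2 ⟨i, Finset.mem_univ _, hi⟩)
      rw [h3, zero_smul]

variable {X : Type} (C : Ctx X)

theorem lin {B : Type} [Fintype B] {m : B → X → ℤ} (hm : ∀ b, (fun x => (m b x : ℚ)) ∈ C.L)
    (θ : (B → ℤ) →ₗ[ℤ] ℤ) : (fun x => (θ (fun b => m b x) : ℚ)) ∈ C.L := by
  classical
  have h : (fun x => (θ (fun b => m b x) : ℚ)) =
      ∑ b, (θ (Pi.single b 1) : ℚ) • fun x => (m b x : ℚ) := by
    funext x
    rw [LinearMap.pi_apply_eq_sum_univ, Finset.sum_apply, Int.cast_sum]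
    refine Finset.sum_congr rfl fun b _ => ?_
    rw [Pi.smul_apply, smul_eq_mul, smul_eq_mul, Int.cast_mul, mul_comm]
    congr 3
    funext j
    rw [Pi.single_apply]
    exact if_congr eq_comm rfl rfl
  rw [h]
  exact C.L.sum_mem fun b _ => C.L.smul_mem _ (hm b)

/-- membership in a sublattice is rigid -/
theorem lat {B : Type} [Fintype B] {m : B → X → ℤ} (hm : ∀ b, (fun x => (m b x : ℚ)) ∈ C.L)
    (Λ : Submodule ℤ (B → ℤ)) (h : ∀ᶠ x in (C.U : Filter X), (fun b => m b x) ∈ Λ) :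
    ∀ᶠ x in C.c, (fun b => m b x) ∈ Λ := by
  obtain ⟨n, θ, f, a, v, ha, hv, h1, h2⟩ := snf B Λ
  have k1 : ∀ j, ∀ᶠ x in C.c, j ∉ Set.range f → θ j (fun b => m b x) = 0 := fun j => by
    by_cases hj : j ∈ Set.range f
    · exact Eventually.of_forall fun x h => absurd hj h
    · filter_upwards [C.r1 _ (lin C hm (θ j)) (h.mono fun x hx => by
        rw [(h1 _ hx).1 j hj, Int.cast_zero])] with x hx _
      exact_mod_cast hx
  have k2 : ∀ i, ∀ᶠ x in C.c, a i ∣ θ (f i) (fun b => m b x) := fun i => by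
    obtain ⟨r, hr⟩ := C.r2 _ (lin C hm (θ (f i))) (a i).natAbs (Int.natAbs_pos.2 (ha i))
    obtain ⟨x₀, h3, h4⟩ := ((hr.filter_mono C.le).and h).exists
    have h5 : a i ∣ r := by
      have := dvd_sub ((h1 _ h4).2 i) (Int.natAbs_dvd.1 h3)
      rwa [sub_sub_cancel] at this
    filter_upwards [hr] with x hx
    have := dvd_add (Int.natAbs_dvd.1 hx) h5
    rwa [sub_add_cancel] at this
  filter_upwards [eventually_all.2 k1, eventually_all.2 k2] with x h3 h4
  rw [h2 _ h3 h4]
  exact Λ.sum_mem fun i _ => Λ.smul_mem _ (hv i)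

variable {G : Type} [CommGroup G]

theorem zsum {A : Type} (T : Finset A) (g : G) (k : A → ℤ) :
    g ^ (∑ a ∈ T, k a) = ∏ a ∈ T, g ^ k a := by
  classical
  induction T using Finset.induction_on with
  | empty => simp
  | insert a T ha ih => rw [Finset.sum_insert ha, Finset.prod_insert ha, zpow_add, ih]

/-- exponents that give an element of a subgroup -/
def lam {B : Type} [Fintype B] (g : B → G) (H : Subgroup G) : Submodule ℤ (B → ℤ) where
  carrier := {m | ∏ b, g b ^ m b ∈ H}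
  zero_mem' := by simp
  add_mem' := fun {m m'} h h' => by
    have := H.mul_mem h h'
    rw [← Finset.prod_mul_distrib] at this
    simpa only [Set.mem_ofPred_eq, Pi.add_apply, zpow_add] using this
  smul_mem' := fun k m h => by
    have := H.zpow_mem h k
    rw [← Finset.prod_zpow] at this
    simpa only [Set.mem_ofPred_eq, Pi.smul_apply, smul_eq_mul, zpow_mul'] using this

theorem cst (g : G) : ExpT C fun _ => g :=
  ⟨Unit, inferInstance, fun _ => g, fun _ _ => 1, fun _ => by simpa using C.one,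
    Eventually.of_forall fun _ => by simp⟩

theorem mul {u v : X → G} (hu : ExpT C u) (hv : ExpT C v) : ExpT C fun x => u x * v x := by
  obtain ⟨B, _, g, m, h1, h2⟩ := hu
  obtain ⟨B', _, g', m', h3, h4⟩ := hv
  refine ⟨B ⊕ B', inferInstance, Sum.elim g g', Sum.elim m m', ?_, ?_⟩
  · rintro (b | b)
    exacts [h1 b, h3 b]
  · filter_upwards [h2, h4] with x h5 h6
    rw [Fintype.prod_sum_type, h5, h6]
    rfl

theorem pow {u : X → G} (k : ℤ) (hu : ExpT C u) : ExpT C fun x => u x ^ k := by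
  obtain ⟨B, _, g, m, h1, h2⟩ := hu
  refine ⟨B, inferInstance, fun b => g b ^ k, m, h1, ?_⟩
  filter_upwards [h2] with x h
  rw [h, ← Finset.prod_zpow]
  exact Finset.prod_congr rfl fun b _ => zpow_comm _ _ _

theorem sub {u : X → G} (H : Subgroup G) (hu : ExpT C u)
    (h : ∀ᶠ x in (C.U : Filter X), u x ∈ H) : ∀ᶠ x in C.c, u x ∈ H := by
  obtain ⟨B, _, g, m, h1, h2⟩ := hu
  have h3 := lat C h1 (lam g H) (by
    filter_upwards [h, h2.filter_mono C.le] with x h4 h5
    rw [h5] at h4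
    exact h4)
  filter_upwards [h2, h3] with x h4 h5
  rw [h4]
  exact h5

theorem pull {G' : Type} [CommGroup G'] (j : G' →* G) {u : X → G} (hu : ExpT C u)
    (h : ∀ᶠ x in C.c, u x ∈ j.range) :
    ∃ u' : X → G', ExpT C u' ∧ ∀ᶠ x in C.c, j (u' x) = u x := by
  obtain ⟨B, _, g, m, h1, h2⟩ := hu
  obtain ⟨n, θ, f, a, v, ha, hv, h3, h4⟩ := snf B (lam g j.range)
  choose g' hg' using fun i => (MonoidHom.mem_range.1 (hv i) : ∃ y, j y = ∏ b, g b ^ v i b)
  have h5 : ∀ᶠ x in C.c, (fun b => m b x) ∈ lam g j.range := by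
    filter_upwards [h, h2] with x h5 h6
    rw [h6] at h5
    exact h5
  refine ⟨fun x => ∏ i, g' i ^ (θ (f i) (fun b => m b x) / a i),
    ⟨Fin n, inferInstance, g', fun i x => θ (f i) (fun b => m b x) / a i, fun i => ?_,
      Eventually.of_forall fun _ => rfl⟩, ?_⟩
  · refine C.congr _ (C.L.smul_mem (a i : ℚ)⁻¹ (lin C h1 (θ (f i)))) _ ?_
    filter_upwards [h5] with x hx
    rw [Int.cast_div ((h3 _ hx).2 i) (by exact_mod_cast ha i), Pi.smul_apply, smul_eq_mul,
      div_eq_inv_mul]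
  · filter_upwards [h5, h2] with x hx h6
    have h7 := h4 _ (h3 _ hx).1 (h3 _ hx).2
    rw [h6, map_prod]
    simp only [map_zpow, hg', ← Finset.prod_zpow]
    rw [Finset.prod_comm]
    refine Finset.prod_congr rfl fun b _ => ?_
    have h8 := congrFun h7 b
    rw [Finset.sum_apply] at h8
    rw [h8, zsum]
    exact Finset.prod_congr rfl fun i _ => by rw [Pi.smul_apply, smul_eq_mul, zpow_mul']

end EXP

theorem rowExp : ExpS := by
  intro X G _ C
  refine ⟨EXP.cst C, fun u v => EXP.mul C, fun u k => EXP.pow C k, fun A T u h => ?_,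
    fun u v ⟨B, i, g, m, h1, h2⟩ h => ⟨B, i, g, m, h1, ?_⟩,
    fun G' _ j u ⟨B, i, g, m, h1, h2⟩ => ⟨B, i, fun b => j (g b), m, h1, ?_⟩, fun A _ u h => ?_,
    fun u H => EXP.sub C H, fun G' _ j u _ => EXP.pull C j⟩
  · classical
    induction T using Finset.induction_on with
    | empty => simpa using EXP.cst C (1 : G)
    | insert a T ha ih =>
      simp only [Finset.prod_insert ha]
      exact EXP.mul C (h a (Finset.mem_insert_self _ _))
        (ih fun b hb => h b (Finset.mem_insert_of_mem hb))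
  · filter_upwards [h, h2] with x h3 h4
    rw [h3, h4]
  · filter_upwards [h2] with x h3
    simp only [h3, map_prod, map_zpow]
  · choose B i g m h1 h2 using h
    refine ⟨Subgroup.closure (Set.range fun s : Σ a, B a => g s.1 s.2),
      (Subgroup.fg_iff _).2 ⟨_, rfl, Set.finite_range _⟩, ?_⟩
    filter_upwards [eventually_all.2 h2] with x hx a
    rw [hx a]
    refine Subgroup.prod_mem _ fun b _ => Subgroup.zpow_mem _ (Subgroup.subset_closure ?_) _
    exact ⟨⟨a, b⟩, rfl⟩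

end Pool.Agent.MP_be2dd8_ag.H81
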