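import Pool.Agent.MP_be2dd8_ag.H81.Spec

set_option autoImplicit false

/-! No excessive cancellation, with moving coefficients. -/

namespace Pool.Agent.MP_be2dd8_ag.H81

open Filter Topology
open Pool.Agent.MP_be2dd8_ag.H53 Pool.Agent.MP_be2dd8_ag.H53.Gl

namespace GAP

variable {F A : Type} [NormedField F] (δ : Derivation ℤ F F)

lemma wr (T : Finset A) (e0 : F) (e : A → F) (z : A → Fˣ) :
    ∑ a ∈ T, (e0 * δ (e a) - e a * δ e0 + e0 * e a * (δ (z a : F) / z a)) * (z a : F) =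
      e0 * δ (e0 + ∑ a ∈ T, e a * z a) - (e0 + ∑ a ∈ T, e a * z a) * δ e0 := by
  rw [map_add, map_sum, mul_add, add_mul, Finset.mul_sum, Finset.sum_mul,
    add_sub_add_left_eq_sub, ← Finset.sum_sub_distrib]
  refine Finset.sum_congr rfl fun a _ => ?_
  have := (z a).ne_zero
  rw [δ.leibniz]
  simp only [smul_eq_mul]
  field_simp
  ring

lemma quo {e : F} (w : F) (h : e ≠ 0) : e * δ w - w * δ e = e ^ 2 * δ (w / e) := by
  rw [δ.leibniz_div]
  simp only [smul_eq_mul]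
  field_simp

lemma lg (y y' : Fˣ) : δ ((y / y' : Fˣ) : F) / (y / y' : Fˣ) = δ (y : F) / y - δ (y' : F) / y' := by
  have := y.ne_zero
  have := y'.ne_zero
  rw [Units.val_div_eq_div_val, δ.leibniz_div]
  simp only [smul_eq_mul]
  field_simp

lemma fac (T : Finset A) (e0 : F) (e : A → F) (y : A → Fˣ) (y0 : Fˣ) :
    e0 * y0 + ∑ a ∈ T, e a * (y a : F) = (e0 + ∑ a ∈ T, e a * (y a / y0 : Fˣ)) * y0 := by
  rw [add_mul, Finset.sum_mul]
  simp [mul_assoc]

lemma aux {X : Type} {D : ℝ} (hD : ∀ x, ‖δ x‖ ≤ D * ‖x‖) (hk : ∀ x, δ x = 0 → ‖x‖ ≤ 1)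
    {U : Ultrafilter X} {E : Subring (X → F)} (hE : Tame U δ E) (T : Finset A) :
    ∀ (Y : A → X → Fˣ) (e : A → X → F), (∀ a, e a ∈ E) →
      (∀ a, (fun x => δ (Y a x : F) / Y a x) ∈ E) →
      (∀ᶠ x in (U : Filter X), ∑ a ∈ T, e a x * (Y a x : F) = 0) ∨
      ∃ ε : ℝ, 0 < ε ∧ ∀ᶠ x in (U : Filter X),
        ∃ a, ε * ‖(Y a x : F)‖ ≤ ‖∑ a ∈ T, e a x * (Y a x : F)‖ := by
  classical
  induction T using Finset.induction_on with
  | empty => exact fun _ _ _ _ => Or.inl (by simp)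
  | insert a0 T ha0 ih =>
    intro Y e he hY
    simp only [Finset.sum_insert ha0]
    obtain ⟨⟨B, hB⟩, h0 | ⟨η, hη, h0⟩⟩ := hE.2.2.2 _ (he a0)
    · refine (ih Y e he hY).imp (fun h => ?_) fun ⟨ε, hε, h⟩ => ⟨ε, hε, ?_⟩ <;>
        filter_upwards [h, h0] with x hx h0 <;> rwa [h0, zero_mul, zero_add]
    have hz : ∀ a, (fun x => δ ((Y a x / Y a0 x : Fˣ) : F) / (Y a x / Y a0 x : Fˣ)) ∈ E :=
      fun a => by
        simp only [lg]
        exact E.sub_mem (hY a) (hY a0)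
    have := ih (fun a x => Y a x / Y a0 x) (fun a x => e a0 x * δ (e a x) - e a x * δ (e a0 x) +
      e a0 x * e a x * (δ ((Y a x / Y a0 x : Fˣ) : F) / (Y a x / Y a0 x : Fˣ))) (fun a =>
        E.add_mem (E.sub_mem (E.mul_mem (he a0) (hE.2.1 _ (he a)))
          (E.mul_mem (he a) (hE.2.1 _ (he a0)))) (E.mul_mem (E.mul_mem (he a0) (he a)) (hz a))) hz
    simp only [wr] at this
    simp only [fac T _ (fun a => e a _) (fun a => Y a _)]
    set w : X → F := fun x => e a0 x + ∑ a ∈ T, e a x * (Y a x / Y a0 x : Fˣ) with hw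
    change (∀ᶠ x in _, w x * _ = 0) ∨ ∃ ε, _ ∧ ∀ᶠ x in _, ∃ a, _ ≤ ‖w x * _‖
    change (∀ᶠ x in _, _ * δ (w x) - w x * _ = 0) ∨
      ∃ ε, _ ∧ ∀ᶠ x in _, ∃ a, _ ≤ ‖_ * δ (w x) - w x * _‖ at this
    clear_value w
    obtain h | ⟨ε, hε, h⟩ := this
    · refine (U.em fun x => w x = 0).imp (fun k => k.mono fun x hx => by rw [hx, zero_mul])
        fun k => ⟨η, hη, ?_⟩
      filter_upwards [h, h0, k] with x hx h0 k
      have e0 := hη.trans_le h0
      rw [quo δ _ (norm_pos_iff.1 e0), mul_eq_zero] at hx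
      have h3 := norm_cst hk (hx.resolve_left (pow_ne_zero _ (norm_pos_iff.1 e0)))
        (div_ne_zero k (norm_pos_iff.1 e0))
      rw [norm_div, div_eq_one_iff_eq e0.ne'] at h3
      exact ⟨a0, by rw [norm_mul, h3]; gcongr⟩
    · refine Or.inr ⟨ε / (max D 1 * max B 1), by positivity, ?_⟩
      filter_upwards [h, h0, hB] with x ⟨a, hx⟩ h0 hB
      have e0 := hη.trans_le h0
      have h3 : ‖δ (w x / e a0 x)‖ ≤ max D 1 * (‖w x‖ / ‖e a0 x‖) := by
        rw [← norm_div]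
        exact (hD _).trans (mul_le_mul_of_nonneg_right (le_max_left _ _) (norm_nonneg _))
      have h5 : ‖(Y a x : F)‖ = ‖((Y a x / Y a0 x : Fˣ) : F)‖ * ‖(Y a0 x : F)‖ := by
        rw [← norm_mul]
        simp
      refine ⟨a, ?_⟩
      rw [h5, norm_mul, ← mul_assoc]
      refine mul_le_mul_of_nonneg_right ?_ (norm_nonneg _)
      rw [div_mul_eq_mul_div, div_le_iff₀ (by positivity)]
      refine hx.trans ?_
      rw [quo δ _ (norm_pos_iff.1 e0), norm_mul, norm_pow]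
      calc _ ≤ ‖e a0 x‖ ^ 2 * (max D 1 * (‖w x‖ / ‖e a0 x‖)) := by gcongr
        _ = ‖w x‖ * (max D 1 * ‖e a0 x‖) := by field_simp
        _ ≤ _ := by gcongr; exact hB.trans (le_max_left _ _)

end GAP

theorem rowGap : GapS := fun _ _ _ _ _ _ δ _ hD hk _ _ hE => GAP.aux δ hD hk hE Finset.univ

end Pool.Agent.MP_be2dd8_ag.H81
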