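import Pool.Agent.MP_be2dd8_ag.H81.Spec

set_option autoImplicit false

/-! Simultaneous interpolation of all jets of finitely many orbits. -/

namespace Pool.Agent.MP_be2dd8_ag.H81

open Polynomial Filter
open Pool.Agent.MP_be2dd8_ag.H53D Pool.Agent.MP_be2dd8_ag.H53D.Main

namespace JET

/-- a model of finitely many polynomials over a finitely generated ring -/
lemma model {κ J : Type} [Field κ] [CharZero κ] [IsAlgClosed κ] [Fintype J] (α : J → κ)
    (f : J → κ[X]) :
    ∃ (m : ℕ) (g : MvPolynomial (Fin m) ℤ) (μ : (Ao m g)[X]) (e : AdjoinRoot μ →+* κ)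
      (α' : J → AdjoinRoot μ) (f' : J → (AdjoinRoot μ)[X]),
      g ≠ 0 ∧ μ.Monic ∧ Function.Injective e ∧ (∀ i, e (α' i) = α i) ∧
      (∀ i, (f' i).map e = f i) ∧ ∀ i, 0 < (f i).natDegree → IsUnit (f' i).leadingCoeff ∧
        ∃ (u : AdjoinRoot μ) (cs : Multiset (AdjoinRoot μ)), IsUnit u ∧
          (f' i).derivative = C u * (cs.map fun c => X - C c).prod := by
  classical
  obtain ⟨m, g, μ, e, hg, hμ, he, hE⟩ := pres κ (Finset.univ.biUnion fun i =>
    {α i, (f i).leadingCoeff⁻¹, (f i).derivative.leadingCoeff⁻¹} ∪ (f i).coeffs ∪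
      (f i).derivative.roots.toFinset)
  have hα : ∀ i, ∃ a, e a = α i := fun i => hE _ (by
    simp only [Finset.mem_biUnion]; exact ⟨i, by simp, by simp⟩)
  have hf : ∀ i, ∃ f' : (AdjoinRoot μ)[X], f'.map e = f i := fun i => by
    rw [← mem_lifts, lifts_iff_coeffs_subset_range]
    intro c hc
    exact hE _ (by
      simp only [Finset.mem_biUnion]; exact ⟨i, by simp, by simp [Finset.mem_coe.1 hc]⟩)
  choose α' hα' using hα
  choose f' hf' using hf
  have unit : ∀ (q : (AdjoinRoot μ)[X]), q.map e ≠ 0 → (q.map e).leadingCoeff⁻¹ ∈ e.range →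
      IsUnit q.leadingCoeff := by
    rintro q hq ⟨v, hv⟩
    refine IsUnit.of_mul_eq_one v (he ?_)
    rw [map_mul, hv, map_one, ← leadingCoeff_map_of_injective he,
      mul_inv_cancel₀ (leadingCoeff_ne_zero.2 hq)]
  refine ⟨m, g, μ, e, α', f', hg, hμ, he, hα', hf', fun i hi => ⟨unit _ ?_ ?_, ?_⟩⟩
  · rw [hf']; rintro h; simp [h] at hi
  · rw [hf']
    exact hE _ (by simp only [Finset.mem_biUnion]; exact ⟨i, by simp, by simp⟩)
  · have hd : (f' i).derivative.map e = (f i).derivative := by rw [← derivative_map, hf']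
    have hd0 : (f i).derivative ≠ 0 := fun h => by
      have := derivative_eq_zero.1 h
      omega
    have hcs : ∃ cs : Multiset (AdjoinRoot μ), cs.map e = (f i).derivative.roots := by
      have : ∀ c ∈ (f i).derivative.roots, ∃ a, e a = c := fun c hc => hE _ (by
        simp only [Finset.mem_biUnion]
        exact ⟨i, by simp, Finset.mem_union_right _ (Multiset.mem_toFinset.2 hc)⟩)
      choose! l hl using this
      refine ⟨(f i).derivative.roots.map l, ?_⟩
      rw [Multiset.map_map]
      conv_rhs => rw [← Multiset.map_id (f i).derivative.roots]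
      exact Multiset.map_congr rfl hl
    obtain ⟨cs, hcs⟩ := hcs
    refine ⟨(f' i).derivative.leadingCoeff, cs, unit _ (by rw [hd]; exact hd0) ?_, ?_⟩
    · rw [hd]
      exact hE _ (by simp only [Finset.mem_biUnion]; exact ⟨i, by simp, by simp⟩)
    · apply map_injective e he
      rw [Polynomial.map_mul, map_C, ← leadingCoeff_map_of_injective he, hd,
        Polynomial.map_multiset_prod, Multiset.map_map]
      have := C_leadingCoeff_mul_prod_multiset_X_sub_C
        (IsAlgClosed.card_roots_eq_natDegree (p := (f i).derivative))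
      rw [← hcs, Multiset.map_map] at this
      refine this.symm.trans ?_
      congr 2
      exact Multiset.map_congr rfl fun c _ => by simp

lemma jet_map {R S : Type} [CommRing R] [CommRing S] (e : R →+* S) (f : R[X]) (a : R) (n l : ℕ) :
    e (jet f a n l) = jet (f.map e) (e a) n l := by
  have h := it_map (mapRingHom e) (f.map C) n (X + C a)
  rw [Polynomial.map_map, mapRingHom_comp_C, ← Polynomial.map_map] at h
  simp only [coe_mapRingHom, Polynomial.map_add, map_X, map_C] at h
  rw [jet, jet, ← h, coeff_map]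

end JET

open JET in
theorem rowJet : OfJet := by
  intro hO κ J _ _ _ _ f α hdeg hcr
  classical
  obtain ⟨m, g, μ, e, α', f', hg, hμ, he, hα, hf, hu⟩ := JET.model α f
  have hdom : IsDomain (AdjoinRoot μ) := he.isDomain e
  have hit : ∀ i n, e (it (f' i) n (α' i)) = it (f i) n (α i) := fun i n => by
    rw [it_map, hf, hα]
  have hev : ∀ j, ∀ᶠ n in atTop, (f' j).derivative.eval (it (f' j) n (α' j)) ≠ 0 := fun j =>
    (hcr j).mono fun n hn h0 => hn (by
      rw [← hit, ← hf, derivative_map, eval_map, eval₂_at_apply, h0, map_zero])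
  obtain ⟨s, hs⟩ := spec _ (fam unitS m g μ hg hμ hdom) J f' α' (fun j => (hu _ (hdeg j)).2) hev
  have : @Algebra.FiniteType ℤ (AdjoinRoot μ) _ _ (Ring.toIntAlgebra _) := by
    have h1 : Algebra.FiniteType ℤ (Ao m g) :=
      Algebra.FiniteType.trans (S := MvPolynomial (Fin m) ℤ) inferInstance inferInstance
    have h2 : Algebra.FiniteType ℤ (AdjoinRoot μ) := h1.trans inferInstance
    rw [Subsingleton.elim (Ring.toIntAlgebra (AdjoinRoot μ)) (AdjoinRoot.instAlgebra μ)]
    exact h2
  obtain ⟨k, _, _, ρ, hρ⟩ := allGood _ s J f' α' (fun j => ⟨by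
    have := hdeg j
    rwa [← hf, natDegree_map_eq_of_injective he] at this, (hu _ (hdeg j)).1⟩) hs
  obtain ⟨F, _, _, _, p, ι, hp, hp1, hι, h1, h2⟩ := H53D.lift m g μ hg hμ hdom k ρ
  obtain ⟨-, -, r3⟩ := H53D.ring F (‖(p : F)‖ ^ 2) (by positivity)
  have all : ∀ i, ∃ n0 P : ℕ, 0 < P ∧ ∀ a, n0 ≤ a → ∀ l,
      Mah (‖(p : F)‖ ^ 2) fun k => ι (jet (f' i) (α' i) (a + P * k) l) := fun i =>
    hO _ k F p ι ρ hp hp1 h1 h2 _ _ (hρ i)
  choose n0 P hP0 hM using all
  refine ⟨_, F, _, hdom, _, inferInstance, inferInstance, p, e, ι,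
    fun i n l => jet (f' i) (α' i) n l, ∑ i, n0 i, ∏ i, P i, hp, hp1, he, hι,
    Finset.prod_pos fun i _ => hP0 i, fun i n l => by rw [jet_map, hf, hα], fun i l a ha => ?_⟩
  obtain ⟨c, hc⟩ := Finset.dvd_prod_of_mem P (Finset.mem_univ i)
  have := r3 _ 0 c (hM i a ((Finset.single_le_sum (fun _ _ => Nat.zero_le _)
    (Finset.mem_univ i)).trans ha) l)
  simpa only [zero_add, hc, mul_assoc] using this

end Pool.Agent.MP_be2dd8_ag.H81
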