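import Pool.Agent.MP_be2dd8_ag.H81.Spec

set_option autoImplicit false

/-!
A Noetherian property of Newton series in several variables: a division algorithm with respect to
leading terms.
-/

namespace Pool.Agent.MP_be2dd8_ag.H81

open Filter Topology Polynomial
open Pool.Agent.MP_be2dd8_ag.H53D

namespace NF

variable {F : Type} [NormedField F] {N : ℕ}

/-- the box below `k` -/
def box (k : Fin N → ℕ) : Finset (Fin N → ℕ) := Fintype.piFinset fun i => Finset.range (k i + 1)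

theorem mem_box {k κ : Fin N → ℕ} : κ ∈ box k ↔ ∀ i, κ i ≤ k i := by
  simp only [box, Fintype.mem_piFinset, Finset.mem_range, Nat.lt_succ_iff]

/-- products of falling factorials -/
def wt (κ k : Fin N → ℕ) : ℕ := ∏ i, (k i).descFactorial (κ i)

/-- the Newton series -/
def ev (a : (Fin N → ℕ) → F) (k : Fin N → ℕ) : F := ∑ κ ∈ box k, a κ * wt κ k

/-- multiplication by a coordinate -/
def TT (j : Fin N) (a : (Fin N → ℕ) → F) (κ : Fin N → ℕ) : F :=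
  (if κ j = 0 then 0 else a (κ - Pi.single j 1)) + κ j * a κ

theorem wt_zero {κ k : Fin N → ℕ} (h : κ ∉ box k) : wt κ k = 0 := by
  rw [mem_box, not_forall] at h
  obtain ⟨i, hi⟩ := h
  exact Finset.prod_eq_zero (Finset.mem_univ i) (Nat.descFactorial_of_lt (not_le.1 hi))

theorem wt_succ (j : Fin N) (κ k : Fin N → ℕ) :
    wt (κ + Pi.single j 1) k = (k j - κ j) * wt κ k := by
  rw [wt, wt, ← Finset.mul_prod_erase _ _ (Finset.mem_univ j),
    ← Finset.mul_prod_erase _ _ (Finset.mem_univ j), ← mul_assoc, ← Nat.descFactorial_succ,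
    Pi.add_apply, Pi.single_eq_same]
  congr 1
  refine Finset.prod_congr rfl fun i hi => ?_
  rw [Pi.add_apply, Pi.single_eq_of_ne (Finset.ne_of_mem_erase hi), add_zero]

theorem sub_add {j : Fin N} {κ : Fin N → ℕ} (h : κ j ≠ 0) :
    κ - Pi.single j 1 + Pi.single j 1 = κ := by
  funext i
  rw [Pi.add_apply, Pi.sub_apply]
  by_cases e : i = j
  · subst e
    rw [Pi.single_eq_same]
    omega
  · rw [Pi.single_eq_of_ne e]
    omega

theorem ev_TT (j : Fin N) (a : (Fin N → ℕ) → F) (k : Fin N → ℕ) :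
    ev (TT j a) k = k j * ev a k := by
  have h : ∑ κ ∈ box k, (if κ j = 0 then 0 else a (κ - Pi.single j 1)) * (wt κ k : F) =
      ∑ κ ∈ box k, a κ * wt (κ + Pi.single j 1) k := by
    rw [← Finset.sum_congr_of_eq_on_inter (s₁ := (box k).map (addRightEmbedding (Pi.single j 1)))
      (fun κ _ h => by rw [wt_zero h, Nat.cast_zero, mul_zero]) (fun κ h h' => ?_) fun _ _ _ => rfl,
      Finset.sum_map]
    · refine Finset.sum_congr rfl fun κ _ => ?_
      simp [addRightEmbedding_apply]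
    · rw [if_pos, zero_mul]
      by_contra h0
      exact h' (Finset.mem_map.2 ⟨κ - Pi.single j 1, mem_box.2 fun i =>
        (Nat.sub_le _ _).trans (mem_box.1 h i), sub_add h0⟩)
  simp only [ev, TT, add_mul]
  rw [Finset.sum_add_distrib, h, ← Finset.sum_add_distrib, Finset.mul_sum]
  refine Finset.sum_congr rfl fun κ hκ => ?_
  rw [wt_succ, Nat.cast_mul, Nat.cast_sub (mem_box.1 hκ j)]
  ring

theorem ev_lin (a b : (Fin N → ℕ) → F) (c : F) (k : Fin N → ℕ) :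
    ev (fun κ => a κ + c * b κ) k = ev a k + c * ev b k := by
  simp only [ev, add_mul, Finset.sum_add_distrib, Finset.mul_sum, mul_assoc]

/-- null families whose series vanishes along a filter -/
def ZZ (𝓕 : Filter (Fin N → ℕ)) (a : (Fin N → ℕ) → F) : Prop :=
  Tendsto a cofinite (𝓝 0) ∧ ∀ᶠ k in 𝓕, ev a k = 0

theorem ZZ.lin {𝓕 : Filter (Fin N → ℕ)} {a b : (Fin N → ℕ) → F} (ha : ZZ 𝓕 a) (hb : ZZ 𝓕 b)
    (c : F) : ZZ 𝓕 fun κ => a κ + c * b κ :=
  ⟨by simpa using ha.1.add (hb.1.const_mul c),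
    (ha.2.and hb.2).mono fun k h => by rw [ev_lin, h.1, h.2, mul_zero, add_zero]⟩

theorem fin_of {a : (Fin N → ℕ) → F} (ha : Tendsto a cofinite (𝓝 0)) {ε : ℝ} (h : 0 < ε) :
    {κ | ε ≤ ‖a κ‖}.Finite := by
  have h1 := (tendsto_zero_iff_norm_tendsto_zero.1 ha).eventually (gt_mem_nhds h)
  simpa only [eventually_cofinite, not_lt] using h1

/-- leading terms -/
def Lead (θ : ℝ) (a : (Fin N → ℕ) → F) (k : Fin N → ℕ) : Prop :=
  a k ≠ 0 ∧ (∀ κ, ‖a κ‖ ≤ ‖a k‖) ∧ ∀ κ, toLex k < toLex κ → ‖a κ‖ ≤ θ * ‖a k‖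

theorem top {a : (Fin N → ℕ) → F} (ha : Tendsto a cofinite (𝓝 0)) {k1 : Fin N → ℕ}
    (h : a k1 ≠ 0) : ∃ k, ∀ᶠ θ in 𝓝[<] (1 : ℝ), Lead θ a k := by
  have h0 := norm_pos_iff.2 h
  obtain ⟨k, hk, hm⟩ := Set.exists_max_image _ (fun κ => toLex (‖a κ‖, toLex κ)) (fin_of ha h0)
    ⟨k1, le_refl ‖a k1‖⟩
  have hk' : ‖a k1‖ ≤ ‖a k‖ := hk
  have hp := h0.trans_le hk'
  have h1 : ∀ κ, ‖a κ‖ < ‖a k‖ ∨ ‖a κ‖ = ‖a k‖ ∧ toLex κ ≤ toLex k := fun κ =>
    (lt_or_ge ‖a κ‖ ‖a k1‖).elim (fun e => Or.inl (e.trans_le hk')) fun e =>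
      Prod.Lex.toLex_le_toLex.1 (hm κ e)
  have ht : Tendsto (fun θ : ℝ => θ * ‖a k‖) (𝓝[<] 1) (𝓝 ‖a k‖) := by
    simpa using ((tendsto_id (x := 𝓝 (1 : ℝ))).mul_const ‖a k‖).mono_left nhdsWithin_le_nhds
  have h2 : ∀ᶠ θ in 𝓝[<] (1 : ℝ), ∀ κ ∈ {κ | ‖a k‖ / 2 ≤ ‖a κ‖}, ‖a κ‖ < ‖a k‖ →
      ‖a κ‖ < θ * ‖a k‖ := by
    refine (eventually_all_finite (fin_of ha (half_pos hp))).2 fun κ _ => ?_
    by_cases e : ‖a κ‖ < ‖a k‖
    · exact (ht.eventually (lt_mem_nhds e)).mono fun _ h _ => h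
    · exact Eventually.of_forall fun _ h => absurd h e
  refine ⟨k, (h2.and (ht.eventually (lt_mem_nhds (half_lt_self hp)))).mono fun θ hθ =>
    ⟨norm_pos_iff.1 hp, fun κ => (h1 κ).elim le_of_lt fun e => e.1.le, fun κ hκ => ?_⟩⟩
  rcases le_or_gt (‖a k‖ / 2) ‖a κ‖ with e | e
  · exact (hθ.1 κ e ((h1 κ).resolve_right fun e => e.2.not_gt hκ)).le
  · exact (e.trans hθ.2).le

variable [IsUltrametricDist F]

theorem nat_mul_le (n : ℕ) (x : F) : ‖(n : F) * x‖ ≤ ‖x‖ := by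
  rw [norm_mul]
  exact mul_le_of_le_one_left (norm_nonneg _) (IsUltrametricDist.norm_natCast_le_one F n)

theorem ev_le {a : (Fin N → ℕ) → F} {ρ : ℝ} (h : ∀ κ, ‖a κ‖ ≤ ρ) (k : Fin N → ℕ) :
    ‖ev a k‖ ≤ ρ :=
  IsUltrametricDist.norm_sum_le_of_forall_le_of_nonneg ((norm_nonneg _).trans (h 0)) fun κ _ => by
    rw [mul_comm]
    exact (nat_mul_le _ _).trans (h κ)

theorem ZZ.tt {𝓕 : Filter (Fin N → ℕ)} {a : (Fin N → ℕ) → F} (ha : ZZ 𝓕 a) (j : Fin N) :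
    ZZ 𝓕 (TT j a) := by
  refine ⟨?_, ha.2.mono fun k h => by rw [ev_TT, h, mul_zero]⟩
  have h1 : Tendsto (fun κ : Fin N → ℕ => κ - Pi.single j 1) cofinite cofinite :=
    Tendsto.cofinite_of_finite_preimage_singleton fun b =>
      (box (b + Pi.single j 1)).finite_toSet.subset fun κ hκ => mem_box.2 fun i => by
        have h := congrFun (show κ - Pi.single j 1 = b from hκ) i
        rw [Pi.sub_apply] at h
        rw [Pi.add_apply]
        omega
  have h2 := tendsto_zero_iff_norm_tendsto_zero.1 ha.1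
  refine squeeze_zero_norm (fun κ => ?_) (by simpa using (h2.comp h1).add h2)
  refine (norm_add_le _ _).trans (add_le_add ?_ (nat_mul_le _ _))
  split_ifs
  · simp
  · exact le_rfl

theorem Lead.tt {θ : ℝ} (h0 : 0 ≤ θ) (h1 : θ < 1) {a : (Fin N → ℕ) → F} {k : Fin N → ℕ}
    (ha : Lead θ a k) (j : Fin N) : Lead θ (TT j a) (k + Pi.single j 1) := by
  have hlt : toLex k < toLex (k + Pi.single j 1) :=
    Pi.toLex_strictMono (lt_add_of_pos_right _ (Pi.single_pos.2 one_pos))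
  have hp := norm_pos_iff.2 ha.1
  have e : ‖TT j a (k + Pi.single j 1)‖ = ‖a k‖ := by
    have h2 := ((nat_mul_le ((k + Pi.single j 1 : Fin N → ℕ) j) _).trans (ha.2.2 _ hlt)).trans_lt
      (mul_lt_of_lt_one_left hp h1)
    rw [TT, if_neg (by simp), add_tsub_cancel_right,
      IsUltrametricDist.norm_add_eq_max_of_norm_ne_norm h2.ne', max_eq_left h2.le]
  refine ⟨norm_pos_iff.1 (e ▸ hp), fun κ => ?_, fun κ hκ => ?_⟩ <;> rw [e] <;>
    refine (IsUltrametricDist.norm_add_le_max _ _).trans (max_le ?_ ((nat_mul_le _ _).trans ?_))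
  · split_ifs
    · simp
    · exact ha.2.1 _
  · exact ha.2.1 _
  · split_ifs with h
    · simpa using mul_nonneg h0 hp.le
    · refine ha.2.2 _ (lt_of_add_lt_add_right (a := toLex (Pi.single j 1)) ?_)
      rwa [← toLex_add, ← toLex_add, sub_add h]
  · exact ha.2.2 _ (hlt.trans hκ)

theorem up {θ : ℝ} (h0 : 0 ≤ θ) (h1 : θ < 1) (𝓕 : Filter (Fin N → ℕ)) (b : Fin N → ℕ) :
    ∀ (a : (Fin N → ℕ) → F) (k : Fin N → ℕ), ZZ 𝓕 a → Lead θ a k →
      ∃ h : (Fin N → ℕ) → F, ZZ 𝓕 h ∧ Lead θ h (k + b) := by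
  induction b using Pi.single_induction with
  | zero => exact fun a k h h' => ⟨a, h, by rwa [add_zero]⟩
  | add b c hb hc =>
    intro a k h h'
    obtain ⟨a', h2, h3⟩ := hb a k h h'
    rw [← add_assoc]
    exact hc a' _ h2 h3
  | single j m =>
    intro a k h h'
    induction m with
    | zero => exact ⟨a, h, by rwa [Pi.single_zero, add_zero]⟩
    | succ m ih =>
      obtain ⟨a', h2, h3⟩ := ih
      rw [Pi.single_add, ← add_assoc]
      exact ⟨_, h2.tt j, h3.tt h0 h1 j⟩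

/-- the division algorithm -/
theorem division {θ ρ : ℝ} (h0 : 0 < θ) (hρ : 0 < ρ) {𝓕 : Filter (Fin N → ℕ)}
    {W : Set (Fin N → ℕ)} (hW : W ∈ 𝓕) (D : Set (Fin N → ℕ))
    (hD : ∀ κ ∈ D, ∃ h : (Fin N → ℕ) → F, ZZ (𝓟 W) h ∧ Lead θ h κ)
    (hT : ∀ (a : (Fin N → ℕ) → F) (k : Fin N → ℕ), ZZ 𝓕 a → a k ≠ 0 → ∃ κ ∈ D, ‖a k‖ ≤ ‖a κ‖)
    (a : (Fin N → ℕ) → F) (ha : ZZ 𝓕 a) (hb : ∀ κ, ‖a κ‖ ≤ ρ) :
    ∃ a' : (Fin N → ℕ) → F, ZZ 𝓕 a' ∧ (∀ κ, ‖a' κ‖ ≤ θ * ρ) ∧ ∀ k ∈ W, ev a' k = ev a k := by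
  let Q : ((Fin N → ℕ) → F) → Prop := fun a =>
    ∃ a' : (Fin N → ℕ) → F, ZZ 𝓕 a' ∧ (∀ κ, ‖a' κ‖ ≤ θ * ρ) ∧ ∀ k ∈ W, ev a' k = ev a k
  let P : Lex (Fin N → ℕ) → Prop := fun x => ∀ a : (Fin N → ℕ) → F, ZZ 𝓕 a → (∀ κ, ‖a κ‖ ≤ ρ) →
    (∀ κ ∈ D, θ * ρ < ‖a κ‖ → toLex κ < x) → Q a
  have hp := mul_pos h0 hρ
  have step : ∀ a : (Fin N → ℕ) → F, ZZ 𝓕 a → (∀ κ, ‖a κ‖ ≤ ρ) →
      (∀ κ ∈ D, θ * ρ < ‖a κ‖ → P (toLex κ)) → Q a := by
    intro a ha hb hP
    rcases Set.eq_empty_or_nonempty {κ | κ ∈ D ∧ θ * ρ < ‖a κ‖} with e | e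
    · refine ⟨a, ha, fun k => le_of_not_gt fun hk => ?_, fun _ _ => rfl⟩
      obtain ⟨κ, h1, h2⟩ := hT a k ha (norm_pos_iff.1 (hp.trans hk))
      exact (Set.eq_empty_iff_forall_notMem.1 e) κ ⟨h1, hk.trans_le h2⟩
    obtain ⟨k, hk, hm⟩ := Set.exists_max_image _ (fun κ => toLex κ)
      ((fin_of ha.1 hp).subset fun κ hκ => hκ.2.le) e
    obtain ⟨h, hh, hl⟩ := hD k hk.1
    have hn := norm_pos_iff.2 hl.1
    have hc : ∀ (κ : Fin N → ℕ) (t : ℝ), 0 ≤ t → ‖h κ‖ ≤ t * ‖h k‖ →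
        ‖-(a k / h k) * h κ‖ ≤ t * ρ := fun κ t ht e => by
      rw [norm_mul, norm_neg, norm_div, div_mul_eq_mul_div, div_le_iff₀ hn]
      calc ‖a k‖ * ‖h κ‖ ≤ ρ * (t * ‖h k‖) := mul_le_mul (hb k) e (norm_nonneg _) hρ.le
        _ = t * ρ * ‖h k‖ := by ring
    obtain ⟨a', h1, h2, h3⟩ := hP k hk.1 hk.2 _
      (ha.lin ⟨hh.1, hh.2.filter_mono (le_principal_iff.2 hW)⟩ (-(a k / h k)))
      (fun κ => (IsUltrametricDist.norm_add_le_max _ _).trans (max_le (hb κ)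
        (by simpa using hc κ 1 zero_le_one (by simpa using hl.2.1 κ)))) fun κ hκ hlt => by
        refine lt_of_not_ge fun hge => hlt.not_ge ?_
        rcases hge.eq_or_lt with e | e
        · rw [← toLex.injective e, neg_mul, div_mul_cancel₀ _ hl.1, add_neg_cancel, norm_zero]
          exact hp.le
        · exact (IsUltrametricDist.norm_add_le_max _ _).trans (max_le
            (le_of_not_gt fun h4 => (hm κ ⟨hκ, h4⟩).not_gt e) (hc κ θ h0.le (hl.2.2 κ e)))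
    exact ⟨a', h1, h2, fun k hk => by rw [h3 k hk, ev_lin, hh.2 hk, mul_zero, add_zero]⟩
  have hP : ∀ x, P x := fun x => by
    induction x using WellFoundedLT.induction with
    | ind x ih => exact fun a ha hb hx => step a ha hb fun κ h1 h2 => ih _ (hx κ h1 h2)
  exact step a ha hb fun κ _ _ => hP _

theorem noeth (𝓕 : Filter (Fin N → ℕ)) :
    ∃ W ∈ 𝓕, ∀ a : (Fin N → ℕ) → F, ZZ 𝓕 a → ∀ k ∈ W, ev a k = 0 := by
  let T : (Fin N → ℕ) → Prop := fun k =>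
    ∃ a : (Fin N → ℕ) → F, ZZ 𝓕 a ∧ ∀ᶠ θ in 𝓝[<] (1 : ℝ), Lead θ a k
  have hfin : {k | Minimal T k}.Finite :=
    WellQuasiOrderedLE.finite_of_isAntichain (setOfPred_minimal_antichain T)
  have : Finite {k | Minimal T k} := hfin
  choose g hg hl using fun k : {k | Minimal T k} => k.2.prop
  obtain ⟨θ, hθ, h0, h1⟩ := ((eventually_all.2 hl).and (Ioo_mem_nhdsLT zero_lt_one)).exists
  have hW : {n | ∀ k, ev (g k) n = 0} ∈ 𝓕 := eventually_all.2 fun k => (hg k).2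
  refine ⟨_, hW, fun a ha n hn => ?_⟩
  have hd := fun (ρ : ℝ) (hρ : 0 < ρ) => division (F := F) h0 hρ hW
    {κ | ∃ k : {k | Minimal T k}, k.1 ≤ κ} (fun κ ⟨k, hk⟩ => by
      rw [← add_tsub_cancel_of_le hk]
      exact up h0.le h1 _ _ (g k) k ⟨(hg k).1, fun n hn => hn k⟩ (hθ k)) fun a k ha hk => by
      obtain ⟨κ, hκ⟩ := top ha.1 hk
      obtain ⟨k', h2, h3⟩ := exists_minimal_le_of_wellFoundedLT T κ ⟨a, ha, hκ⟩
      exact ⟨κ, ⟨⟨k', h3⟩, h2⟩, hκ.exists.choose_spec.2.1 k⟩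
  obtain ⟨B, hB⟩ := ha.1.norm.bddAbove_range_of_cofinite
  have hb : ∀ κ, ‖a κ‖ ≤ B + 1 := fun κ => (hB ⟨κ, rfl⟩).trans (lt_add_one B).le
  have hρ : 0 < B + 1 := ((norm_nonneg _).trans (hB ⟨0, rfl⟩)).trans_lt (lt_add_one B)
  have hit : ∀ t : ℕ, ∃ a' : (Fin N → ℕ) → F, ZZ 𝓕 a' ∧ (∀ κ, ‖a' κ‖ ≤ θ ^ t * (B + 1)) ∧
      ev a' n = ev a n := fun t => by
    induction t with
    | zero => exact ⟨a, ha, by simpa using hb, rfl⟩
    | succ t ih =>
      obtain ⟨a1, h2, h3, h4⟩ := ih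
      obtain ⟨a2, h5, h6, h7⟩ := hd _ (by positivity) a1 h2 h3
      exact ⟨a2, h5, fun κ => by rw [pow_succ', mul_assoc]; exact h6 κ, (h7 n hn).trans h4⟩
  have ht := (tendsto_pow_atTop_nhds_zero_of_lt_one h0.le h1).mul_const (B + 1)
  rw [zero_mul] at ht
  refine norm_le_zero_iff.1 (ge_of_tendsto' ht fun t => ?_)
  obtain ⟨a', -, h2, h3⟩ := hit t
  exact h3 ▸ ev_le h2 n

theorem prod_ev [CharZero F] {p : ℕ} (hp : p.Prime) (h1 : ‖(p : F)‖ < 1) (y : Fin N → ℕ → F)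
    (hy : ∀ i, Mah (‖(p : F)‖ ^ 2) (y i)) :
    ∃ a : (Fin N → ℕ) → F, Tendsto a cofinite (𝓝 0) ∧ ∀ k, ev a k = ∏ i, y i (k i) := by
  choose A hA using hy
  let b : Fin N → ℕ → F := fun i n => (fwdDiff 1)^[n] (y i) 0 / (n.factorial : F)
  have hb : ∀ i n, ‖b i n‖ ≤ A i * ‖(p : F)‖ ^ n := fun i n => by
    have hk : 0 < ‖(n.factorial : F)‖ := norm_pos_iff.2 (Nat.cast_ne_zero.2 n.factorial_ne_zero)
    have hA0 : 0 ≤ A i := by simpa using (norm_nonneg _).trans (hA i 0 0)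
    rw [norm_div, div_le_iff₀ hk]
    calc _ ≤ A i * (‖(p : F)‖ ^ 2) ^ n := hA i n 0
      _ = A i * ‖(p : F)‖ ^ n * ‖(p : F)‖ ^ n := by ring
      _ ≤ _ := mul_le_mul_of_nonneg_left (ZR.le_norm_factorial hp h1 n) (by positivity)
  refine ⟨fun κ => ∏ i, b i (κ i), ?_, fun k => ?_⟩
  · have h2 : Tendsto (fun κ : Fin N → ℕ => ∑ i, κ i) cofinite atTop :=
      Nat.cofinite_eq_atTop ▸ Tendsto.cofinite_of_finite_preimage_singleton fun s =>
        (box fun _ => s).finite_toSet.subset fun κ hκ => mem_box.2 fun i =>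
          (Finset.single_le_sum (fun _ _ => Nat.zero_le _) (Finset.mem_univ i)).trans_eq hκ
    have h3 := ((tendsto_pow_atTop_nhds_zero_of_lt_one (norm_nonneg _) h1).comp h2).const_mul
      (∏ i, A i)
    rw [mul_zero] at h3
    refine squeeze_zero_norm (fun κ => ?_) h3
    rw [norm_prod, Function.comp_apply, ← Finset.prod_pow_eq_pow_sum, ← Finset.prod_mul_distrib]
    exact Finset.prod_le_prod (fun _ _ => norm_nonneg _) fun i _ => hb i _
  · have h2 : ∀ i, y i (k i) =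
        ∑ n ∈ Finset.range (k i + 1), b i n * ((k i).descFactorial n : F) := fun i => by
      rw [← ZR.newton (y i) (k i) (k i) le_rfl, eval_finsetSum]
      refine Finset.sum_congr rfl fun n _ => ?_
      rw [eval_smul, descPochhammer_eval_eq_descFactorial, smul_eq_mul]
    rw [Finset.prod_congr rfl fun i _ => h2 i, Finset.prod_univ_sum]
    refine Finset.sum_congr rfl fun κ _ => ?_
    rw [wt, Nat.cast_prod, Finset.prod_mul_distrib]

end NF

open NF in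
theorem rowNf : NfS := by
  intro F _ _ _ p hp h1 N V
  obtain ⟨W, hW, H⟩ := noeth (F := F) (V : Filter (Fin N → ℕ))
  obtain ⟨r1, r2, -⟩ := H53D.ring F (‖(p : F)‖ ^ 2) (by positivity)
  refine ⟨W, hW, fun φ hφ h0 k hk => ?_⟩
  have key : ∃ a : (Fin N → ℕ) → F, Tendsto a cofinite (𝓝 0) ∧ ∀ k, ev a k = φ k := by
    clear h0
    rw [← Subalgebra.mem_toSubmodule, Algebra.adjoin_eq_span] at hφ
    induction hφ using Submodule.span_induction with
    | mem x hx =>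
      have h : ∃ y : Fin N → ℕ → F, (∀ i, Mah (‖(p : F)‖ ^ 2) (y i)) ∧
          ∀ k, x k = ∏ i, y i (k i) := by
        induction hx using Submonoid.closure_induction with
        | mem x hx =>
          obtain ⟨i, y, hy, rfl⟩ := hx
          refine ⟨fun j => if j = i then y else fun _ => 1, fun j => ?_, fun k => ?_⟩
          · beta_reduce
            split_ifs
            exacts [hy, r1 1]
          · rw [Finset.prod_eq_single i (fun j _ hj => by simp [hj]) (by simp)]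
            simp
        | one => exact ⟨fun _ _ => 1, fun _ => r1 1, fun k => by simp⟩
        | mul x x' _ _ ih ih' =>
          obtain ⟨y, hy, e⟩ := ih
          obtain ⟨y', hy', e'⟩ := ih'
          exact ⟨fun i => y i * y' i, fun i => (r2 _ _ (hy i) (hy' i)).2, fun k => by
            simp only [Pi.mul_apply, e, e', Finset.prod_mul_distrib]⟩
      obtain ⟨y, hy, e⟩ := h
      obtain ⟨a, ha, e'⟩ := prod_ev hp h1 y hy
      exact ⟨a, ha, fun k => (e' k).trans (e k).symm⟩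
    | zero => exact ⟨fun _ => 0, tendsto_const_nhds, fun k => by simp [ev]⟩
    | add x y _ _ ih ih' =>
      obtain ⟨a, ha, e⟩ := ih
      obtain ⟨b, hb, e'⟩ := ih'
      exact ⟨fun κ => a κ + 1 * b κ, by simpa using ha.add hb, fun k => by
        rw [ev_lin, e, e', one_mul, Pi.add_apply]⟩
    | smul c x _ ih =>
      obtain ⟨a, ha, e⟩ := ih
      exact ⟨fun κ => a κ + (c - 1) * a κ, by simpa using ha.add (ha.const_mul (c - 1)), fun k => by
        rw [ev_lin, e, Pi.smul_apply, smul_eq_mul]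
        ring⟩
  obtain ⟨a, ha, e⟩ := key
  rw [← e]
  exact H a ⟨ha, h0.mono fun k h => (e k).trans h⟩ k hk

end Pool.Agent.MP_be2dd8_ag.H81
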