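import Pool.Agent.MP_be2dd8_ag.H81.Spec

set_option autoImplicit false

/-! The Noetherian property of the algebra of jets. -/

namespace Pool.Agent.MP_be2dd8_ag.H81

open Filter Topology Polynomial
open Pool.Agent.MP_be2dd8_ag.H53 Pool.Agent.MP_be2dd8_ag.H53.Gl Pool.Agent.MP_be2dd8_ag.H53D

namespace NOE

theorem jet_map {R S : Type} [CommRing R] [CommRing S] (s : R →+* S) (f : R[X]) (a : R)
    (n l : ℕ) : jet (f.map s) (s a) n l = s (jet f a n l) := by
  have h := GOOD.map_it (mapRingHom s) (f.map C) n (X + C a)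
  rw [Polynomial.map_map, mapRingHom_comp_C, ← Polynomial.map_map] at h
  simp only [coe_mapRingHom, Polynomial.map_add, map_X, map_C] at h
  rw [jet, jet, ← h, coeff_map]

/-- A coordinate is constant, or runs in a residue class. -/
theorem coord {X : Type} (U : Ultrafilter X) (g : X → ℕ) (Q M : ℕ) (hQ : 0 < Q) :
    ∃ r : ℕ, ∃ W ∈ U, (∀ n ∈ W, g n = r) ∨ (M ≤ r ∧ ∀ n ∈ W, g n = r + Q * ((g n - r) / Q)) := by
  by_cases h : ∃ r, ∀ᶠ n in (U : Filter X), g n = r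
  · obtain ⟨r, hr⟩ := h
    exact ⟨r, _, hr, Or.inl fun n hn => hn⟩
  · have ht := H15.tendsto_of_not_const U g h
    have h1 : ∃ ρ, ∀ᶠ n in (U : Filter X), g n % Q = ρ := by
      by_contra h2
      obtain ⟨n, hn⟩ := ((H15.tendsto_of_not_const U _ h2).eventually (eventually_ge_atTop Q)).exists
      exact absurd (Nat.mod_lt (g n) hQ) (not_lt.2 hn)
    obtain ⟨ρ, hρ⟩ := h1
    refine ⟨ρ + Q * M, _, hρ.and (ht.eventually (eventually_ge_atTop (Q * M))), Or.inr ⟨?_, ?_⟩⟩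
    · have := Nat.le_mul_of_pos_left M hQ
      omega
    · rintro n ⟨h2, h3⟩
      have h4 : M ≤ g n / Q := (Nat.le_div_iff_mul_le hQ).2 (by rwa [mul_comm])
      obtain ⟨k, hk⟩ := Nat.exists_eq_add_of_le h4
      have h5 := Nat.mod_add_div (g n) Q
      rw [h2, hk, mul_add] at h5
      have h6 : g n - (ρ + Q * M) = Q * k := by omega
      rw [h6, Nat.mul_div_cancel_left _ hQ]
      omega

/-- Descent of coefficients along linear forms. -/
theorem desc {X Y κ K L F : Type} [Field κ] [Field K] [Field L] [Field F] [Algebra L K]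
    (am : κ →+* K) (ι : L →+* F) (kk : X → Y) (W : Set X) (S : Set (X → κ)) (T : Set (Y → F))
    (h : ∀ g ∈ S, ∃ y ∈ Algebra.adjoin F T, ∀ n ∈ W, ∃ z : L,
      am (g n) = algebraMap L K z ∧ ι z = y (kk n)) :
    ∀ φ ∈ Algebra.adjoin κ S, ∀ l : K →ₗ[L] L, ∃ ψ ∈ Algebra.adjoin F T, ∀ n ∈ W,
      ι (l (am (φ n))) = ψ (kk n) := by
  let P : (X → κ) → Prop := fun φ => ∀ (c : K) (l : K →ₗ[L] L), ∃ ψ ∈ Algebra.adjoin F T,
    ∀ n ∈ W, ι (l (c * am (φ n))) = ψ (kk n)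
  have key : ∀ g ∈ Algebra.adjoin κ S, ∀ φ, P φ → P (g * φ) := by
    intro g hg
    induction hg using Algebra.adjoin_induction with
    | mem g hg =>
      intro φ hφ c l
      obtain ⟨y, hy, h1⟩ := h g hg
      obtain ⟨ψ, hψ, h2⟩ := hφ c l
      refine ⟨y * ψ, mul_mem hy hψ, fun n hn => ?_⟩
      obtain ⟨z, h3, h4⟩ := h1 n hn
      rw [Pi.mul_apply, Pi.mul_apply, map_mul am, h3, mul_left_comm, ← Algebra.smul_def, map_smul,
        smul_eq_mul, map_mul ι, h4, h2 n hn]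
    | algebraMap b =>
      intro φ hφ c l
      obtain ⟨ψ, hψ, h2⟩ := hφ (c * am b) l
      refine ⟨ψ, hψ, fun n hn => ?_⟩
      rw [← h2 n hn, Pi.mul_apply, map_mul am, mul_assoc]
      rfl
    | add g g' _ _ ih ih' =>
      intro φ hφ c l
      obtain ⟨ψ, hψ, h1⟩ := ih φ hφ c l
      obtain ⟨ψ', hψ', h2⟩ := ih' φ hφ c l
      refine ⟨ψ + ψ', add_mem hψ hψ', fun n hn => ?_⟩
      rw [add_mul, Pi.add_apply, Pi.add_apply, map_add am, mul_add, map_add l, map_add ι, h1 n hn,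
        h2 n hn]
    | mul g g' _ _ ih ih' =>
      intro φ hφ
      rw [mul_assoc]
      exact ih _ (ih' φ hφ)
  have h1 : P 1 := fun c l =>
    ⟨algebraMap F _ (ι (l c)), Subalgebra.algebraMap_mem _ _, fun n _ => by simp⟩
  intro φ hφ l
  obtain ⟨ψ, hψ, h2⟩ := key φ hφ 1 h1 1 l
  exact ⟨ψ, hψ, fun n hn => by simpa using h2 n hn⟩

end NOE

theorem rowNoe : OfNoe := by
  intro hJ hN κ J _ _ _ N U f a ix d hd hf hc
  let am : κ →+* AlgebraicClosure κ := algebraMap κ _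
  have : CharZero (AlgebraicClosure κ) := algebraRat.charZero _
  obtain ⟨R, F, _, _, _, _, _, p, e, ι, t, n0, P, hp, hpn, he, hι, hP, ht, hM⟩ :=
    hJ (AlgebraicClosure κ) J (fun j => (f j).map am) (fun j => am (a j))
      (fun j => by rw [natDegree_map]; exact hf j) fun j => (hc j).mono fun n hn => by
        rw [derivative_map, ← GOOD.map_it, eval_map, eval₂_at_apply]
        exact (map_ne_zero am).2 hn
  have hD : 0 < ∏ j, d j := Finset.prod_pos fun j _ => hd j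
  choose r W0 hW0 hr using fun i : Fin N =>
    NOE.coord U (fun n => n i) (P * ∏ j, d j) (n0 * ∏ j, d j) (Nat.mul_pos hP hD)
  let kk : (Fin N → ℕ) → Fin N → ℕ := fun n i => (n i - r i) / (P * ∏ j, d j)
  obtain ⟨W, hW, hz⟩ := hN F p hp hpn N (U.map kk)
  have hW1 : (⋂ i, W0 i) ∈ (U : Filter (Fin N → ℕ)) := Filter.iInter_mem.2 hW0
  obtain ⟨m1, -, m3⟩ := H53D.ring F (‖(p : F)‖ ^ 2) (by positivity)
  let e' : FractionRing R →+* AlgebraicClosure κ := IsFractionRing.lift he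
  let ι' : FractionRing R →+* F := IsFractionRing.lift hι
  let : Algebra (FractionRing R) (AlgebraicClosure κ) := e'.toAlgebra
  refine ⟨(⋂ i, W0 i) ∩ kk ⁻¹' W, Filter.inter_mem hW1 hW, fun φ hφ h0 n hn => ?_⟩
  refine (map_eq_zero am).1 ((Module.forall_dual_apply_eq_zero_iff (FractionRing R) _).1
    fun l => (map_eq_zero ι').1 ?_)
  obtain ⟨ψ, hψ, h1⟩ := NOE.desc am ι' kk (⋂ i, W0 i) _ {φ : (Fin N → ℕ) → F |
      ∃ (i : Fin N) (y : ℕ → F), Mah (‖(p : F)‖ ^ 2) y ∧ φ = fun k => y (k i)} (by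
    rintro _ ⟨j, l, rfl⟩
    have hy : ∃ y : ℕ → F, Mah (‖(p : F)‖ ^ 2) y ∧ ∀ n ∈ W0 (ix j),
        ι (t j (n (ix j) / d j) l) = y (kk n (ix j)) := by
      rcases hr (ix j) with h | ⟨h, h'⟩
      · exact ⟨_, m1 (ι (t j (r (ix j) / d j) l)), fun n hn => by rw [h n hn]⟩
      · obtain ⟨D, hD'⟩ : d j ∣ ∏ j, d j := Finset.dvd_prod_of_mem d (Finset.mem_univ j)
        have h2 : n0 ≤ r (ix j) / d j := (Nat.le_div_iff_mul_le (hd j)).2
          ((Nat.mul_le_mul_left n0 (Nat.le_of_dvd hD ⟨D, hD'⟩)).trans h)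
        refine ⟨_, m3 _ 0 D (hM j l _ h2), fun n hn => ?_⟩
        have h3 : n (ix j) = r (ix j) + d j * (P * (0 + D * kk n (ix j))) := by
          refine (h' n hn).trans ?_
          change _ + _ * kk n (ix j) = _
          rw [hD']
          ring
        have h4 : n (ix j) / d j = r (ix j) / d j + P * (0 + D * kk n (ix j)) := by
          rw [← Nat.add_mul_div_left _ _ (hd j), ← h3]
        rw [h4]
    obtain ⟨y, hy1, hy2⟩ := hy
    refine ⟨_, Algebra.subset_adjoin ⟨ix j, y, hy1, rfl⟩, fun n hn =>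
      ⟨algebraMap R _ (t j (n (ix j) / d j) l), ?_, ?_⟩⟩
    · rw [← NOE.jet_map, ← ht]
      exact (IsFractionRing.lift_algebraMap he _).symm
    · exact (IsFractionRing.lift_algebraMap hι _).trans (hy2 n (Set.mem_iInter.1 hn _))) φ hφ l
  rw [h1 n hn.1]
  refine hz ψ hψ ?_ _ hn.2
  have h2 : ∀ᶠ m in (U : Filter (Fin N → ℕ)), ψ (kk m) = 0 := by
    filter_upwards [h0, hW1] with m hm hm'
    rw [← h1 m hm', hm, map_zero, map_zero, map_zero]
  exact h2

end Pool.Agent.MP_be2dd8_ag.H81
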