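import Pool.Agent.MP_be2dd8_ag.H81.Spec

set_option autoImplicit false

/-!
Row ONEJ: interpolation of all jets of one orbit.
-/

namespace Pool.Agent.MP_be2dd8_ag.H81

open Polynomial Filter
open Pool.Agent.MP_be2dd8_ag.H53D Pool.Agent.MP_be2dd8_ag.H53D.ONE

namespace ONEJ

theorem iter_map {R S : Type} [CommRing R] [CommRing S] (g : R →+* S) (f : R[X]) (n : ℕ) :
    (f.map g).comp^[n] X = (f.comp^[n] X).map g := by
  induction n with
  | zero => simp
  | succ n ih => rw [Function.iterate_succ_apply', Function.iterate_succ_apply', ih, map_comp]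

theorem X_dvd {R : Type} [CommRing R] (f : R[X]) (α : R) (n : ℕ) :
    X ∣ it (f.map C) n (X + C α) - C (it f n α) := by
  rw [← eval_iter, ← eval_iter, ← eval_map_apply, ← iter_map]
  exact (show X ∣ X + C α - C α from ⟨1, by ring⟩).trans (sub_dvd_eval_sub _ _ _)

theorem diff_le {O F : Type} [CommRing O] [NormedField F] (L : O →+ F) (hL : ∀ y, ‖L y‖ ≤ 1)
    (e t : O) (ε : F) (hε : ∀ y, L (e * y) = ε * L y) (h : O[X]) (k : ℕ) (u : O[X]) (n : ℕ) :
    ‖(fwdDiff 1)^[k] (fun n => L (u.eval (it (X + C e * h) n t))) n‖ ≤ ‖ε‖ ^ k := by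
  induction k generalizing u with
  | zero => simpa using hL _
  | succ k ih =>
    obtain ⟨u', he⟩ : C e ∣ u.comp (X + C e * h) - u :=
      (show C e ∣ X + C e * h - X from ⟨h, by ring⟩).trans
        (by simpa only [comp_X] using dvd_comp u (X + C e * h) X)
    have h1 : fwdDiff 1 (fun n => L (u.eval (it (X + C e * h) n t))) =
        ε • fun n => L (u'.eval (it (X + C e * h) n t)) := by
      ext n
      rw [fwdDiff, it_succ, ← eval_comp, ← map_sub, ← eval_sub, he, eval_mul, eval_C, hε]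
      rfl
    rw [Function.iterate_succ_apply, h1, fwdDiff_iter_const_smul, Pi.smul_apply, norm_smul,
      pow_succ']
    exact mul_le_mul_of_nonneg_left (ih u') (norm_nonneg _)

/-- substitution of a multiple of the variable -/
noncomputable def sc {R O : Type} [CommRing R] [CommRing O] (φ : R →+* O) (v : O) :
    R[X] →+* O[X] := eval₂RingHom (C.comp φ) (C v * X)

theorem sc_C {R O : Type} [CommRing R] [CommRing O] (φ : R →+* O) (v : O) (r : R) :
    sc φ v (C r) = C (φ r) := by
  simp [sc]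

theorem sc_X {R O : Type} [CommRing R] [CommRing O] (φ : R →+* O) (v : O) :
    sc φ v X = C v * X := by
  simp [sc]

theorem sc_coeff {R O : Type} [CommRing R] [CommRing O] (φ : R →+* O) (v : O) (q : R[X]) (l : ℕ) :
    (sc φ v q).coeff l = φ (q.coeff l) * v ^ l := by
  rw [← coeff_map, ← comp_C_mul_X_coeff, comp, eval₂_map]
  rfl

end ONEJ

open ONEJ in
theorem rowOneJ : OneJS := by
  intro R k F _ _ _ _ _ _ p ι ρ hp hp1 hι hρ f α hf
  obtain ⟨n1, h1⟩ := eventually_atTop.1 hf
  obtain ⟨a, P, hP, e1, e2⟩ := period ρ f (it f n1 α) fun n => by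
    rw [← it_add]
    exact h1 _ (Nat.le_add_left _ _)
  rw [← it_add] at e1 e2
  let φ : R →+* UB F := ι.codRestrict (UB F) hι
  have hφ : ∀ y, ((φ y : UB F) : F) = ι y := fun _ => rfl
  obtain ⟨w, w1, w2, w3⟩ := common (a := φ _) (b := φ _) (hρ _ e1) (hρ _ e2)
  obtain ⟨v, v1, v2, v3⟩ := common (a := w) (b := p) w1 (by simpa using hp1)
  have v0 : (v : F) ≠ 0 := fun h0 => by
    obtain ⟨s, hs⟩ := v3
    have := congrArg (fun y : UB F => (y : F)) hs
    simp only [Subring.coe_natCast, Subring.coe_mul, h0, zero_mul] at this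
    exact Nat.cast_ne_zero.2 hp.ne_zero this
  obtain ⟨c, h, hc⟩ := conj (((f.map C).comp^[P] X).map (sc φ v))
    (x := sc φ v (C (it f (a + n1) α))) (v := C v)
    (by
      rw [eval_map_apply, iter_map, eval_map_apply, ← map_sub, ← map_sub, sc_C]
      exact map_dvd (C : UB F →+* (UB F)[X]) (v2.trans w2))
    (by
      rw [derivative_map, eval_map_apply, iter_map, derivative_map, eval_map_apply,
        ← map_one (sc φ v), ← map_one C, ← map_sub, ← map_sub, sc_C]
      exact map_dvd (C : UB F →+* (UB F)[X]) (v2.trans w3))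
  obtain ⟨j, hj⟩ := exists_pow_lt_of_lt_one (show 0 < ‖(p : F)‖ ^ 2 from
    pow_pos (norm_pos_iff.2 (Nat.cast_ne_zero.2 hp.ne_zero)) 2) v1
  obtain ⟨h', N, hN, e⟩ := iter hp.pos (v := C v) (by simpa using map_dvd C v3) c h j
  obtain ⟨t0, ht0⟩ : C v ∣ sc φ v (it (f.map C) (a + n1) (X + C α)) -
      sc φ v (C (it f (a + n1) α)) := by
    rw [← map_sub]
    refine (dvd_mul_right (C v) X).trans ?_
    rw [← sc_X φ v]
    exact map_dvd (sc φ v) (X_dvd f α (a + n1))
  have h2 : ∀ m, sc φ v (it (f.map C) (P * m + (a + n1)) (X + C α)) =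
      sc φ v (C (it f (a + n1) α)) + C v * it (X + (C c + C (C v) * h)) m t0 := fun m => by
    induction m with
    | zero =>
      rw [mul_zero, zero_add, show it (X + (C c + C (C v) * h)) 0 t0 = t0 from rfl, ← ht0]
      ring
    | succ m ih =>
      rw [it_succ, ← hc, ← ih, eval_map_apply, eval_iter, ← it_add]
      congr 2
      ring
  refine ⟨a + n1, P * N, Nat.mul_pos hP hN, fun b hb l => ⟨‖((v : F) ^ l)⁻¹‖, fun m n => ?_⟩⟩
  obtain ⟨r, rfl⟩ := Nat.exists_eq_add_of_le' hb
  let L : (UB F)[X] →+ F := (UB F).subtype.toAddMonoidHom.comp (lcoeff (UB F) l).toAddMonoidHom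
  have hL : ∀ q, L q = ((q.coeff l : UB F) : F) := fun _ => rfl
  have h3 : (fun m => ι (jet f α (r + (a + n1) + P * N * m) l)) = ((v : F) ^ l)⁻¹ • fun m => L
      (((((f.map C).comp^[r] X).map (sc φ v)).comp
        (C (sc φ v (C (it f (a + n1) α))) + C (C v) * X)).eval
        (it (X + C (C v ^ (j + 1)) * h') m t0)) := by
    ext m
    rw [Pi.smul_apply, eval_comp, eval_add, eval_mul, eval_C, eval_C, eval_X, ← it_mul e, ← h2,
      eval_map_apply, eval_iter, ← it_add, hL, sc_coeff, smul_eq_mul, Subring.coe_mul,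
      Subring.coe_pow, mul_comm ((v : F) ^ l)⁻¹, mul_inv_cancel_right₀ (pow_ne_zero l v0),
      hφ, jet, show r + (a + n1) + P * N * m = r + (P * (N * m) + (a + n1)) by ring]
  rw [h3, fwdDiff_iter_const_smul, Pi.smul_apply, norm_smul]
  refine mul_le_mul_of_nonneg_left ?_ (norm_nonneg _)
  refine (ONEJ.diff_le L (fun y => (y.coeff l).2) _ _ ((v : F) ^ (j + 1)) (fun y => ?_) _ _ _ _).trans
    (pow_le_pow_left₀ (norm_nonneg _) (le_trans ?_ hj.le) _)
  · rw [hL, hL, ← C_pow, coeff_C_mul, Subring.coe_mul, Subring.coe_pow]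
  · rw [norm_pow]
    exact pow_le_pow_of_le_one (norm_nonneg _) v1.le j.le_succ

end Pool.Agent.MP_be2dd8_ag.H81
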