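import Pool.Agent.MP_be2dd8_ag.H81.Spec
import Pool.Agent.MP_aa1ef7_ag.G.Exp

set_option autoImplicit false

/-! Row PLACE: a transcendental element of a finitely generated field has a pole. -/

namespace Pool.Agent.MP_be2dd8_ag.H81

open Pool.Agent.MP_be2dd8_ag.H53 Pool.Agent.MP_be2dd8_ag.H53.Gl
open IntermediateField

namespace PLACE

lemma expand (κ Ω : Type) [Field κ] [IsAlgClosed κ] [CharZero κ] [Field Ω] [Algebra κ Ω] (v : Ω)
    (hv : Transcendental κ v) (halg : ∀ x : Ω, IsAlgebraic (adjoin κ {v}) x) (T : Set Ω)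
    [Finite T] :
    ∃ (E : Subfield Ω) (j : E →+* LaurentSeries κ) (e : ℕ), 0 < e ∧ T ⊆ E ∧
      (∀ c : κ, ∃ h : algebraMap κ Ω c ∈ E, j ⟨_, h⟩ = HahnSeries.C c) ∧
      ∃ h : v ∈ E, j ⟨v, h⟩ = HahnSeries.single (e : ℤ) 1 := by
  have : FiniteDimensional (adjoin κ {v}) (adjoin (adjoin κ {v}) T) :=
    finiteDimensional_adjoin fun x _ => (halg x).isIntegral
  have h1 : Transcendental κ (AdjoinSimple.gen κ v) := by
    rw [← transcendental_algebraMap_iff (algebraMap (adjoin κ {v}) Ω).injective]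
    exact hv
  have h2 : adjoin κ {AdjoinSimple.gen κ v} = ⊤ := by
    apply lift_injective
    rw [lift_adjoin_simple, lift_top]
    rfl
  obtain ⟨e, j, he, hj⟩ := (Pool.Agent.MP_aa1ef7_ag.H20.rowExp.2 Pool.Agent.MP_aa1ef7_ag.H20.rowExp.1)
    κ (adjoin κ {v}) (adjoin (adjoin κ {v}) T) (AdjoinSimple.gen κ v) h1 h2
  refine ⟨(adjoin (adjoin κ {v}) T).toSubfield, j.toRingHom, e, he, subset_adjoin _ T,
    fun c => ⟨(algebraMap κ (adjoin (adjoin κ {v}) T) c).2, ?_⟩,
    (algebraMap (adjoin κ {v}) (adjoin (adjoin κ {v}) T) (AdjoinSimple.gen κ v)).2, hj⟩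
  have h3 := j.commutes c
  rw [LaurentSeries.algebraMap_apply] at h3
  exact h3

lemma alg_mono {k Ω : Type} [Field k] [Field Ω] [Algebra k Ω] (A : IntermediateField k Ω)
    {κ : Type} [Field κ] [Algebra κ Ω] (B : IntermediateField κ Ω) (h : ∀ y ∈ A, y ∈ B) (x : Ω)
    (hx : IsAlgebraic A x) : IsAlgebraic B x := by
  let f : A →+* B := (algebraMap A Ω).codRestrict B.toSubfield fun y => h y y.2
  let _ : Algebra A B := f.toAlgebra
  have : IsScalarTower A B Ω := IsScalarTower.of_algebraMap_eq fun _ => rfl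
  exact hx.tower_top B

lemma base0 (k Ω : Type) [Field k] [Field Ω] [Algebra k Ω] (v : Ω) (hv : Transcendental k v) :
    ∃ F : IntermediateField k Ω, Transcendental F v ∧ ∀ x : Ω, IsAlgebraic (adjoin F {v}) x := by
  have h0 : AlgebraicIndepOn k id ({v} : Set Ω) :=
    (algebraicIndependent_singleton_iff (x := fun y : ({v} : Set Ω) => (y : Ω)) ⟨v, rfl⟩).2 hv
  obtain ⟨t, hvt, ht⟩ := exists_isTranscendenceBasis_superset h0
  have hvt' : v ∈ t := hvt rfl
  obtain ⟨s, hs⟩ : ∃ s : Set Ω, s = Subtype.val '' ({⟨v, hvt'⟩}ᶜ : Set t) := ⟨_, rfl⟩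
  have h1 : Transcendental (Algebra.adjoin k s) v := by
    have := ht.1.transcendental_adjoin (s := {⟨v, hvt'⟩}ᶜ) (i := ⟨v, hvt'⟩) (by simp)
    rw [hs]
    exact this
  have h2 : Transcendental (adjoin k s) v := IntermediateField.transcendental_adjoin_iff.2 h1
  have h4 : Algebra.IsAlgebraic (adjoin k (Set.range (Subtype.val : t → Ω))) Ω :=
    ht.isAlgebraic_field
  have h3 : adjoin k (Set.range (Subtype.val : t → Ω)) ≤
      (adjoin (adjoin k s) {v}).restrictScalars k := by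
    rw [adjoin_adjoin_left]
    refine adjoin.mono _ _ _ ?_
    rintro _ ⟨y, rfl⟩
    by_cases hy : y = ⟨v, hvt'⟩
    · subst hy
      exact Or.inr rfl
    · exact Or.inl (hs ▸ ⟨y, hy, rfl⟩)
  exact ⟨adjoin k s, h2, fun x => alg_mono _ _ (fun y hy => h3 hy) x (h4.isAlgebraic x)⟩

lemma base (k Ω : Type) [Field k] [Field Ω] [IsAlgClosed Ω] [Algebra k Ω] (v : Ω)
    (hv : Transcendental k v) :
    ∃ (κ : Type) (_ : Field κ) (_ : Algebra k κ) (_ : Algebra κ Ω) (_ : IsScalarTower k κ Ω),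
      IsAlgClosed κ ∧ Transcendental κ v ∧ ∀ x : Ω, IsAlgebraic (adjoin κ {v}) x := by
  obtain ⟨F, h1, h2⟩ := base0 k Ω v hv
  refine ⟨algebraicClosure F Ω, inferInstance, inferInstance, inferInstance,
    IsScalarTower.of_algebraMap_eq fun _ => rfl,
    (algebraicClosure.isAlgClosure F Ω).isAlgClosed, h1.algebraicClosure, fun x => ?_⟩
  refine alg_mono (adjoin F {v}) _ ?_ x (h2 x)
  have h3 : adjoin F {v} ≤ (adjoin (algebraicClosure F Ω) {v}).restrictScalars F :=
    adjoin_le_iff.2 (subset_adjoin (algebraicClosure F Ω) {v})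
  exact fun y hy => h3 hy

end PLACE

theorem rowPlace : PlaceS := by
  intro k K _ _ _ _ S g hg
  let Ω := AlgebraicClosure K
  let ψ : K →ₐ[k] Ω := IsScalarTower.toAlgHom k K Ω
  have hg' : Transcendental k (ψ g)⁻¹ := fun h =>
    hg ((isAlgebraic_algHom_iff ψ ψ.injective).1 (IsAlgebraic.inv_iff.1 h))
  obtain ⟨κ, _, _, _, _, hκ, hv, halg⟩ := PLACE.base k Ω _ hg'
  have : CharZero κ := charZero_of_injective_algebraMap (algebraMap k κ).injective
  have : Finite (ψ '' (S : Set K)) := (S.finite_toSet.image _).to_subtype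
  obtain ⟨E, j, e, he, hT, hc, hvE, hj⟩ := PLACE.expand κ Ω _ hv halg (ψ '' (S : Set K))
  have hmem : ∀ x : adjoin k (S : Set K), ψ x ∈ E := by
    rintro ⟨x, hx⟩
    have hle : adjoin k (S : Set K) ≤ (E.comap (ψ : K →+* Ω)).toIntermediateField fun c => by
        obtain ⟨h, -⟩ := hc (algebraMap k κ c)
        change ψ (algebraMap k K c) ∈ E
        rw [ψ.commutes, IsScalarTower.algebraMap_apply k κ Ω]
        exact h :=
      adjoin_le_iff.2 fun y hy => hT ⟨y, hy, rfl⟩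
    exact hle hx
  let ι0 : adjoin k (S : Set K) →+* E :=
    ((ψ : K →+* Ω).comp (adjoin k (S : Set K)).toSubfield.subtype).codRestrict E hmem
  refine ⟨κ, inferInstance, inferInstance, algebraMap k κ, j.comp ι0, ?_, fun c => ?_⟩
  · have h1 : ι0 g = (⟨(ψ g)⁻¹, hvE⟩ : E)⁻¹ := Subtype.ext (inv_inv _).symm
    have h2 : j (ι0 g) = HahnSeries.single (-(e : ℤ)) 1 := by
      rw [h1, map_inv₀, hj]
      refine inv_eq_of_mul_eq_one_right ?_
      rw [HahnSeries.single_mul_single]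
      simp
    change 1 < nm (j (ι0 g))
    rw [h2, nm_of_ne (HahnSeries.single_ne_zero one_ne_zero), HahnSeries.order_single one_ne_zero,
      neg_neg]
    exact one_lt_zpow₀ (by norm_num) (by exact_mod_cast he)
  · obtain ⟨h, h'⟩ := hc (algebraMap k κ c)
    have h1 : ι0 (algebraMap k _ c) = ⟨_, h⟩ := 
      Subtype.ext ((ψ.commutes c).trans (IsScalarTower.algebraMap_apply k κ Ω c))
    change j (ι0 (algebraMap k _ c)) = HahnSeries.C (algebraMap k κ c)
    rw [h1, h']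

end Pool.Agent.MP_be2dd8_ag.H81
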