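import Pool.Agent.MP_be2dd8_ag.H81.Spec

set_option autoImplicit false

/-! Elimination of the meromorphic coordinates. -/

namespace Pool.Agent.MP_be2dd8_ag.H81

open Filter Topology
open Pool.Agent.MP_be2dd8_ag.H53

namespace STEP

/-- the logarithmic derivative as a homomorphism -/
noncomputable def lg {F : Type} [Field F] (δ : Derivation ℤ F F) : Fˣ →* Multiplicative F where
  toFun u := Multiplicative.ofAdd (δ (u : F) / u)
  map_one' := by simp
  map_mul' u v := by
    rw [← ofAdd_add]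
    congr 1
    have hu := u.ne_zero
    have hv := v.ne_zero
    rw [Units.val_mul, Derivation.leibniz, smul_eq_mul, smul_eq_mul]
    field_simp
    ring

lemma lg_prod {F B : Type} [Field F] [Fintype B] (δ : Derivation ℤ F F) (g : B → Fˣ)
    (m : B → ℤ) : δ ((∏ b, g b ^ m b : Fˣ) : F) / ((∏ b, g b ^ m b : Fˣ) : F) =
      ∑ b, (m b : F) * (δ (g b : F) / g b) := by
  have h : lg δ (∏ b, g b ^ m b) = ∏ b, lg δ (g b) ^ m b := by
    rw [map_prod]
    simp only [map_zpow]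
  have h2 := congrArg Multiplicative.toAdd h
  rw [toAdd_prod] at h2
  simp only [toAdd_zpow, zsmul_eq_mul] at h2
  exact h2

/-- a tame ring that contains the logarithmic derivatives of a finite family -/
lemma tame_of {X F J A : Type} [NormedField F] [Fintype A] (δ : Derivation ℤ F F) (C : Ctx X)
    (y : J → X → F)
    (hT : ∀ (B : Type) [Fintype B] (φ : B → X → ℤ), (∀ b, (fun n => (φ b n : ℚ)) ∈ C.L) →
      ∃ E : Subring (X → F), Tame C.U δ E ∧ (∀ j, y j ∈ E) ∧ ∀ b, (fun n => (φ b n : F)) ∈ E)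
    (u : A → X → Fˣ) (hu : ∀ a, ExpT C (u a)) :
    ∃ E : Subring (X → F), Tame C.U δ E ∧ (∀ j, y j ∈ E) ∧
      ∀ a, (fun x => δ (u a x : F) / u a x) ∈ E := by
  choose B iB g m hm hg using hu
  obtain ⟨E, hE, hy, hφ⟩ := hT (Σ a, B a) (fun b => m b.1 b.2) fun b => hm b.1 b.2
  refine ⟨E, hE, hy, fun a => ?_⟩
  have h1 : (∑ b : B a, (fun n => (m a b n : F)) * fun _ => δ (g a b : F) / g a b) ∈ E :=
    E.sum_mem fun b _ => E.mul_mem (hφ ⟨a, b⟩) (hE.1 _)
  refine hE.2.2.1 _ h1 _ ?_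
  filter_upwards [C.le (hg a)] with n hn
  rw [hn, lg_prod, Finset.sum_apply]
  rfl

lemma tsum_eq {F B I : Type} [NormedField F] [CompleteSpace F] [Fintype B] (c : B × I → F)
    (hc : Summable fun s => ‖c s‖) (t : B → F) (μ : I → F) (hμ : ∀ a, ‖μ a‖ ≤ 1) (G : B → F)
    (hG : ∀ b, HasSum (fun a => c (b, a) * μ a) (G b)) :
    ∑' s, c s * (t s.1 * μ s.2) = ∑ b, G b * t b := by
  have h1 : Summable fun s : B × I => c s * (t s.1 * μ s.2) := by
    refine Summable.of_norm_bounded (hc.mul_right (∑ b, ‖t b‖)) fun s => ?_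
    rw [norm_mul, norm_mul]
    refine mul_le_mul_of_nonneg_left ?_ (norm_nonneg _)
    calc ‖t s.1‖ * ‖μ s.2‖ ≤ ‖t s.1‖ * 1 := mul_le_mul_of_nonneg_left (hμ _) (norm_nonneg _)
      _ = ‖t s.1‖ := mul_one _
      _ ≤ _ := Finset.single_le_sum (f := fun b => ‖t b‖) (fun _ _ => norm_nonneg _)
          (Finset.mem_univ _)
  have h2 : HasSum (fun b => G b * t b) (∑' s : B × I, c s * (t s.1 * μ s.2)) := by
    refine h1.hasSum.prod_fiberwise fun b => ?_
    refine HasSum.congr_fun ((hG b).mul_right (t b)) fun a => ?_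
    ring
  exact h2.unique (hasSum_fintype _)

/-- the statement for a sum of monomials -/
lemma core (hX : ExpS) (hU : UniS) (hG : GapS) (hV : VanS) {X F J B : Type} {m : ℕ}
    [NormedField F] [IsUltrametricDist F] [CompleteSpace F] [Fintype J] [Fintype B]
    (δ : Derivation ℤ F F) (D : ℝ) (hD : ∀ x, ‖δ x‖ ≤ D * ‖x‖) (hδ : ∀ x, δ x = 0 → ‖x‖ ≤ 1)
    (C : Ctx X) (x : Fin m → X → F) (y : J → X → F) (hx : ∀ i, Mer C (x i))
    (hy : ∀ j n, y j n ≠ 0)
    (hT : ∀ (B : Type) [Fintype B] (φ : B → X → ℤ), (∀ b, (fun n => (φ b n : ℚ)) ∈ C.L) →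
      ∃ E : Subring (X → F), Tame C.U δ E ∧ (∀ j, y j ∈ E) ∧ ∀ b, (fun n => (φ b n : F)) ∈ E)
    (hR : RigE C y) (p : B → MvPolynomial (Fin m) F) (β : B → J → ℕ) (Y : B → X → Fˣ)
    (hY : ∀ b, ExpT C (Y b))
    (h0 : ∀ᶠ n in (C.U : Filter X),
      ∑ b, MvPolynomial.eval (fun i => x i n) (p b) * (∏ j, y j n ^ β b j) * (Y b n : F) = 0) :
    ∀ᶠ n in C.c,
      ∑ b, MvPolynomial.eval (fun i => x i n) (p b) * (∏ j, y j n ^ β b j) * (Y b n : F) = 0 := by
  classical
  obtain ⟨-, eMul, ePow, eProd, -⟩ := hX X Fˣ C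
  choose w c hw hc hw0 hwc using hx
  have hAn : ∀ i, An (fun _ : Fin m => False) 1 fun u : Fin m → F => ∑' k, c i k * u i ^ k := by
    intro i
    refine An.one_var i (fun h => h) (c i) (fun z => ∑' k, c i k * z ^ k) (by simpa using hc i)
      fun z hz => Summable.hasSum ?_
    refine Summable.of_norm_bounded (hc i) fun k => ?_
    rw [norm_mul, norm_pow]
    exact mul_le_of_le_one_right (norm_nonneg _) (pow_le_one₀ (norm_nonneg _) hz)
  choose Dg G hGa hGe using fun b => An.poly zero_le_one _ hAn (p b)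
  choose cb _ _ hcs hcG using fun b => (hGa b).collapse zero_lt_one
  set cc : B × (Fin m → ℕ) → F := fun s => cb s.1 s.2 with hcc
  have hccs : Summable fun s => ‖cc s‖ := by
    rw [summable_prod_of_nonneg fun _ => norm_nonneg _]
    exact ⟨fun b => by simpa using hcs b, (hasSum_fintype _).summable⟩
  have hwp : ∀ a : Fin m → ℕ, ExpT C fun n => ∏ i, w i n ^ a i := fun a =>
    eProd _ Finset.univ (fun i n => w i n ^ a i) fun i _ => by
      simpa only [zpow_natCast] using ePow (w i) (a i) (hw i)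
  have hwv : ∀ (a : Fin m → ℕ) n, ((∏ i, w i n ^ a i : Fˣ) : F) = mon a fun i => (w i n : F) := by
    intro a n
    simp [mon]
  set Y' : B → X → Fˣ := fun b n => Y b n * (∏ i, w i n ^ Dg b i) ^ (-1 : ℤ) with hY'
  have hY'e : ∀ b, ExpT C (Y' b) := fun b => eMul _ _ (hY b) (ePow _ _ (hwp _))
  set t : B → X → F := fun b n => (∏ j, y j n ^ β b j) * (Y' b n : F) with ht
  obtain ⟨W0, hW0, hW⟩ := hU X J (B ⊕ Fin m) F C y (Sum.elim Y' w) hR (by
    rintro (b | i)
    · exact hY'e b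
    · exact hw i)
  have hV1 : ∀ᶠ n in C.c, ∀ i, ‖(w i n : F)‖ ≤ 1 ∧
      HasSum (fun k => c i k * (w i n : F) ^ k) (x i n * w i n) := eventually_all.2 hwc
  set W : Set X := W0 ∩ {n | ∀ i, ‖(w i n : F)‖ ≤ 1 ∧
      HasSum (fun k => c i k * (w i n : F) ^ k) (x i n * w i n)} with hWd
  have hWc : W ∈ C.c := inter_mem hW0 hV1
  have hsum : ∀ n ∈ W, ∑' s, cc s * (t s.1 n * mon s.2 fun i => (w i n : F)) =
      ∑ b, MvPolynomial.eval (fun i => x i n) (p b) * (∏ j, y j n ^ β b j) * (Y b n : F) := by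
    intro n hn
    have h1 : ∀ i, ‖(w i n : F)‖ ≤ 1 := fun i => (hn.2 i).1
    rw [tsum_eq cc hccs (fun b => t b n) (fun a => mon a fun i => (w i n : F))
      (fun a => by simpa using norm_mon_le a h1) (fun b => G b fun i => (w i n : F))
      fun b => hcG b _ h1]
    refine Finset.sum_congr rfl fun b _ => ?_
    rw [hGe b _ (fun i => x i n) fun i => (hn.2 i).2.tsum_eq.symm]
    have h2 : mon (Dg b) (fun i => (w i n : F)) ≠ 0 := mon_ne fun i => (w i n).ne_zero
    simp only [ht, hY', zpow_neg, zpow_one, Units.val_mul, Units.val_inv_eq_inv_val, hwv]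
    field_simp
  have key := hV X F B m C.U W (C.le hWc) t (fun n i => (w i n : F)) cc hccs
    (fun n _ b => mul_ne_zero (Finset.prod_ne_zero_iff.2 fun j _ => pow_ne_zero _ (hy j n))
      (Y' b n).ne_zero) (fun n hn i => ⟨(w i n).ne_zero, (hn.2 i).1⟩) hw0 (fun E => ?_) (by
      filter_upwards [C.le hWc, h0] with n hn h
      rw [hsum n hn, h])
  · filter_upwards [hWc] with n hn
    rw [← hsum n hn]
    exact key n hn
  set YY : E → X → Fˣ := fun s n => Y' s.1.1 n * ∏ i, w i n ^ s.1.2 i with hYY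
  obtain ⟨T, hTm, hTy, hTl⟩ := tame_of δ C y hT YY fun s => eMul _ _ (hY'e _) (hwp _)
  have hyT : ∀ b, (fun n => ∏ j, y j n ^ β b j) ∈ T := fun b => by
    have : (fun n => ∏ j, y j n ^ β b j) = ∏ j, y j ^ β b j := by
      funext n
      simp
    rw [this]
    exact T.prod_mem fun j _ => T.pow_mem (hTy j) _
  have hre : ∀ n, ∑ s : E, (cc s * ∏ j, y j n ^ β s.1.1 j) * (YY s n : F) =
      ∑ s ∈ E, cc s * (t s.1 n * mon s.2 fun i => (w i n : F)) := by
    intro n
    rw [← Finset.sum_coe_sort E]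
    refine Finset.sum_congr rfl fun s _ => ?_
    simp only [hYY, ht, Units.val_mul, hwv]
    ring
  rcases hG X F E δ D hD hδ C.U T hTm YY (fun s n => cc s * ∏ j, y j n ^ β s.1.1 j)
    (fun s => T.mul_mem (hTm.1 (cc s)) (hyT s.1.1)) hTl with h | ⟨ε, hε, h⟩
  · left
    have hev : ∀ n, MvPolynomial.eval
        (Sum.elim (fun j => y j n) fun a => ((Sum.elim Y' w a n : Fˣ) : F))
        (∑ s ∈ E, MvPolynomial.C (cc s) * ((∏ j, MvPolynomial.X (Sum.inl j) ^ β s.1 j) *
          MvPolynomial.X (Sum.inr (Sum.inl s.1)) *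
          ∏ i, MvPolynomial.X (Sum.inr (Sum.inr i)) ^ s.2 i)) =
        ∑ s ∈ E, cc s * (t s.1 n * mon s.2 fun i => (w i n : F)) := by
      intro n
      simp [ht, mon]
    intro n hn
    rw [← hev]
    refine hW _ ?_ n hn.1
    filter_upwards [h] with k hk
    rw [hev, ← hre, hk]
  · right
    choose K hK using fun b => (hTm.2.2.2 _ (hyT b)).1
    have hK1 : 0 < 1 + ∑ b, |K b| :=
      add_pos_of_pos_of_nonneg one_pos (Finset.sum_nonneg fun _ _ => abs_nonneg _)
    refine ⟨ε / (1 + ∑ b, |K b|), div_pos hε hK1, ?_⟩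
    filter_upwards [h, eventually_all.2 hK] with n ⟨s, hs⟩ hn
    refine ⟨s.1, s.2, ?_⟩
    rw [← hre]
    refine le_trans ?_ hs
    have h1 : ‖∏ j, y j n ^ β s.1.1 j‖ ≤ 1 + ∑ b, |K b| := by
      have h2 : |K s.1.1| ≤ ∑ b, |K b| :=
        Finset.single_le_sum (f := fun b => |K b|) (fun _ _ => abs_nonneg _) (Finset.mem_univ _)
      have h3 := (hn s.1.1).trans (le_abs_self _)
      linarith
    have h4 : t s.1.1 n * mon s.1.2 (fun i => (w i n : F)) =
        (∏ j, y j n ^ β s.1.1 j) * (YY s n : F) := by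
      simp only [hYY, ht, Units.val_mul, hwv]
      ring
    rw [h4, norm_mul, div_mul_eq_mul_div, div_le_iff₀ hK1]
    calc ε * (‖∏ j, y j n ^ β s.1.1 j‖ * ‖(YY s n : F)‖)
        ≤ ε * ((1 + ∑ b, |K b|) * ‖(YY s n : F)‖) := by gcongr
      _ = _ := by ring

lemma expand {F I J S : Type} [Field F] [Fintype I] [Fintype J] [Fintype S]
    (q : S → MvPolynomial (I ⊕ J) F) (x : I → F) (y : J → F) (Y : S → F) :
    ∑ s, MvPolynomial.eval (Sum.elim x y) (q s) * Y s =
      ∑ b : Σ s, (q s).support, MvPolynomial.eval x (MvPolynomial.C ((q b.1).coeff b.2.1) *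
        ∏ i, MvPolynomial.X i ^ b.2.1 (Sum.inl i)) * (∏ j, y j ^ b.2.1 (Sum.inr j)) * Y b.1 := by
  rw [Fintype.sum_sigma]
  refine Finset.sum_congr rfl fun s _ => ?_
  rw [MvPolynomial.eval_eq', Finset.sum_mul, ← Finset.sum_coe_sort]
  refine Finset.sum_congr rfl fun b _ => ?_
  simp [Fintype.prod_sum_type, mul_assoc]

end STEP

theorem rowStep : OfStep := by
  intro hX hU hG hV X F J m _ _ _ _ _ δ D hD hδ C x y hx hy hT hR S _ q Y hY h0
  have e : ∀ n, (fun j => Sum.elim x y j n) = Sum.elim (fun i => x i n) fun j => y j n := by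
    intro n
    funext j
    cases j <;> rfl
  simp only [e, STEP.expand] at h0 ⊢
  exact STEP.core (B := Σ s, (q s).support) hX hU hG hV δ D hD hδ C x y hx hy hT hR _
    (fun b j => b.2.1 (Sum.inr j)) (fun b => Y b.1) (fun b => hY b.1) h0

end Pool.Agent.MP_be2dd8_ag.H81
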