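import Pool.Agent.MP_be2dd8_ag.H81.Spec

set_option autoImplicit false

/-! Row TAME: integral orbits that avoid the critical residue classes generate a tame ring. -/

namespace Pool.Agent.MP_be2dd8_ag.H81

open Filter Topology Polynomial
open Pool.Agent.MP_be2dd8_ag.H53 Pool.Agent.MP_be2dd8_ag.H53.Gl Pool.Agent.MP_be2dd8_ag.H53D

namespace TAME

variable {κ : Type} [Field κ]

/-- coefficientwise image of a Laurent series -/
noncomputable def mp {R : Type} [CommRing R] (f : R →+* κ) : HahnSeries ℤ R →+* LS κ where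
  toFun P := (P.map f : HahnSeries ℤ κ)
  map_one' := HahnSeries.map_one f.toMonoidWithZeroHom
  map_mul' _ _ := HahnSeries.map_mul f.toNonUnitalRingHom
  map_zero' := HahnSeries.map_zero f.toAddMonoidHom.toZeroHom
  map_add' _ _ := HahnSeries.map_add f.toAddMonoidHom

lemma co_mp {R : Type} [CommRing R] (f : R →+* κ) (P : HahnSeries ℤ R) (l : ℤ) :
    co (mp f P) l = f (P.coeff l) := rfl

lemma co_ext {x y : LS κ} (h : ∀ l, co x l = co y l) : x = y := HahnSeries.ext (funext h)

lemma norm_lt (x : LS κ) (i : ℤ) : ‖x‖ < (2 : ℝ) ^ (-i) ↔ ∀ j ≤ i, co x j = 0 := nm_lt_iff x i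

lemma co_der (x : LS κ) (l : ℤ) : co (der x) l = (l : κ) * co x l := rfl

lemma co_sum {A : Type} (T : Finset A) (x : A → LS κ) (l : ℤ) :
    co (∑ a ∈ T, x a) l = ∑ a ∈ T, co (x a) l := HahnSeries.coeff_sum (s := T) (x := x) l

lemma co_cs_mul (c : κ) (x : LS κ) (l : ℤ) : co (cs κ c * x) l = c * co x l :=
  congrArg (fun z : HahnSeries ℤ κ => z.coeff l) (HahnSeries.C_mul_eq_smul (r := c) (x := x))

lemma co_cs (c : κ) (l : ℤ) : co (cs κ c) l = if l = 0 then c else 0 := by
  change (HahnSeries.single (0 : ℤ) c).coeff l = _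
  rw [HahnSeries.coeff_single]
  congr

variable {X : Type}

/-- evaluation -/
def ev (AA : Subalgebra κ (X → κ)) (x : X) : AA →+* κ :=
  (Pi.evalRingHom (fun _ => κ) x).comp AA.val.toRingHom

/-- series with coefficients in an algebra of functions -/
def EE (U : Ultrafilter X) (AA : Subalgebra κ (X → κ)) : Subring (X → LS κ) where
  carrier := {e | ∃ P : HahnSeries ℤ AA, ∀ᶠ x in (U : Filter X), e x = mp (ev AA x) P}
  mul_mem' := fun ⟨P, hP⟩ ⟨Q, hQ⟩ => ⟨P * Q, by
    filter_upwards [hP, hQ] with x a b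
    rw [Pi.mul_apply, a, b, map_mul]⟩
  one_mem' := ⟨1, Eventually.of_forall fun x => (map_one _).symm⟩
  add_mem' := fun ⟨P, hP⟩ ⟨Q, hQ⟩ => ⟨P + Q, by
    filter_upwards [hP, hQ] with x a b
    rw [Pi.add_apply, a, b, map_add]⟩
  zero_mem' := ⟨0, Eventually.of_forall fun x => (map_zero _).symm⟩
  neg_mem' := fun ⟨P, hP⟩ => ⟨-P, by
    filter_upwards [hP] with x a
    rw [Pi.neg_apply, a, map_neg]⟩

lemma mem_EE {U : Ultrafilter X} {AA : Subalgebra κ (X → κ)} {e : X → LS κ} (B : ℤ)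
    (c : ℤ → X → κ) (h1 : ∀ l, c l ∈ AA) (h2 : ∀ l < B, c l = 0)
    (h3 : ∀ᶠ x in (U : Filter X), ∀ l, co (e x) l = c l x) : e ∈ EE U AA :=
  ⟨HahnSeries.ofSuppBddBelow (fun l => ⟨c l, h1 l⟩) ⟨B, fun l hl => by
    by_contra h
    exact hl (Subtype.ext (h2 l (not_le.1 h)))⟩, h3.mono fun _ hx => co_ext hx⟩

lemma tame {U : Ultrafilter X} {AA : Subalgebra κ (X → κ)} {W : Set X} (hW : W ∈ U)
    (h : ∀ φ ∈ AA, (∀ᶠ n in (U : Filter X), φ n = 0) → ∀ n ∈ W, φ n = 0) :
    Tame U der (EE U AA) := by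
  refine ⟨fun c => mem_EE (HahnSeries.order (show LaurentSeries κ from c))
    (fun l => algebraMap κ _ (co c l)) (fun l => AA.algebraMap_mem _) (fun l hl => ?_)
    (Eventually.of_forall fun x l => rfl), ?_, ?_, ?_⟩
  · have : co c l = 0 := HahnSeries.coeff_eq_zero_of_lt_order hl
    rw [this, map_zero]
  · rintro e ⟨P, hP⟩
    refine mem_EE P.order (fun l => ((l : AA) * P.coeff l : AA)) (fun l => Subtype.prop _)
      (fun l hl => ?_) (hP.mono fun x hx l => ?_)
    · simp only [HahnSeries.coeff_eq_zero_of_lt_order hl, mul_zero, ZeroMemClass.coe_zero]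
    · rw [co_der, hx, co_mp, ← map_intCast (ev AA x), ← map_mul]
      rfl
  · rintro e ⟨P, hP⟩ e' he
    exact ⟨P, by filter_upwards [hP, he] with x a b using b.trans a⟩
  · rintro e ⟨P, hP⟩
    refine ⟨⟨_, hP.mono fun x hx => ((norm_lt _ (P.order - 1)).2 fun j hj => ?_).le⟩, ?_⟩
    · rw [hx, co_mp, HahnSeries.coeff_eq_zero_of_lt_order (by omega), map_zero]
    · by_cases hc : ∀ l, ∀ᶠ x in (U : Filter X), (P.coeff l : X → κ) x = 0
      · left
        filter_upwards [hP, hW] with x a b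
        rw [a]
        exact co_ext fun l => h _ (P.coeff l).2 (hc l) x b
      · obtain ⟨l, hl⟩ := not_forall.1 hc
        refine Or.inr ⟨(2 : ℝ) ^ (-l), by positivity, ?_⟩
        filter_upwards [hP, Ultrafilter.eventually_not.2 hl] with x a b
        by_contra hn
        have := (norm_lt _ l).1 (not_le.1 hn) l le_rfl
        rw [a] at this
        exact b this

lemma co_pow {z : LS κ} (hz : ‖z‖ < 1) {l : ℕ} {k : ℤ} (h : k < l) : co (z ^ l) k = 0 := by
  have h1 : ‖z‖ ≤ (2 : ℝ) ^ (-1 : ℤ) := by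
    by_cases h0 : z = 0
    · rw [h0, norm_zero]; positivity
    · have e : ‖z‖ = _ := nm_of_ne (k := κ) h0
      rw [e] at hz ⊢
      have := (zpow_lt_one_iff_right₀ (by norm_num : (1 : ℝ) < 2)).1 hz
      exact zpow_le_zpow_right₀ (by norm_num) (by omega)
  refine (norm_lt _ k).1 ?_ k le_rfl
  rw [norm_pow]
  refine (pow_le_pow_left₀ (norm_nonneg _) h1 l).trans_lt ?_
  rw [← zpow_natCast, ← zpow_mul]
  exact zpow_lt_zpow_right₀ (by norm_num) (by omega)

lemma co_it (f : κ[X]) (a0 : κ) {a : LS κ} (ha : ‖a - cs κ a0‖ < 1) (m : ℕ) (k : ℤ) :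
    co (it (f.map (cs κ)) m a) k =
      ∑ l ∈ Finset.range (k.toNat + 1), jet f a0 m l * co ((a - cs κ a0) ^ l) k := by
  have h1 := Main.it_map (eval₂RingHom (cs κ) (a - cs κ a0)) (f.map C) m (Polynomial.X + C a0)
  have h2 : (eval₂RingHom (cs κ) (a - cs κ a0)).comp C = cs κ := RingHom.ext fun c => by simp
  rw [Polynomial.map_map, h2] at h1
  simp only [coe_eval₂RingHom, eval₂_add, eval₂_X, eval₂_C, sub_add_cancel] at h1
  rw [← h1, eval₂_eq_sum_range' _ (n := max ((it (f.map C) m (Polynomial.X + C a0)).natDegree + 1)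
    (k.toNat + 1)) (by omega), co_sum]
  simp only [co_cs_mul]
  refine (Finset.sum_subset (Finset.range_mono (le_max_right _ _)) fun l _ hl => ?_).symm
  rw [co_pow ha (by simp only [Finset.mem_range] at hl; omega), mul_zero]

lemma jet_lin (e : κ) (m : ℕ) : jet (C e * Polynomial.X) 1 m 0 = e ^ m := by
  have : it ((C e * Polynomial.X : κ[X]).map C) m (Polynomial.X + C 1) =
      C (e ^ m) * (Polynomial.X + C 1) := by
    induction m with
    | zero => simp [it]
    | succ m ih =>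
      rw [Main.it_succ, ih, pow_succ', map_mul, mul_assoc]
      simp
  rw [jet, this, coeff_C_mul]
  simp

end TAME

open TAME in
theorem rowTame : OfTame := by
  intro hN κ J B _ _ _ _ N C hS f a a0 ix φ hf ha hd hφ
  choose Bb inst ix' p e r s h1 h2 using fun b => hS.form _ (hφ b)
  have he : ∀ t : Σ b, Bb b, (e t.1 t.2 : κ) ≠ 0 := fun t =>
    Nat.cast_ne_zero.2 (by have := (h1 t.1 t.2).2; omega)
  obtain ⟨W, hW, h⟩ := hN κ (J ⊕ Σ b, Bb b) N C.U
    (Sum.elim f fun t => Polynomial.C (e t.1 t.2 : κ) * Polynomial.X) (Sum.elim a0 fun _ => 1)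
    (Sum.elim ix fun t => ix' t.1 t.2) (Sum.elim (fun _ => 1) fun t => p t.1 t.2)
    (by
      rintro (j | t)
      · exact one_pos
      · exact (h1 t.1 t.2).1)
    (by
      rintro (j | t)
      · exact hf j
      · simp only [Sum.elim_inr, natDegree_C_mul_X _ (he t), one_pos])
    (by
      rintro (j | t)
      · exact hd j
      · exact Eventually.of_forall fun n => by simpa using he t)
  refine ⟨_, tame hW h, fun j => mem_EE 0 (fun k => ∑ l ∈ Finset.range (k.toNat + 1),
    (fun n => jet (f j) (a0 j) (n (ix j) / 1) l) * algebraMap κ _ (co ((a j - cs κ (a0 j)) ^ l) k))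
    (fun k => Subalgebra.sum_mem _ fun l _ => Subalgebra.mul_mem _
      (Algebra.subset_adjoin ⟨Sum.inl j, l, rfl⟩) (Subalgebra.algebraMap_mem _ _))
    (fun k hk => ?_) (Eventually.of_forall fun n k => ?_), fun b => mem_EE 0
    (fun k => if k = 0 then algebraMap κ _ (s b : κ) + ∑ t, algebraMap κ _ (r b t : κ) *
      (fun n => jet (Polynomial.C (e b t : κ) * Polynomial.X) 1 (n (ix' b t) / p b t) 0) else 0)
    (fun k => ?_) (fun k hk => if_neg hk.ne) ((h2 b).filter_mono C.le |>.mono fun n hn k => ?_)⟩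
  · refine Finset.sum_eq_zero fun l _ => ?_
    rw [co_pow (ha j) (by omega), map_zero, mul_zero]
  · rw [co_it _ _ (ha j)]
    simp
  · split_ifs
    · exact Subalgebra.add_mem _ (Subalgebra.algebraMap_mem _ _) (Subalgebra.sum_mem _ fun t _ =>
        Subalgebra.mul_mem _ (Subalgebra.algebraMap_mem _ _)
          (Algebra.subset_adjoin ⟨Sum.inr ⟨b, t⟩, 0, rfl⟩))
    · exact Subalgebra.zero_mem _
  · rw [← map_intCast (cs κ), co_cs]
    split_ifs
    · have := congrArg (fun q : ℚ => (q : κ)) hn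
      push_cast at this
      simp only [jet_lin]
      simp [this]
    · rfl

end Pool.Agent.MP_be2dd8_ag.H81
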