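import Pool.Agent.MP_be2dd8_ag.H81.Spec

set_option autoImplicit false

/-! Row UER: unit equations with moving coefficients from a relatively closed subfield. -/

namespace Pool.Agent.MP_be2dd8_ag.H81

open Filter Topology Polynomial
open Pool.Agent.MP_be2dd8_ag.H53 Pool.Agent.MP_be2dd8_ag.H53.Gl Pool.Agent.MP_be2dd8_ag.H53D

namespace UER

/-- finitely many characters cut out the common kernel of a family -/
lemma fin_char {G : Type} [AddCommGroup G] [Module.Finite ℤ G] (Ch : Set (G →ₗ[ℤ] ℤ)) :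
    ∃ s : Finset (G →ₗ[ℤ] ℤ), (s : Set (G →ₗ[ℤ] ℤ)) ⊆ Ch ∧
      ∀ g, (∀ χ ∈ s, χ g = 0) → ∀ χ ∈ Ch, χ g = 0 := by
  obtain ⟨s, hs, h⟩ := (Submodule.fg_span_iff_fg_span_finset_subset Ch).1
    (IsNoetherian.noetherian (Submodule.span ℤ Ch))
  refine ⟨s, hs, fun g hg χ hχ => ?_⟩
  have h1 : χ ∈ Submodule.span ℤ (s : Set (G →ₗ[ℤ] ℤ)) := h ▸ Submodule.subset_span hχ
  clear hχ
  induction h1 using Submodule.span_induction with
  | mem x hx => exact hg x hx
  | zero => rfl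
  | add x y _ _ hx hy => simp [hx, hy]
  | smul a x _ hx => simp [hx]

/-- a vanishing sum with two incomparable terms has a vanishing proper subsum -/
lemma split {L X A : Type} [NormedField L] [IsUltrametricDist L] {δ : Derivation ℤ L L} {C : ℝ}
    (hC : ∀ x, ‖δ x‖ ≤ C * ‖x‖) (hk : ∀ x, δ x = 0 → ‖x‖ ≤ 1) {Γ : Subgroup Lˣ} (hΓ : Γ.FG)
    {E : Submodule (cst δ) L} (hE : E.FG) (U : Ultrafilter X) (Y : A → X → Lˣ) (e : A → X → L)
    (hm : ∀ᶠ x in (U : Filter X), ∀ a, Y a x ∈ Γ ∧ e a x ∈ E) (T : Finset A) {a b : A}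
    (ha : a ∈ T) (hb : b ∈ T)
    (hab : ¬ ∃ K K' : ℝ, ∀ᶠ x in (U : Filter X), ‖(Y a x : L)‖ ≤ K * ‖(Y b x : L)‖ ∧
      ‖(Y b x : L)‖ ≤ K' * ‖(Y a x : L)‖)
    (hs : ∀ᶠ x in (U : Filter X), ∑ c ∈ T, e c x * (Y c x : L) = 0) :
    ∃ T1 ⊂ T, T1.Nonempty ∧ ∀ᶠ x in (U : Filter X), ∑ c ∈ T1, e c x * (Y c x : L) = 0 := by
  classical
  set R : A → A → Prop := fun c d => ∃ K : ℝ, 0 ≤ K ∧
    ∀ᶠ x in (U : Filter X), ‖(Y c x : L)‖ ≤ K * ‖(Y d x : L)‖ with hR
  have htr : ∀ c d f, R c d → R d f → R c f := by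
    rintro c d f ⟨K, hK, h1⟩ ⟨K', hK', h2⟩
    refine ⟨K * K', mul_nonneg hK hK', ?_⟩
    filter_upwards [h1, h2] with x h1 h2
    rw [mul_assoc]
    exact h1.trans (mul_le_mul_of_nonneg_left h2 hK)
  have htot : ∀ c d, R c d ∨ R d c := by
    intro c d
    have h1 : ∀ᶠ x in (U : Filter X), ‖(Y c x : L)‖ ≤ 1 * ‖(Y d x : L)‖ ∨
        ‖(Y d x : L)‖ ≤ 1 * ‖(Y c x : L)‖ := Eventually.of_forall fun x => by
      rw [one_mul, one_mul]; exact le_total _ _
    exact (Ultrafilter.eventually_or.1 h1).imp (fun h => ⟨1, zero_le_one, h⟩)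
      fun h => ⟨1, zero_le_one, h⟩
  obtain ⟨m, hmT, htop⟩ := H15.exists_top R htot htr T ⟨a, ha⟩
  have hm1 : m ∈ T.filter (R m) := Finset.mem_filter.2 ⟨hmT, htop m hmT⟩
  have hne : (T.filter fun c => ¬ R m c).Nonempty := by
    by_contra hc
    rw [Finset.not_nonempty_iff_eq_empty, Finset.filter_eq_empty_iff] at hc
    obtain ⟨K, -, h1⟩ := htr a m b (htop a ha) (not_not.1 (hc hb))
    obtain ⟨K', -, h2⟩ := htr b m a (htop b hb) (not_not.1 (hc ha))
    exact hab ⟨K, K', h1.and h2⟩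
  refine ⟨T.filter (R m), ?_, ⟨m, hm1⟩, ?_⟩
  · obtain ⟨d, hd⟩ := hne
    rw [Finset.mem_filter] at hd
    exact Finset.filter_ssubset.2 ⟨d, hd.1, hd.2⟩
  by_contra hc
  rw [← Ultrafilter.eventually_not] at hc
  obtain ⟨ε, hε, hgap⟩ := gap_aux hC hk hΓ (T.filter (R m)) E hE
  obtain ⟨c0, C0, -, hC0, hbd⟩ := norms_bdd hk E hE
  have key : ∀ᶠ x in (U : Filter X), ∃ p ∈ ((T.filter (R m) ×ˢ T.filter fun c => ¬ R m c :
      Finset (A × A)) : Set (A × A)), ‖(Y p.1 x : L)‖ ≤ C0 / ε * ‖(Y p.2 x : L)‖ := by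
    filter_upwards [hm, hs, hc] with x hx hs hc
    have h1 : ∑ c ∈ T.filter (R m), e c x *
        ((if c ∈ T.filter (R m) then Y c x else Y m x : Lˣ) : L) =
        ∑ c ∈ T.filter (R m), e c x * (Y c x : L) :=
      Finset.sum_congr rfl fun c hc => by rw [if_pos hc]
    obtain ⟨c, hc1⟩ := hgap (fun c => if c ∈ T.filter (R m) then Y c x else Y m x)
      (fun c => e c x) (fun c => by
        split_ifs
        · exact (hx c).1
        · exact (hx m).1) (fun c => (hx c).2) (by rw [h1]; exact hc)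
    rw [h1] at hc1
    obtain ⟨c', hc', hc2⟩ : ∃ c' ∈ T.filter (R m),
        ε * ‖(Y c' x : L)‖ ≤ ‖∑ c ∈ T.filter (R m), e c x * (Y c x : L)‖ := by
      by_cases h : c ∈ T.filter (R m)
      · exact ⟨c, h, by simpa only [if_pos h] using hc1⟩
      · exact ⟨m, hm1, by simpa only [if_neg h] using hc1⟩
    obtain ⟨d, hd, hd2⟩ := IsUltrametricDist.exists_norm_finsetSum_le_of_nonempty hne
      fun c => e c x * (Y c x : L)
    rw [← Finset.sum_filter_add_sum_filter_not T (R m), add_eq_zero_iff_eq_neg] at hs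
    rw [hs, norm_neg] at hc2
    refine ⟨(c', d), Finset.mem_coe.2 (Finset.mem_product.2 ⟨hc', hd⟩), ?_⟩
    have h3 : ‖e d x‖ ≤ C0 := by
      by_cases h : e d x = 0
      · rw [h, norm_zero]; exact hC0.le
      · exact (hbd _ (hx d).2 h).2
    rw [div_mul_eq_mul_div, le_div_iff₀ hε, mul_comm]
    refine hc2.trans (hd2.trans ?_)
    rw [norm_mul]
    exact mul_le_mul_of_nonneg_right h3 (norm_nonneg _)
  obtain ⟨p, hp, h⟩ := (Ultrafilter.eventually_exists_mem_iff (Finset.finite_toSet _)).1 key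
  rw [Finset.mem_coe, Finset.mem_product, Finset.mem_filter, Finset.mem_filter] at hp
  exact hp.2.2 (htr m p.1 p.2 hp.1.2 ⟨C0 / ε, by positivity, h⟩)

/-- the order of a Laurent series -/
noncomputable def od {κ : Type} [Field κ] (x : LS κ) : ℤ :=
  HahnSeries.order (show LaurentSeries κ from x)

lemma norm_od {κ : Type} [Field κ] {x : LS κ} (h : x ≠ 0) : ‖x‖ = (2 : ℝ) ^ (-od x) :=
  nm_of_ne h

lemma od_mul {κ : Type} [Field κ] {x y : LS κ} (hx : x ≠ 0) (hy : y ≠ 0) :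
    od (x * y) = od x + od y :=
  HahnSeries.order_mul hx hy

/-- the character of a place -/
noncomputable def chr {F κ : Type} [Field F] [Field κ] (Γ : Subgroup Fˣ) (ι : F →+* LS κ) :
    Additive Γ →ₗ[ℤ] ℤ :=
  AddMonoidHom.toIntLinearMap (AddMonoidHom.mk' (fun y => od (ι ((y.toMul : Fˣ) : F)))
    fun y z => by
      rw [toMul_add, Subgroup.coe_mul, Units.val_mul, map_mul]
      exact od_mul ((map_ne_zero ι).2 (Units.ne_zero _)) ((map_ne_zero ι).2 (Units.ne_zero _)))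

lemma chr_apply {F κ : Type} [Field F] [Field κ] (Γ : Subgroup Fˣ) (ι : F →+* LS κ) (y : Γ) :
    chr Γ ι (Additive.ofMul y) = od (ι ((y : Fˣ) : F)) := rfl

lemma der_cs {κ : Type} [Field κ] (c : κ) : der (cs κ c) = 0 := by
  change eul (HahnSeries.C c) = 0
  ext n
  by_cases h : n = 0
  · simp [eul, h]
  · simp [eul, HahnSeries.C_apply, HahnSeries.coeff_single_of_ne h]

/-- a bounded integer function is constant along an ultrafilter -/
lemma const_of_bdd {X : Type} (U : Ultrafilter X) (n : X → ℤ) (K K' : ℝ)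
    (h : ∀ᶠ x in (U : Filter X), (2 : ℝ) ^ (-n x) ≤ K ∧ (2 : ℝ) ^ n x ≤ K') :
    ∃ r, ∀ᶠ x in (U : Filter X), n x = r := by
  obtain ⟨N, hN⟩ := pow_unbounded_of_one_lt (max K K') (by norm_num : (1 : ℝ) < 2)
  rw [← zpow_natCast] at hN
  have h1 : ∀ᶠ x in (U : Filter X), ∃ r ∈ Set.Icc (-(N : ℤ)) N, n x = r := by
    filter_upwards [h] with x hx
    have h2 := (hx.1.trans (le_max_left _ _)).trans_lt hN
    have h3 := (hx.2.trans (le_max_right _ _)).trans_lt hN
    rw [zpow_lt_zpow_iff_right₀ (by norm_num)] at h2 h3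
    exact ⟨n x, ⟨by omega, by omega⟩, rfl⟩
  obtain ⟨r, -, hr⟩ := (Ultrafilter.eventually_exists_mem_iff (Set.finite_Icc _ _)).1 h1
  exact ⟨r, hr⟩

/-- enough places -/
def Pl (k F : Type) [Field k] [Field F] [Algebra k F] : Prop :=
  ∀ g : F, Transcendental k g → ∃ (κ : Type) (_ : Field κ) (_ : CharZero κ) (φ : k →+* κ)
    (ι : F →+* LS κ), 1 < ‖ι g‖ ∧ ∀ c : k, ι (algebraMap k F c) = cs κ (φ c)

/-- a place at which a given function is unbounded -/
lemma exists_place {k F X : Type} [Field k] [Field F] [Algebra k F]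
    (hk : ∀ z : F, IsAlgebraic k z → z ∈ (algebraMap k F).range) (hP : Pl k F)
    {Γ : Subgroup Fˣ} (hΓ : Γ.FG) (U : Ultrafilter X) (u : X → Fˣ)
    (hu : ∀ᶠ x in (U : Filter X), u x ∈ Γ)
    (hne : ∀ t : F, ¬ ∀ᶠ x in (U : Filter X), ∃ z : k, (u x : F) = algebraMap k F z * t) :
    ∃ (κ : Type) (_ : Field κ) (_ : CharZero κ) (φ : k →+* κ) (ι : F →+* LS κ),
      (∀ c : k, ι (algebraMap k F c) = cs κ (φ c)) ∧
      ∀ r, ¬ ∀ᶠ x in (U : Filter X), od (ι (u x : F)) = r := by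
  classical
  by_contra hc
  push Not at hc
  have : Group.FG Γ := (Group.fg_iff_subgroup_fg Γ).2 hΓ
  have : Module.Finite ℤ (Additive Γ) :=
    Module.Finite.iff_addGroup_fg.2 (GroupFG.iff_add_fg.1 this)
  obtain ⟨s, hs, h⟩ := fin_char {χ : Additive Γ →ₗ[ℤ] ℤ | ∃ (κ : Type) (_ : Field κ)
    (_ : CharZero κ) (φ : k →+* κ) (ι : F →+* LS κ),
      (∀ c : k, ι (algebraMap k F c) = cs κ (φ c)) ∧ χ = chr Γ ι}
  have h1 : ∀ χ ∈ s, ∃ r, ∀ᶠ x in (U : Filter X),
      ∀ hx : u x ∈ Γ, χ (Additive.ofMul ⟨u x, hx⟩) = r := by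
    intro χ hχ
    obtain ⟨κ, _, _, φ, ι, h2, rfl⟩ := hs hχ
    obtain ⟨r, hr⟩ := hc κ _ ‹_› φ ι h2
    exact ⟨r, hr.mono fun x hx _ => hx⟩
  choose! r hr using h1
  have h2 := hu.and ((Finset.eventually_all s).2 hr)
  obtain ⟨x0, hx0, h0⟩ := h2.exists
  refine hne (u x0) (h2.mono fun x ⟨hx, h3⟩ => ?_)
  have h4 := h (Additive.ofMul ⟨u x, hx⟩ - Additive.ofMul ⟨u x0, hx0⟩) fun χ hχ => by
    rw [map_sub, h3 χ hχ hx, h0 χ hχ hx0, sub_self]
  have h5 : IsAlgebraic k ((u x / u x0 : Fˣ) : F) := by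
    by_contra h5
    obtain ⟨κ, _, _, φ, ι, h6, h7⟩ := hP _ h5
    have h8 : od (ι ((u x / u x0 : Fˣ) : F)) = 0 := h4 _ ⟨κ, _, ‹_›, φ, ι, h7, rfl⟩
    rw [norm_od ((map_ne_zero ι).2 (Units.ne_zero _)), h8] at h6
    simp at h6
  obtain ⟨z, hz⟩ := hk _ h5
  exact ⟨z, by rw [hz]; simp⟩

/-- the statement for a field with enough places -/
lemma core {k F X A : Type} [Field k] [Field F] [Algebra k F]
    (hk : ∀ z : F, IsAlgebraic k z → z ∈ (algebraMap k F).range) (hP : Pl k F)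
    {Γ : Subgroup Fˣ} {E : Submodule k F} (hΓ : Γ.FG) (hE : E.FG) (U : Ultrafilter X)
    (Y : A → X → Fˣ) (e : A → X → F) (hm : ∀ᶠ x in (U : Filter X), ∀ a, Y a x ∈ Γ ∧ e a x ∈ E)
    (hab : ∀ a b, a ≠ b → ∀ t : F,
      ¬ ∀ᶠ x in (U : Filter X), ∃ z : k, (Y a x : F) = algebraMap k F z * t * Y b x)
    (T : Finset A) : T.Nonempty → (∀ᶠ x in (U : Filter X), ∑ a ∈ T, e a x * (Y a x : F) = 0) →
      ∃ a ∈ T, ∀ᶠ x in (U : Filter X), e a x = 0 := by
  classical
  induction T using Finset.strongInduction with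
  | H T ih =>
  rintro ⟨a, ha⟩ hs
  by_cases hT : ∀ b ∈ T, b = a
  · have h1 : T = {a} := Finset.eq_singleton_iff_unique_mem.2 ⟨ha, hT⟩
    refine ⟨a, ha, hs.mono fun x hx => ?_⟩
    rw [h1, Finset.sum_singleton] at hx
    exact (mul_eq_zero.1 hx).resolve_right (Units.ne_zero _)
  push Not at hT
  obtain ⟨b, hb, hba⟩ := hT
  obtain ⟨κ, _, _, φ, ι, hι, hr⟩ := exists_place hk hP hΓ U (fun x => Y a x / Y b x)
    (hm.mono fun x hx => Γ.div_mem (hx a).1 (hx b).1) fun t ht =>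
      hab a b hba.symm t (ht.mono fun x ⟨z, hz⟩ => ⟨z, by rw [← hz]; simp⟩)
  obtain ⟨s, rfl⟩ := hE
  have hE' : ∀ w ∈ Submodule.span k (s : Set F),
      ι w ∈ Submodule.span (cst (der (k := κ))) (ι '' (s : Set F)) := by
    intro w hw
    induction hw using Submodule.span_induction with
    | mem x hx => exact Submodule.subset_span ⟨x, hx, rfl⟩
    | zero => rw [map_zero]; exact Submodule.zero_mem _
    | add x y _ _ hx hy => rw [map_add]; exact Submodule.add_mem _ hx hy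
    | smul c x _ hx =>
      rw [Algebra.smul_def, map_mul, hι]
      exact Submodule.smul_mem _ (⟨cs κ (φ c), der_cs _⟩ : cst (der (k := κ))) hx
  have hΓ' : (Γ.map (Units.map (ι : F →* LS κ))).FG := by
    obtain ⟨S, rfl⟩ := hΓ
    exact ⟨S.image (Units.map (ι : F →* LS κ)), by
      rw [Finset.coe_image, MonoidHom.map_closure]⟩
  obtain ⟨T1, h1, h2, h3⟩ := split (δ := der (k := κ)) (C := 1)
    (fun x => by rw [one_mul]; exact nm_le_of (eul_supp x)) (fun x hx => nm_le_one hx) hΓ'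
    (Submodule.fg_span (s.finite_toSet.image ι)) U
    (fun c x => Units.map (ι : F →* LS κ) (Y c x)) (fun c x => ι (e c x))
    (hm.mono fun x hx c => ⟨⟨_, (hx c).1, rfl⟩, hE' _ (hx c).2⟩) T ha hb (by
      rintro ⟨K, K', h⟩
      obtain ⟨r, h4⟩ := const_of_bdd U (fun x => od (ι ((Y a x / Y b x : Fˣ) : F))) K K'
        (h.mono fun x hx => by
          have n1 : 0 < ‖ι (Y a x : F)‖ := norm_pos_iff.2 ((map_ne_zero ι).2 (Units.ne_zero _))
          have n2 : 0 < ‖ι (Y b x : F)‖ := norm_pos_iff.2 ((map_ne_zero ι).2 (Units.ne_zero _))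
          have n3 : (2 : ℝ) ^ (-od (ι ((Y a x / Y b x : Fˣ) : F))) =
              ‖ι (Y a x : F)‖ / ‖ι (Y b x : F)‖ := by
            rw [← norm_od ((map_ne_zero ι).2 (Units.ne_zero _)), Units.val_div_eq_div_val,
              map_div₀, norm_div]
          refine ⟨by rw [n3, div_le_iff₀ n2]; exact hx.1, ?_⟩
          rw [zpow_neg, inv_eq_iff_eq_inv, inv_div] at n3
          rw [n3, div_le_iff₀ n1]
          exact hx.2)
      exact hr r h4)
    (hs.mono fun x hx => by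
      have := congrArg ι hx
      rw [map_sum, map_zero] at this
      simpa using this)
  obtain ⟨c, hc, h4⟩ := ih T1 h1 h2 (h3.mono fun x hx => by
    apply ι.injective
    rw [map_sum, map_zero]
    simpa using hx)
  exact ⟨c, h1.1 hc, h4⟩

end UER

theorem rowUer : OfUer := by
  classical
  intro hP k F X A _ _ _ _ _ hk Γ E hΓ hE U Y e hm hab hs
  obtain ⟨G, rfl⟩ := hΓ
  obtain ⟨s, rfl⟩ := hE
  set S : Finset F := G.image (fun g : Fˣ => (g : F)) ∪ s with hS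
  set K := IntermediateField.adjoin k (S : Set F) with hK
  have hsub : ∀ w ∈ S, w ∈ K := fun w hw => IntermediateField.subset_adjoin k _ hw
  let j : Kˣ →* Fˣ := Units.map (K.val : K →* F)
  have hj : Function.Injective j := Units.map_injective Subtype.val_injective
  have hG : (G : Set Fˣ) ⊆ j.range := by
    intro g hg
    have h1 : (g : F) ∈ K := hsub _ (Finset.mem_union_left _ (Finset.mem_image_of_mem _ hg))
    exact ⟨Units.mk0 ⟨g, h1⟩ fun h => g.ne_zero (congrArg Subtype.val h), Units.ext rfl⟩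
  have hs' : (s : Set F) ⊆ Set.range (K.val.toLinearMap) := fun w hw =>
    ⟨⟨w, hsub _ (Finset.mem_union_right _ hw)⟩, rfl⟩
  have hΓ1 : Subgroup.closure (G : Set Fˣ) = (Subgroup.closure (j ⁻¹' (G : Set Fˣ))).map j := by
    rw [MonoidHom.map_closure, Set.image_preimage_eq_of_subset hG]
  have hE1 : Submodule.span k (s : Set F) =
      (Submodule.span k (K.val.toLinearMap ⁻¹' (s : Set F))).map K.val.toLinearMap := by
    rw [Submodule.map_span, Set.image_preimage_eq_of_subset hs']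
  have h1 : ∀ a x, ∃ (y : Kˣ) (w : K), (∀ a, Y a x ∈ Subgroup.closure (G : Set Fˣ) ∧
      e a x ∈ Submodule.span k (s : Set F)) → (y ∈ Subgroup.closure (j ⁻¹' (G : Set Fˣ)) ∧
      w ∈ Submodule.span k (K.val.toLinearMap ⁻¹' (s : Set F))) ∧
      ((y : K) : F) = Y a x ∧ (w : F) = e a x := by
    intro a x
    by_cases h : ∀ a, Y a x ∈ Subgroup.closure (G : Set Fˣ) ∧ e a x ∈ Submodule.span k (s : Set F)
    · obtain ⟨h2, h3⟩ := h a
      rw [hΓ1] at h2
      rw [hE1] at h3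
      obtain ⟨y, hy, h4⟩ := h2
      obtain ⟨w, hw, h5⟩ := h3
      exact ⟨y, w, fun _ => ⟨⟨hy, hw⟩, congrArg Units.val h4, h5⟩⟩
    · exact ⟨1, 0, fun h' => absurd h' h⟩
  choose Y' e' h1 using h1
  have hk' : ∀ z : K, IsAlgebraic k z → z ∈ (algebraMap k K).range := by
    intro z hz
    obtain ⟨c, hc⟩ := hk z (IntermediateField.isAlgebraic_iff.1 hz)
    exact ⟨c, Subtype.ext hc⟩
  have hP' : UER.Pl k K := fun g hg =>
    hP k F S g fun h => hg (IntermediateField.isAlgebraic_iff.2 h)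
  by_contra hc
  push Not at hc
  obtain ⟨a0, ha0⟩ := hc
  have h2 : ∀ᶠ x in (U : Filter X), ∀ a ∈ Finset.univ.filter
      (fun a => ∀ᶠ x in (U : Filter X), e a x = 0), e a x = 0 :=
    (Finset.eventually_all _).2 fun a ha => (Finset.mem_filter.1 ha).2
  obtain ⟨a, ha, h3⟩ := UER.core hk' hP'
    ((Subgroup.fg_iff _).2 ⟨_, rfl, G.finite_toSet.preimage hj.injOn⟩)
    (Submodule.fg_span (s.finite_toSet.preimage Subtype.val_injective.injOn)) U Y' e'
    (hm.mono fun x hx a => (h1 a x hx).1) (fun a b h t ht => hab a b h t (by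
      filter_upwards [hm, ht] with x hx ⟨z, hz⟩
      refine ⟨z, ?_⟩
      rw [← (h1 a x hx).2.1, ← (h1 b x hx).2.1, hz]
      rfl))
    (Finset.univ.filter fun a => ¬ ∀ᶠ x in (U : Filter X), e a x = 0)
    ⟨a0, Finset.mem_filter.2 ⟨Finset.mem_univ _, by simpa using ha0⟩⟩ (by
      filter_upwards [hm, hs, h2] with x hx h4 h5
      rw [← Finset.sum_filter_add_sum_filter_not _ fun a => ∀ᶠ x in (U : Filter X), e a x = 0,
        Finset.sum_eq_zero fun a ha => by rw [h5 a ha, zero_mul], zero_add] at h4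
      apply Subtype.val_injective
      refine Eq.trans ?_ h4
      push_cast
      refine Finset.sum_congr rfl fun a _ => ?_
      rw [(h1 a x hx).2.1, (h1 a x hx).2.2])
  refine (Finset.mem_filter.1 ha).2 ?_
  filter_upwards [hm, h3] with x hx h4
  rw [← (h1 a x hx).2.2, h4]
  rfl

end Pool.Agent.MP_be2dd8_ag.H81
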