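import Pool.Agent.MP_be2dd8_ag.H81.Spec

set_option autoImplicit false

/-! The leading term principle, with finitely many multipliers. -/

namespace Pool.Agent.MP_be2dd8_ag.H81

open Filter Topology Finset
open Pool.Agent.MP_be2dd8_ag.H53

namespace VAN

theorem lead {X I F : Type} [NormedField F] [CompleteSpace F] (U : Ultrafilter X) {W : Set X}
    (hW : W ∈ U) (τ : I → X → F) (c : I → F) (hs : Summable fun s => ‖c s‖)
    (h0 : ∀ s, ∀ x ∈ W, 0 < ‖τ s x‖)
    (hfin : ∀ E : Set I, (∀ a ∈ E, ∀ b ∈ E, ∃ K : ℝ, ∀ᶠ x in (U : Filter X),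
      ‖τ a x‖ ≤ K * ‖τ b x‖) → E.Finite)
    (hdi : ∀ S : Set I, ∃ S₀ : Finset I, (∀ s ∈ S₀, s ∈ S) ∧
      ∀ s ∈ S, ∃ b ∈ S₀, ∀ x ∈ W, ‖τ s x‖ ≤ ‖τ b x‖)
    (hkey : ∀ E : Finset I, (∀ x ∈ W, ∑ s ∈ E, c s * τ s x = 0) ∨ ∃ ε : ℝ, 0 < ε ∧
      ∀ᶠ x in (U : Filter X), ∃ s ∈ E, ε * ‖τ s x‖ ≤ ‖∑ s ∈ E, c s * τ s x‖)
    (hz : ∀ᶠ x in (U : Filter X), ∑' s, c s * τ s x = 0) : ∀ x ∈ W, ∑' s, c s * τ s x = 0 := by
  classical
  set R : I → I → Prop := fun a b =>
    ∃ K : ℝ, 0 ≤ K ∧ ∀ᶠ x in (U : Filter X), ‖τ a x‖ ≤ K * ‖τ b x‖ with hR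
  have htot : ∀ a b, R a b ∨ R b a := fun a b =>
    (Ultrafilter.eventually_or.1 (Eventually.of_forall (f := (U : Filter X)) fun x =>
      le_total ‖τ a x‖ ‖τ b x‖)).imp (fun h => ⟨1, zero_le_one, by simpa using h⟩)
      fun h => ⟨1, zero_le_one, by simpa using h⟩
  have htr : ∀ a b e, R a b → R b e → R a e := fun a b e ⟨K, hK, h1⟩ ⟨K', hK', h2⟩ =>
    ⟨K * K', mul_nonneg hK hK', by
      filter_upwards [h1, h2] with x h1 h2
      rw [mul_assoc]
      exact h1.trans (mul_le_mul_of_nonneg_left h2 hK)⟩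
  let S : Setoid I := ⟨fun a b => R a b ∧ R b a, fun a => ⟨(htot a a).elim id id,
    (htot a a).elim id id⟩, And.symm, fun h h' => ⟨htr _ _ _ h.1 h'.1, htr _ _ _ h'.2 h.2⟩⟩
  obtain ⟨E, hE⟩ : ∃ E : I → Finset I, ∀ a b, b ∈ E a ↔ S b a :=
    ⟨fun a => (hfin {b | S b a} fun b hb e he =>
      (htr _ _ _ hb.1 he.2).imp fun _ h => h.2).toFinset, fun a b => Set.Finite.mem_toFinset _⟩
  have hEE : ∀ a, ∀ b ∈ E a, E b = E a := fun a b hb => Finset.ext fun e => by
    rw [hE, hE]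
    exact ⟨fun h => S.trans h ((hE a b).1 hb), fun h => S.trans h (S.symm ((hE a b).1 hb))⟩
  let f : (I → Prop) → X → I → F := fun p x s => if p s then c s * τ s x else 0
  have fle : ∀ p x s K, (p s → ‖τ s x‖ ≤ K) → 0 ≤ K → ‖f p x s‖ ≤ ‖c s‖ * K :=
    fun p x s K h hK => by
      simp only [f]
      split_ifs with k
      · exact norm_mul_le_of_le le_rfl (h k)
      · rw [norm_zero]; positivity
  have sm : ∀ p, ∀ x ∈ W, Summable (f p x) := fun p x hx => by
    obtain ⟨S₀, -, h⟩ := hdi Set.univ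
    refine Summable.of_norm_bounded (hs.mul_right (∑ b ∈ S₀, ‖τ b x‖)) fun s =>
      fle p x s _ (fun _ => ?_) (by positivity)
    obtain ⟨b, hb, k⟩ := h s trivial
    exact (k x hx).trans (single_le_sum (f := fun b => ‖τ b x‖) (fun _ _ => norm_nonneg _) hb)
  let B : I → Prop := fun a => ¬ ∀ x ∈ W, ∑ b ∈ E a, c b * τ b x = 0
  have hB0 : ∀ x ∈ W, ∑' s, c s * τ s x = ∑' s, f B x s := fun x hx => by
    have h1 : Tendsto (fun T : Finset I => T.biUnion E) atTop atTop :=
      tendsto_atTop_mono (fun T a ha => mem_biUnion.2 ⟨a, ha, (hE a a).2 (S.refl a)⟩) tendsto_id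
    have h2 : ∑' s, f (fun a => ¬ B a) x s = 0 :=
      tendsto_nhds_unique ((sm _ x hx).hasSum.comp h1) (tendsto_const_nhds.congr fun T =>
        (sum_cancels_of_partition_cancels S fun a ha => by
          obtain ⟨e, he, k⟩ := mem_biUnion.1 ha
          rw [show (T.biUnion E).filter (S · a) = E a from Finset.ext fun b => by
            rw [mem_filter, ← hE]
            exact and_iff_right_of_imp fun h => mem_biUnion.2 ⟨e, he, hEE e a k ▸ h⟩]
          by_cases h : B a
          · exact sum_eq_zero fun b hb => if_neg (by simpa only [B, hEE a b hb, not_not] using h)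
          · rw [← not_not.1 h x hx]
            exact sum_congr rfl fun b hb => if_pos (by simpa only [B, hEE a b hb] using h)).symm)
    rw [← add_zero (∑' s, f B x s), ← h2, ← (sm _ x hx).tsum_add (sm _ x hx)]
    exact tsum_congr fun s => by by_cases h : B s <;> simp [f, h]
  by_contra hn
  obtain ⟨B₀, hB1, hB2⟩ := hdi {s | B s}
  obtain ⟨t, ht, htop⟩ := H15.exists_top R htot htr B₀ (nonempty_iff_ne_empty.2 fun e => hn
    fun x hx => (hB0 x hx).trans ((tsum_congr fun s => if_neg fun h => by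
      simpa [e] using hB2 s h).trans tsum_zero))
  choose! K hK0 hK using htop
  have hK' : 0 ≤ ∑ b ∈ B₀, K b := sum_nonneg hK0
  have hbd : ∀ᶠ x in (U : Filter X), ∀ s, B s → ‖τ s x‖ ≤ (∑ b ∈ B₀, K b) * ‖τ t x‖ := by
    filter_upwards [hW, (eventually_all_finset B₀).2 hK] with x hx h s hsB
    obtain ⟨b, hb, k⟩ := hB2 s hsB
    exact (k x hx).trans ((h b hb).trans
      (mul_le_mul_of_nonneg_right (single_le_sum hK0 hb) (norm_nonneg _)))
  have hlim := tendsto_tsum_of_dominated_convergence (𝓕 := (U : Filter X))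
    (f := fun x s => f (fun s => B s ∧ s ∉ E t) x s / τ t x) (g := fun _ => 0)
    (hs.mul_right (∑ b ∈ B₀, K b)) (fun s => ?_) ?_
  · rw [tsum_zero] at hlim
    obtain ⟨ε, hε, hlow⟩ := (hkey (E t)).resolve_left (hB1 t ht)
    choose! L hL0 hL using fun b (hb : b ∈ E t) => ((hE t b).1 hb).2
    have hL1 : 0 < 1 + ∑ b ∈ E t, L b := by linarith [sum_nonneg hL0]
    obtain ⟨x, hx, hGx, ⟨b, hb, h1⟩, h2, h3⟩ := (Eventually.and hW (hz.and (hlow.and
      (((eventually_all_finset (E t)).2 hL).and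
      ((tendsto_zero_iff_norm_tendsto_zero.1 hlim).eventually
        (gt_mem_nhds (div_pos hε hL1))))))).exists
    have h4 : ∑' s, f B x s =
        ∑' s, f (fun s => B s ∧ s ∉ E t) x s + ∑ s ∈ E t, c s * τ s x := by
      rw [← sum_congr rfl fun s hs => show f (· ∈ E t) x s = _ from if_pos hs,
        ← tsum_eq_sum (L := .unconditional _) fun s hs => show f (· ∈ E t) x s = 0 from if_neg hs,
        ← (sm _ x hx).tsum_add (sm _ x hx)]
      refine tsum_congr fun s => ?_
      by_cases h : s ∈ E t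
      · have k : B t := hB1 t ht
        have : B s := by simpa only [B, hEE t s h] using k
        simp [f, h, this]
      · simp [f, h]
    rw [← hB0 x hx, hGx, eq_comm, add_eq_zero_iff_eq_neg] at h4
    rw [tsum_div_const, h4, norm_div, norm_neg, div_lt_div_iff₀ (h0 t x hx) hL1] at h3
    have h5 := (h2 b hb).trans (mul_le_mul_of_nonneg_right
      (show L b ≤ 1 + ∑ b ∈ E t, L b by linarith [single_le_sum hL0 hb]) (norm_nonneg _))
    nlinarith [mul_le_mul_of_nonneg_left h5 hε.le, mul_le_mul_of_nonneg_right h1 hL1.le]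
  · by_cases hst : B s ∧ s ∉ E t
    · have : Tendsto (fun x => τ s x / τ t x) U (𝓝 0) := by
        rw [NormedAddGroup.tendsto_nhds_zero]
        intro η hη
        filter_upwards [hW, Ultrafilter.eventually_not.2 fun h : ∀ᶠ x in (U : Filter X),
          ‖τ t x‖ ≤ η⁻¹ * ‖τ s x‖ => hst.2 ((hE t s).2
            ⟨⟨_, hK', hbd.mono fun x k => k s hst.1⟩, η⁻¹, by positivity, h⟩)] with x hx h1
        rw [norm_div, div_lt_iff₀ (h0 t x hx)]
        rwa [not_le, inv_mul_lt_iff₀ hη] at h1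
      simpa [f, hst, mul_div_assoc] using this.const_mul (c s)
    · simp [f, hst]
  · filter_upwards [hW, hbd] with x hx h s
    rw [norm_div, div_le_iff₀ (h0 t x hx), mul_assoc]
    exact fle (fun s => B s ∧ s ∉ E t) x s _ (fun k => h s k.1) (by positivity)

end VAN

theorem rowVan : VanS := by
  classical
  intro X F B m _ _ _ U W hW y w c hs hy hw hsm
  refine VAN.lead U hW (fun s x => y s.1 x * mon s.2 (w x)) c hs (fun s x hx => norm_pos_iff.2
    (mul_ne_zero (hy x hx _) (mon_ne fun i => (hw x hx i).1))) (fun E hE => ?_) fun S => ?_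
  · refine (Set.finite_iUnion fun b => (finite_class (Z := fun _ => False) le_rfl U w
      (mem_of_superset hW hw) (fun i _ => hsm i) 0 {a | (b, a) ∈ E} (fun _ _ _ h => h.elim)
      fun a ha a' ha' => (hE _ ha _ ha').imp fun K h => ?_).image (Prod.mk b)).subset
      fun s h => Set.mem_iUnion.2 ⟨s.1, s.2, h, rfl⟩
    filter_upwards [hW, h] with x hx h
    rw [norm_mul, norm_mul, mul_left_comm] at h
    exact le_of_mul_le_mul_left h (norm_pos_iff.2 (hy x hx b))
  · choose S₀ h1 h2 using fun b => H15.dickson Prod.snd {s ∈ S | s.1 = b}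
    refine ⟨univ.biUnion S₀, fun s h => ?_, fun s h => ?_⟩
    · obtain ⟨b, -, k⟩ := mem_biUnion.1 h
      exact (h1 b s k).1
    · obtain ⟨b, hb, k⟩ := h2 s.1 s ⟨h, rfl⟩
      obtain ⟨e, he⟩ := exists_add_of_le k
      refine ⟨b, mem_biUnion.2 ⟨_, mem_univ _, hb⟩, fun x hx => ?_⟩
      rw [(h1 _ b hb).2, he, mon_add, ← mul_assoc, norm_mul]
      exact mul_le_of_le_one_right (norm_nonneg _)
        (by simpa using norm_mon_le e (r := 1) fun i => (hw x hx i).2)

end Pool.Agent.MP_be2dd8_ag.H81
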