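import Pool.Agent.MP_be2dd8_ag.H81.Ind
import Pool.Agent.MP_be2dd8_ag.H81.BASE
import Pool.Agent.MP_be2dd8_ag.H81.BFIN
import Pool.Agent.MP_be2dd8_ag.H81.BLO
import Pool.Agent.MP_be2dd8_ag.H81.CTX
import Pool.Agent.MP_be2dd8_ag.H81.DOWN
import Pool.Agent.MP_be2dd8_ag.H81.EXP
import Pool.Agent.MP_be2dd8_ag.H81.GAP
import Pool.Agent.MP_be2dd8_ag.H81.JET
import Pool.Agent.MP_be2dd8_ag.H81.NF
import Pool.Agent.MP_be2dd8_ag.H81.NOE
import Pool.Agent.MP_be2dd8_ag.H81.ONEJ
import Pool.Agent.MP_be2dd8_ag.H81.PAR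
import Pool.Agent.MP_be2dd8_ag.H81.PLACE
import Pool.Agent.MP_be2dd8_ag.H81.STEP
import Pool.Agent.MP_be2dd8_ag.H81.TAME
import Pool.Agent.MP_be2dd8_ag.H81.UER
import Pool.Agent.MP_be2dd8_ag.H81.VAN

set_option autoImplicit false

/-! Return sets of split polynomial maps at transcendental starting points. -/

namespace Pool.Agent.MP_be2dd8_ag.H81

theorem allUni : UniS := (rowBase rowExp).2

theorem allDown : DownS := rowDown rowExp (rowUer rowPlace)

theorem allStep : StepS := rowStep rowExp allUni rowGap rowVan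

theorem allTame : TameS := rowTame (rowNoe (rowJet rowOneJ) rowNf)

theorem allInd : IndS :=
  ind rowExp (rowBase rowExp).1 rowPlace allDown allStep allTame (rowPar rowExp).2
    (rowBfin rowBlo).1 (rowBfin rowBlo).2

end Pool.Agent.MP_be2dd8_ag.H81
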