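import Pool.Agent.MP_be2dd8_ag.H81.Spec

set_option autoImplicit false

/-! The induction on the number of coordinates. -/

namespace Pool.Agent.MP_be2dd8_ag.H81

open Filter Topology Polynomial
open Pool.Agent.MP_be2dd8_ag.H53 Pool.Agent.MP_be2dd8_ag.H53.Gl Pool.Agent.MP_be2dd8_ag.H53D

/-- transcendence over the field generated by a set -/
def Tr {K : Type} [Field K] (S : Set K) (a : K) : Prop := Transcendental (Subfield.closure S) a

/-- the coefficients of the maps of rank at most that of `j` -/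
def Cf {J K : Type} [Field K] (f : J → K[X]) (ρ : J → ℕ) (j : J) : Set K :=
  {c | ∃ j' l, ρ j' ≤ ρ j ∧ c = (f j').coeff l}

def IndS : Prop :=
  ∀ (N : ℕ) (C : Ctx (Fin N → ℕ)), Std C → ∀ (J K : Type) [Fintype J] [Field K] [CharZero K]
    (f : J → K[X]) (a : J → K) (ix : J → Fin N) (ρ : J → ℕ), (∀ j, 1 < (f j).natDegree) →
    (∀ j, Tr (Cf f ρ j) (a j)) →
    (∀ j, Tendsto (fun n : Fin N → ℕ => n (ix j)) (C.U : Filter (Fin N → ℕ)) atTop) →
    RigE C fun j n => it (f j) (n (ix j)) (a j)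

namespace Ind

section

variable {K L : Type} [Field K] [Field L]

lemma tr_comap (φ : K →+* L) {S : Set K} {S' : Set L} {a : K} (h : Tr S' (φ a))
    (hS : φ '' S ⊆ S') : Tr S a := by
  have h1 : ∀ x : Subfield.closure S, φ x ∈ Subfield.closure S' := fun x =>
    Subfield.closure_mono hS (by rw [← RingHom.map_field_closure]; exact ⟨x, x.2, rfl⟩)
  exact Transcendental.of_ringHom_of_comp_eq
    ((φ.comp (Subfield.closure S).subtype).codRestrict (Subfield.closure S') h1) φ h
    (RingHom.injective _) rfl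

lemma tr_map (φ : K →+* L) {S : Set K} {S' : Set L} {a : K} (h : Tr S a) (hS : S' ⊆ φ '' S) :
    Tr S' (φ a) := by
  refine tr_comap (RingHom.id L) (S' := φ '' S) ?_ (by simpa using hS)
  have h1 : ∀ x : Subfield.closure S, φ x ∈ Subfield.closure (φ '' S) := fun x => by
    rw [← RingHom.map_field_closure]; exact ⟨x, x.2, rfl⟩
  refine Transcendental.ringHom_of_comp_eq
    ((φ.comp (Subfield.closure S).subtype).codRestrict (Subfield.closure (φ '' S)) h1) φ h ?_
    φ.injective rfl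
  rintro ⟨y, hy⟩
  rw [← RingHom.map_field_closure] at hy
  obtain ⟨x, hx, rfl⟩ := hy
  exact ⟨⟨x, hx⟩, rfl⟩

lemma lift_poly (k : Subfield K) (f : K[X]) (h : ∀ l, f.coeff l ∈ k) :
    ∃ g : k[X], g.map k.subtype = f :=
  (mem_lifts _).1 ((lifts_iff_coeff_lifts _).2 fun l => ⟨⟨_, h l⟩, rfl⟩)

lemma tr_orbit {S : Set K} {a : K} (h : Tr S a) {f : K[X]} (hf : 1 < f.natDegree)
    (hS : ∀ l, f.coeff l ∈ S) :
    (∀ n, it f n a ≠ 0) ∧ Function.Injective fun n => it f n a := by
  obtain ⟨g, rfl⟩ := lift_poly (Subfield.closure S) f fun l => Subfield.subset_closure (hS l)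
  rw [natDegree_map] at hf
  have h1 : ∀ n, it (g.map (Subfield.closure S).subtype) n a = aeval a (g.comp^[n] X) := by
    intro n
    induction n with
    | zero => simp [it]
    | succ n ih =>
      rw [Main.it_succ, Function.iterate_succ_apply', aeval_comp, ih, eval_map, aeval_def]
      rfl
  have h2 : ∀ n, (g.comp^[n] X).natDegree = g.natDegree ^ n := fun n => by
    rw [natDegree_iterate_comp, natDegree_X, mul_one]
  have h3 := transcendental_iff_injective.1 h
  refine ⟨fun n h0 => ?_, fun n m hnm => ?_⟩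
  · have h4 := h2 n
    rw [h3 (a₁ := g.comp^[n] X) (a₂ := 0) (by rw [← h1, h0, map_zero]), natDegree_zero] at h4
    exact absurd h4 (by positivity : 0 < g.natDegree ^ n).ne
  · have h4 := h2 n
    rw [h3 (a₁ := g.comp^[n] X) (a₂ := g.comp^[m] X) ((h1 n).symm.trans (hnm.trans (h1 m))),
      h2] at h4
    exact (Nat.pow_right_injective hf h4).symm

variable {X J : Type} {C : Ctx X}

lemma eval_map (φ : K →+* L) (y : J → K) (q : MvPolynomial J K) :
    MvPolynomial.eval (fun j => φ (y j)) (MvPolynomial.map φ q) = φ (MvPolynomial.eval y q) := by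
  induction q using MvPolynomial.induction_on with
  | C c => simp
  | add p q hp hq => simp only [map_add, hp, hq]
  | mul_X p i hp => simp only [map_mul, hp, MvPolynomial.map_X, MvPolynomial.eval_X]

lemma rig_of_map (hE : ExpS) (φ : K →+* L) {y : J → X → K} (h : RigE C fun j n => φ (y j n)) :
    RigE C y := by
  intro S _ q Y hY h0
  have e : ∀ n, ∑ s, MvPolynomial.eval (fun j => φ (y j n)) (MvPolynomial.map φ (q s)) *
      ((Units.map (φ : K →* L) (Y s n) : Lˣ) : L) =
      φ (∑ s, MvPolynomial.eval (fun j => y j n) (q s) * (Y s n : K)) := fun n => by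
    simp only [map_sum, map_mul, eval_map, Units.coe_map, MonoidHom.coe_coe]
  have := h S (fun s => MvPolynomial.map φ (q s)) (fun s n => Units.map (φ : K →* L) (Y s n))
    (fun s => (hE X Kˣ C).2.2.2.2.2.1 _ _ _ (hY s)) (h0.mono fun n hn => by rw [e, hn, map_zero])
  exact this.mono fun n hn => φ.injective (by rw [← e, hn, map_zero])

lemma rig_comp {J' : Type} (σ : J → J') {y : J' → X → K} (h : RigE C y) :
    RigE C fun j => y (σ j) := by
  intro S _ q Y hY h0
  have := h S (fun s => MvPolynomial.rename σ (q s)) Y hY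
  simp only [MvPolynomial.eval_rename] at this
  exact this h0

lemma rig_of_fin {y : J → X → K} (h : ∀ S : Finset K, ∃ (K1 : Type) (_ : Field K1)
    (i : K1 →+* K) (y1 : J → X → K1), (∀ z ∈ S, z ∈ i.range) ∧ (∀ j n, i (y1 j n) = y j n) ∧
      RigE C y1) : RigE C y := by
  classical
  intro S _ q Y hY h0
  choose B _ g m hm hg using hY
  obtain ⟨K1, _, i, y1, hS, hy, h1⟩ := h (Finset.univ.biUnion fun s =>
    (q s).coeffs ∪ Finset.univ.image fun b => (g s b : K))
  have hq : ∀ s, ∃ q1 : MvPolynomial J K1, MvPolynomial.map i q1 = q s := fun s =>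
    MvPolynomial.mem_range_map_iff_coeffs_subset.2 fun c hc => hS c
      (Finset.mem_biUnion.2 ⟨s, Finset.mem_univ _, Finset.mem_union_left _ hc⟩)
  have hg1 : ∀ s b, ∃ g1 : K1ˣ, Units.map (i : K1 →* K) g1 = g s b := fun s b => by
    obtain ⟨z, hz⟩ := hS (g s b) (Finset.mem_biUnion.2 ⟨s, Finset.mem_univ _,
      Finset.mem_union_right _ (Finset.mem_image.2 ⟨b, Finset.mem_univ _, rfl⟩)⟩)
    exact ⟨Units.mk0 z (fun h => (g s b).ne_zero (by rw [← hz, h, map_zero])), Units.ext hz⟩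
  choose q1 hq1 using hq
  choose g1 hg1 using hg1
  have e : ∀ᶠ n in C.c, i (∑ s, MvPolynomial.eval (fun j => y1 j n) (q1 s) *
      ((∏ b, g1 s b ^ m s b n : K1ˣ) : K1)) =
      ∑ s, MvPolynomial.eval (fun j => y j n) (q s) * (Y s n : K) := by
    filter_upwards [eventually_all.2 hg] with n hn
    rw [map_sum]
    refine Finset.sum_congr rfl fun s _ => ?_
    rw [map_mul, ← eval_map, hq1, hn s]
    simp only [hy, ← hg1, ← map_zpow, ← map_prod, Units.coe_map, MonoidHom.coe_coe]
  have := h1 S q1 (fun s n => ∏ b, g1 s b ^ m s b n)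
    (fun s => ⟨B s, inferInstance, g1 s, m s, hm s, Eventually.of_forall fun _ => rfl⟩) (by
      filter_upwards [h0, e.filter_mono C.le] with n h2 h3
      exact i.injective (by rw [h3, h2, map_zero]))
  filter_upwards [this, e] with n h2 h3
  rw [← h3, h2, map_zero]

end

lemma residue {κ : Type} [Field κ] {a : LS κ} (h : ‖a‖ ≤ 1) : ‖a - cs κ (co a 0)‖ < 1 := by
  have h1 := (nm_lt_iff (k := κ) a (-1)).1 (h.trans_lt (by norm_num))
  have h2 := (nm_lt_iff (k := κ) (a - cs κ (co a 0)) 0).2 fun j hj => by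
    refine (HahnSeries.coeff_sub (Γ := ℤ) (R := κ)).trans (sub_eq_zero.2 ?_)
    change _ = (HahnSeries.single (0 : ℤ) (co a 0)).coeff j
    rcases hj.eq_or_lt with rfl | hj
    · rw [HahnSeries.coeff_single_same]; rfl
    · rw [HahnSeries.coeff_single_of_ne hj.ne, h1 j (by omega)]
  rw [neg_zero, zpow_zero] at h2
  exact h2

lemma charZero_LS (κ : Type) [Field κ] [CharZero κ] : CharZero (LS κ) :=
  charZero_of_injective_ringHom (cs κ).injective

lemma der_le {κ : Type} [Field κ] (x : LS κ) : ‖der x‖ ≤ 1 * ‖x‖ := by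
  rw [one_mul]
  exact nm_le_of (eul_supp x)

end Ind

open Ind

/-- one place eliminates the coordinates that are meromorphic in a small parameter -/
theorem place_step (hD : DownS) (hS : StepS) (hT : TameS) (hP : ParS) (hI : BinfS) (hF : BfinS)
    {N : ℕ} {C : Ctx (Fin N → ℕ)} (hC : Std C) {J K κ : Type} [Fintype J] [Field K] [Field κ]
    [CharZero κ] (ι : K →+* LS κ) (x : J → ℕ → K) (ix : J → Fin N)
    (hix : ∀ j, Tendsto (fun n : Fin N → ℕ => n (ix j)) (C.U : Filter (Fin N → ℕ)) atTop)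
    (Q : J → Prop) (hQ : ∀ j, ¬ Q j → Par2 fun n => ι (x j n))
    (hx : ∀ j, Q j → (∀ n, x j n ≠ 0) ∧ Function.Injective (x j) ∧ ∃ f : κ[X], 1 < f.natDegree ∧
      ∀ n, ι (x j n) = it (f.map (cs κ)) n (ι (x j 0)))
    (ih : ∀ (K' : Type) [Field K'] (i : K →+* K') (P : J → Prop),
      (∀ j, P j → Q j ∧ ‖ι (x j 0)‖ ≤ 1) →
      RigE C fun (j : {j // P j}) n => i (x j (n (ix j)))) :
    RigE C fun j n => ι (x j (n (ix j))) := by
  classical
  have := charZero_LS κ
  obtain ⟨M, hM⟩ : ∃ M : J → Prop, ∀ j, M j ↔ Mer C fun n => ι (x j (n (ix j))) :=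
    ⟨_, fun _ => Iff.rfl⟩
  have hP' : ∀ j, Par2 (fun n => ι (x j n)) → M j := fun j h =>
    (hM j).2 (hP N C hC (LS κ) (fun n => ι (x j n)) (ix j) (hix j) h)
  have hQ' : ∀ j, ¬ M j → Q j := fun j h => by
    by_contra h1
    exact h (hP' j (hQ j h1))
  choose h0 hinj f hf hfx using fun j : {j // ¬ M j} => hx j (hQ' j j.2)
  have h1 : ∀ j : {j // ¬ M j}, ‖ι (x j 0)‖ ≤ 1 := fun j => by
    by_contra h
    refine j.2 (hP' j ?_)
    rw [funext (hfx j)]
    exact hI κ (f j) _ (hf j) (not_le.1 h)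
  have h2 : ∀ j : {j // ¬ M j}, ∀ᶠ n in atTop,
      (f j).derivative.eval (it (f j) n (co (ι (x j 0)) 0)) ≠ 0 := fun j => by
    by_contra h
    refine j.2 (hP' j ?_)
    rw [funext (hfx j)]
    refine hF κ (f j) _ _ (hf j) (residue (h1 j))
      ((not_eventually.1 h).mono fun n hn => not_not.1 hn) ?_
    rw [← funext (hfx j)]
    exact Set.infinite_range_of_injective (ι.injective.comp (hinj j))
  let _ : Algebra K (LS κ) := ι.toAlgebra
  have h3 : RigE C fun (j : {j // ¬ M j}) n => ι (x j (n (ix j))) :=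
    hD _ _ (algebraicClosure K (LS κ)) (LS κ) (fun z hz => ⟨⟨z,
      mem_algebraicClosure_iff.2 (hz.restrictScalars K)⟩, rfl⟩) C
      (fun (j : {j // ¬ M j}) n => algebraMap K (algebraicClosure K (LS κ)) (x j (n (ix j))))
      (ih _ (algebraMap K (algebraicClosure K (LS κ))) (fun j => ¬ M j) fun j hj =>
        ⟨hQ' j hj, h1 ⟨j, hj⟩⟩)
  let e := Fintype.equivFin {j // M j}
  have h4 := hS _ (LS κ) {j // ¬ M j} _ der 1 der_le (fun x hx => nm_le_one hx) C
    (fun i n => ι (x (e.symm i) (n (ix (e.symm i))))) (fun j n => ι (x j (n (ix j))))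
    (fun i => (hM _).1 (e.symm i).2) (fun j n => (map_ne_zero ι).2 (h0 j _)) (fun B _ φ hφ => by
      obtain ⟨E, e1, e2, e3⟩ := hT κ {j // ¬ M j} B N C hC f (fun j => ι (x j 0)) _
        (fun j => ix j) φ (fun j => zero_lt_one.trans (hf j)) (fun j => residue (h1 j)) h2 hφ
      refine ⟨E, e1, fun j => ?_, e3⟩
      rw [funext fun n : Fin N → ℕ => hfx j (n (ix j))]
      exact e2 j) h3
  have h5 := rig_comp (fun j => if h : M j then Sum.inl (e ⟨j, h⟩) else Sum.inr ⟨j, h⟩) h4
  refine cast (congrArg (RigE C) (funext fun j => ?_)) h5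
  by_cases h : M j
  · simp only [dif_pos h, Sum.elim_inl, Equiv.symm_apply_apply]
  · simp only [dif_neg h, Sum.elim_inr]

theorem ind (hE : ExpS) (hB : BaseS) (hL : PlaceS) (hD : DownS) (hS : StepS) (hT : TameS)
    (hP : ParS) (hI : BinfS) (hF : BfinS) : IndS := by
  intro N C hC J K _ _ _ f a ix ρ
  induction hn : Fintype.card J using Nat.strong_induction_on generalizing J K with
  | _ n ih =>
  classical
  intro hf ha hix
  rcases isEmpty_or_nonempty J with hJ | hJ
  · exact hB _ _ _ C _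
  obtain ⟨j0, hj0⟩ := Finite.exists_max ρ
  have hc : ∀ j l, (f j).coeff l ∈ Cf f ρ j := fun j l => ⟨j, l, le_rfl, rfl⟩
  set k := Subfield.closure (Cf f ρ j0) with hk
  choose g hg using fun j => lift_poly k (f j) fun l => Subfield.subset_closure ⟨j, l, hj0 j, rfl⟩
  refine rig_of_fin fun S => ?_
  set K1 := IntermediateField.adjoin k ((S ∪ Finset.univ.image a : Finset K) : Set K) with hK1
  have hmem : ∀ j, a j ∈ K1 := fun j => IntermediateField.subset_adjoin _ _ (by simp)
  let a1 : J → K1 := fun j => ⟨a j, hmem j⟩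
  let f1 : J → K1[X] := fun j => (g j).map (algebraMap k K1)
  have hf1 : ∀ j, (f1 j).map (algebraMap K1 K) = f j := fun j => by
    rw [← hg, Polynomial.map_map]
    rfl
  have hit : ∀ j n, algebraMap K1 K (it (f1 j) n (a1 j)) = it (f j) n (a j) := fun j n => by
    rw [Main.it_map, hf1]
    rfl
  have ha1 : ∀ j, Tr (Cf f1 ρ j) (a1 j) := fun j => tr_comap (algebraMap K1 K) (ha j) (by
    rintro _ ⟨_, ⟨j', l, h, rfl⟩, rfl⟩
    exact ⟨j', l, h, by rw [← hf1]; exact (coeff_map _ _).symm⟩)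
  obtain ⟨κ, _, _, φ, ι, h1, h2⟩ := hL k K _ (a1 j0) (ha j0)
  refine ⟨K1, inferInstance, algebraMap K1 K, fun j n => it (f1 j) (n (ix j)) (a1 j),
    fun z hz => ⟨⟨z, IntermediateField.subset_adjoin _ _ (by simp [hz])⟩, rfl⟩,
    fun j n => hit j _, rig_of_map hE ι ?_⟩
  refine place_step hD hS hT hP hI hF hC ι (fun j n => it (f1 j) n (a1 j)) ix hix (fun _ => True)
    (fun j h => absurd trivial h) (fun j _ => ?_) fun K' _ i P hP => ?_
  · obtain ⟨h3, h4⟩ := tr_orbit (ha j) (hf j) (hc j)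
    refine ⟨fun n h => h3 n (by rw [← hit, h, map_zero]), fun n m h => h4 ?_, (g j).map φ, ?_,
      fun n => ?_⟩
    · simp only [← hit]
      exact congrArg _ h
    · rw [natDegree_map, ← natDegree_map k.subtype, hg]
      exact hf j
    · rw [Main.it_map, Polynomial.map_map, Polynomial.map_map]
      congr 2
      exact RingHom.ext h2
  · have : CharZero K' := charZero_of_injective_ringHom i.injective
    simp only [Main.it_map]
    refine ih _ ?_ {j // P j} K' (fun j => (f1 j).map i) (fun j => i (a1 j)) (fun j => ix j)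
      (fun j => ρ j) rfl (fun j => ?_) (fun j => tr_map i (ha1 j) ?_) fun j => hix j
    · rw [← hn]
      exact Fintype.card_subtype_lt (x := j0) fun h => absurd (hP j0 h).2 (not_le.2 h1)
    · rw [natDegree_map, ← natDegree_map (algebraMap K1 K), hf1]
      exact hf j
    · rintro _ ⟨j', l, h, rfl⟩
      exact ⟨_, ⟨j', l, h, rfl⟩, (coeff_map _ _).symm⟩

lemma eval_aeval {σ τ K : Type} [Field K] (z : τ → K) (p : σ → MvPolynomial τ K)
    (q : MvPolynomial σ K) : MvPolynomial.eval z (MvPolynomial.aeval p q) =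
      MvPolynomial.eval (fun i => MvPolynomial.eval z (p i)) q := by
  induction q using MvPolynomial.induction_on with
  | C c => simp
  | add p q hp hq => simp only [map_add, hp, hq]
  | mul_X p i hp => simp only [map_mul, hp, MvPolynomial.aeval_X, MvPolynomial.eval_X]

theorem main_of (hE : ExpS) (hU : UniS) (hC : CtxS) (hS : SeqS) (hI : IndS) {N : ℕ} {K : Type}
    [Field K] [CharZero K] (f : Fin N → K[X]) (x : Fin N → ℕ → K) (k : Fin N → Subfield K)
    (hx : ∀ i n, x i n = it (f i) n (x i 0)) (hf : ∀ i, 1 < (f i).natDegree)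
    (hk : ∀ i j, k i ≤ k j ∨ k j ≤ k i)
    (h : ∀ i, (Set.range (x i)).Finite ∨
      ((∀ l, (f i).coeff l ∈ k i) ∧ Transcendental (k i) (x i 0)) ∨
      ∃ (b c d β : K) (u : ℕ → K), ∀ n, u n ≠ 0 ∧ u (n + 1) = β * u n ^ (f i).natDegree ∧
        x i n = b * u n + c + d / u n)
    (T : Set (MvPolynomial (Fin N) K)) :
    ∃ (m : ℕ) (γ : Fin m → Fin N → ℕ) (H : Fin m → AddSubgroup (Fin N → ℤ)),
      {n : Fin N → ℕ | ∀ q ∈ T, MvPolynomial.eval (fun i => x i (n i)) q = 0}
        = {n : Fin N → ℕ | ∃ j : Fin m, n ∈ Co (γ j) (H j)} := by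
  classical
  suffices key : ∀ U : Ultrafilter (Fin N → ℕ),
      {n : Fin N → ℕ | ∀ q ∈ T, MvPolynomial.eval (fun i => x i (n i)) q = 0} ∈ U →
      ∃ j : (Fin N → ℕ) × AddSubgroup (Fin N → ℤ), Co j.1 j.2 ⊆
        {n : Fin N → ℕ | ∀ q ∈ T, MvPolynomial.eval (fun i => x i (n i)) q = 0} ∧
        Co j.1 j.2 ∈ U by
    obtain ⟨m, j, hj⟩ := H15.cover _ _ key
    exact ⟨m, fun i => (j i).1, fun i => (j i).2, hj⟩
  intro U hT
  obtain ⟨C, rfl, hC⟩ := hC N U
  let P : Fin N → Prop := fun i =>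
    Tendsto (fun n : Fin N → ℕ => n i) (C.U : Filter (Fin N → ℕ)) atTop ∧
      (∀ l, (f i).coeff l ∈ k i) ∧ Transcendental (k i) (x i 0)
  have h1 := hI N C hC {i // P i} K (fun j => f j) (fun j => x j 0) (fun j => j)
    (fun j => (Finset.univ.filter fun i => k i ≤ k j).card) (fun j => hf j) (fun j => by
      refine tr_comap (RingHom.id K) (S' := k j) ?_ ?_
      · rw [Tr, Subfield.closure_eq]
        exact j.2.2.2
      · rintro _ ⟨_, ⟨j', l, h2, rfl⟩, rfl⟩
        refine (?_ : k j' ≤ k j) (j'.2.2.1 l)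
        by_contra h3
        refine absurd h2 (not_le.2 (Finset.card_lt_card ⟨fun i hi => ?_, fun hi => h3 ?_⟩))
        · exact Finset.mem_filter.2 ⟨Finset.mem_univ _,
            (Finset.mem_filter.1 hi).2.trans ((hk j' j).resolve_left h3)⟩
        · exact (Finset.mem_filter.1 (hi (Finset.mem_filter.2 ⟨Finset.mem_univ _, le_rfl⟩))).2)
    fun j => j.2.1
  have h2 : ∀ i, ∃ (v : (Fin N → ℕ) → Kˣ) (b c d : K), ExpT C v ∧ (¬ P i →
      ∀ᶠ n in C.c, x i (n i) = b * v n + c + d * ((v n ^ (-1 : ℤ) : Kˣ) : K)) := by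
    intro i
    have h3 : ∀ c, (∀ᶠ n in C.c, x i (n i) = c) → ∃ (v : (Fin N → ℕ) → Kˣ) (b c d : K),
        ExpT C v ∧ (¬ P i →
          ∀ᶠ n in C.c, x i (n i) = b * v n + c + d * ((v n ^ (-1 : ℤ) : Kˣ) : K)) :=
      fun c hc => ⟨fun _ => 1, 0, c, 0, (hE _ _ C).1 1, fun _ => by simpa using hc⟩
    by_cases h4 : ∃ b, ∀ᶠ n in (C.U : Filter (Fin N → ℕ)), n i = b
    · obtain ⟨b, hb⟩ := h4
      exact h3 (x i b) ((hC.cst i b hb).mono fun n hn => by rw [hn])
    have h5 := H15.tendsto_of_not_const C.U _ h4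
    rcases h i with hi | hi | ⟨b, c, d, β, u, hi⟩
    · obtain ⟨M, p, hp, hper⟩ := H15.periodic_of_finite (x i) (fun z => (f i).eval z) 0
        (fun n _ => by rw [hx, hx i n, Main.it_succ]) hi fun n _ => ⟨n, rfl⟩
      obtain ⟨r, hr⟩ := hC.mod i p hp
      refine h3 (x i (r + p * M)) ?_
      filter_upwards [hr, (hC.big i h5).eventually (eventually_ge_atTop (r + p * M))] with n h6 h7
      have h8 := Nat.mod_add_div (n i) p
      have h9 : M ≤ n i / p := by
        by_contra h9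
        have := Nat.mul_lt_mul_of_pos_left (not_le.1 h9) hp
        omega
      obtain ⟨t, ht⟩ := Nat.exists_eq_add_of_le h9
      rw [← H15.per_mul hper (n := r + p * M) (by nlinarith) t, ← h8, h6, ht]
      congr 1
      ring
    · exact ⟨fun _ => 1, 0, 0, 0, (hE _ _ C).1 1, fun h6 => absurd ⟨h5, hi⟩ h6⟩
    · have hβ : β ≠ 0 := fun h6 => (hi 1).1 (by rw [(hi 0).2.1, h6, zero_mul])
      refine ⟨fun n => Units.mk0 (u (n i)) (hi _).1, b, c, d, hS N C hC Kˣ
        (fun n => Units.mk0 (u n) (hi n).1) (fun _ => Units.mk0 β hβ) (fun _ => (f i).natDegree)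
        0 1 i one_pos h5 fun n _ => ⟨hf i, Units.ext (by simpa using (hi n).2.1), rfl, rfl⟩,
        fun _ => Eventually.of_forall fun n => ?_⟩
      rw [(hi _).2.2, div_eq_mul_inv]
      simp
  choose v b c d hv hvx using h2
  obtain ⟨W, hW, h3⟩ := hU _ _ (Fin N ⊕ Fin N) K C _
    (Sum.elim v fun i n => v i n ^ (-1 : ℤ)) h1 (by
      rintro (i | i)
      · exact hv i
      · exact (hE _ _ C).2.2.1 _ _ (hv i))
  let p : Fin N → MvPolynomial ({i // P i} ⊕ (Fin N ⊕ Fin N)) K := fun i =>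
    if h : P i then MvPolynomial.X (Sum.inl ⟨i, h⟩) else
      MvPolynomial.C (b i) * MvPolynomial.X (Sum.inr (Sum.inl i)) + MvPolynomial.C (c i) +
        MvPolynomial.C (d i) * MvPolynomial.X (Sum.inr (Sum.inr i))
  have h4 : ∀ᶠ n in C.c, ∀ q : MvPolynomial (Fin N) K, MvPolynomial.eval
      (Sum.elim (fun j : {i // P i} => it (f j) (n j) (x j 0))
        fun a => ((Sum.elim v (fun i n => v i n ^ (-1 : ℤ)) a n : Kˣ) : K))
      (MvPolynomial.aeval p q) = MvPolynomial.eval (fun i => x i (n i)) q := by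
    filter_upwards [eventually_all.2 fun i => eventually_imp_distrib_left.2 (hvx i)] with n hn q
    rw [eval_aeval]
    congr 2
    funext i
    by_cases hi : P i
    · simp only [p, dif_pos hi, MvPolynomial.eval_X, Sum.elim_inl]
      exact (hx i _).symm
    · simp only [p, dif_neg hi, map_add, map_mul, MvPolynomial.eval_X, MvPolynomial.eval_C,
        Sum.elim_inr, Sum.elim_inl]
      exact (hn i hi).symm
  obtain ⟨γ, H, h5, h6⟩ := hC.co _ (inter_mem hW h4)
  refine ⟨(γ, H), fun n hn q hq => ?_, h5⟩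
  rw [← (h6 hn).2 q]
  refine h3 _ ?_ n (h6 hn).1
  filter_upwards [hT, h4.filter_mono C.le] with n h7 h8
  rw [h8 q, h7 q hq]

end Pool.Agent.MP_be2dd8_ag.H81
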