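import Pool.Agent.MP_be2dd8_ag.H81.Spec

set_option autoImplicit false

namespace Pool.Agent.MP_be2dd8_ag.H81

open Filter Topology

namespace PAR

lemma start {N : ℕ} {C : Ctx (Fin N → ℕ)} (hS : Std C) (i : Fin N) {p : ℕ} (hp : 0 < p) (M : ℕ)
    (ht : Tendsto (fun n : Fin N → ℕ => n i) (C.U : Filter (Fin N → ℕ)) atTop) :
    ∃ n0, M ≤ n0 ∧ ∀ᶠ n in C.c, n0 / p ≤ n i / p ∧ n i = n0 + p * (n i / p - n0 / p) := by
  obtain ⟨r, hr⟩ := hS.mod i p hp
  obtain ⟨n, h1, h2⟩ := ((ht.eventually_ge_atTop M).and (C.le hr)).exists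
  refine ⟨n i, h1, ?_⟩
  filter_upwards [hr, (hS.big i ht).eventually_ge_atTop (n i)] with m a b
  have k := Nat.div_le_div_right (c := p) b
  refine ⟨k, ?_⟩
  have k1 := Nat.div_add_mod (m i) p
  have k2 := Nat.div_add_mod (n i) p
  have k3 := Nat.mul_le_mul_left p k
  have h2' : n i % p = r := h2
  rw [Nat.mul_sub]
  omega

lemma per {A : Type} {f : ℕ → A} {M p n0 : ℕ} (h : ∀ n, M ≤ n → f (n + p) = f n) (h0 : M ≤ n0)
    (m : ℕ) : f (n0 + p * m) = f n0 := by
  induction m with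
  | zero => simp
  | succ m ih => rw [Nat.mul_succ, ← add_assoc, h _ (by omega), ih]

lemma seq : SeqS := by
  intro N C hS G _ w β e M p i hp ht h
  obtain ⟨n0, h0, hc⟩ := start hS i hp M ht
  have h2 : 2 ≤ e n0 := (h n0 h0).1
  have key : ∀ m, w (n0 + p * m) = β n0 ^ (∑ t ∈ Finset.range m, e n0 ^ t) * w n0 ^ e n0 ^ m := by
    intro m
    induction m with
    | zero => simp
    | succ m ih =>
      rw [Nat.mul_succ, ← add_assoc, (h _ (by omega)).2.1, ih,
        per (fun n a => (h n a).2.2.1) h0, per (fun n a => (h n a).2.2.2) h0, geom_sum_succ,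
        mul_pow, ← pow_mul, ← pow_mul, pow_succ', pow_succ, mul_comm (e n0), mul_assoc]
  have e0 : (e n0 : ℚ) ≠ 0 := by positivity
  have e1 : (e n0 : ℚ) - 1 ≠ 0 := by
    have : (2 : ℚ) ≤ e n0 := by exact_mod_cast h2
    linarith
  have l1 : (fun n : Fin N → ℕ => (e n0 : ℚ) ^ (n i / p - n0 / p)) ∈ C.L :=
    C.congr _ (C.L.smul_mem ((e n0 : ℚ) ^ (n0 / p))⁻¹ (hS.pow i p _ hp h2)) _
      (hc.mono fun n a => by simp [pow_sub₀ _ e0 a.1, mul_comm])
  refine ⟨Bool, inferInstance, fun b => cond b (β n0) (w n0), fun b n => cond b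
    ((∑ t ∈ Finset.range (n i / p - n0 / p), e n0 ^ t : ℕ) : ℤ)
    ((e n0 ^ (n i / p - n0 / p) : ℕ) : ℤ), ?_, hc.mono fun n a => ?_⟩
  · rintro (_ | _)
    · simpa using l1
    · refine C.congr _ (C.L.smul_mem ((e n0 : ℚ) - 1)⁻¹ (C.L.sub_mem l1 C.one)) _
        (Eventually.of_forall fun n => ?_)
      simp only [cond_true, Nat.cast_sum, Nat.cast_pow, Pi.smul_apply,
        Pi.sub_apply, smul_eq_mul]
      rw [← mul_geom_sum, inv_mul_cancel_left₀ e1]
      push_cast
      rfl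
  · simp only [Fintype.prod_bool, cond_true, cond_false, zpow_natCast]
    rw [← key, ← a.2]

open Classical in
/-- the unit attached to a nonzero element -/
noncomputable def un {F : Type} [Field F] (z : F) : Fˣ := if h : z = 0 then 1 else Units.mk0 z h

lemma un_val {F : Type} [Field F] {z : F} (h : z ≠ 0) : (un z : F) = z := by simp [un, h]

end PAR

open PAR in
theorem rowPar : OfPar := by
  refine fun hE => ⟨seq, ?_⟩
  rintro N C hS F _ x i ht ⟨w, β, c, e, R, M, p, hp, hw, h⟩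
  obtain ⟨n1, h1, hc⟩ := start hS i hp M ht
  obtain ⟨-, w0, w1, -, -, -, -, c1, -⟩ := h n1 h1
  have hb := hS.big i ht
  have e1 := seq N C hS Fˣ (fun n => un (w n)) (fun n => un (β n)) e M p i hp ht fun n a => by
    obtain ⟨a1, a2, -, a4, a5, a6, -⟩ := h n a
    have b2 := (h (n + p) (by omega)).2.1
    have b3 : β n ≠ 0 := left_ne_zero_of_mul (a4 ▸ b2)
    refine ⟨a1, Units.ext ?_, by rw [a5], a6⟩
    rw [Units.val_mul, Units.val_pow_eq_pow_val, un_val b2, un_val b3, un_val a2, a4]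
  have hv : ∀ n : Fin N → ℕ, M ≤ n i →
      ((un (w (n i)) * (un (w n1))⁻¹ : Fˣ) : F) = w (n i) * (w n1)⁻¹ := fun n a => by
    rw [Units.val_mul, Units.val_inv_eq_inv_val, un_val (h _ a).2.1, un_val w0]
  refine ⟨fun n => un (w (n i)) * (un (w n1))⁻¹, fun k => c n1 k * w n1 ^ k * (w n1)⁻¹,
    (hE _ _ C).2.1 _ _ e1 ((hE _ _ C).1 _), ?_, ?_, ?_⟩
  · refine Summable.of_nonneg_of_le (fun _ => norm_nonneg _) (fun k => ?_)
      (((summable_geometric_of_lt_one (norm_nonneg _) w1).mul_left R).mul_right ‖(w n1)⁻¹‖)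
    rw [norm_mul, norm_mul, norm_pow]
    gcongr
    exact c1 k
  · have := (hw.comp ht).mul_const (w n1)⁻¹
    rw [zero_mul] at this
    exact this.congr' ((ht.eventually_ge_atTop M).mono fun n a => (hv n a).symm)
  · have := (hw.comp hb).norm.eventually_le_const (u := ‖w n1‖) (by simpa using w0)
    filter_upwards [hc, hb.eventually_ge_atTop M, this] with n a b d
    rw [hv n b]
    refine ⟨?_, ?_⟩
    · rw [norm_mul, norm_inv, ← div_eq_mul_inv]
      exact div_le_one_of_le₀ d (norm_nonneg _)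
    · have k := (h _ b).2.2.2.2.2.2.2.2.mul_right (w n1)⁻¹
      have k2 : c (n i) = c n1 := by
        rw [a.2]
        exact per (fun n a => (h n a).2.2.2.2.2.2.1) h1 _
      rw [k2, mul_assoc] at k
      refine k.congr_fun fun j => ?_
      rw [mul_pow, inv_pow]
      field_simp

end Pool.Agent.MP_be2dd8_ag.H81
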