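import Pool.Agent.MP_be2dd8_ag.H53.Final
import Pool.Agent.MP_be2dd8_ag.H53D.All

set_option autoImplicit false

/-!
Interface: return sets of split polynomial maps at transcendental starting points.

An ultrafilter `U` on the exponent tuples is compared with the coarser filter `c` of the cosets
that belong to `U`. A family of sequences is rigid when every polynomial relation (with
coefficients of exponential type) that holds along `U` holds along `c`. The coordinates are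
eliminated one place at a time.
-/

namespace Pool.Agent.MP_be2dd8_ag.H81

open Filter Topology Polynomial
open Pool.Agent.MP_be2dd8_ag.H53 Pool.Agent.MP_be2dd8_ag.H53.Gl Pool.Agent.MP_be2dd8_ag.H53D

/-- an ultrafilter, a coarser filter and a space of rigid rational functions -/
structure Ctx (X : Type) where
  U : Ultrafilter X
  c : Filter X
  L : Submodule ℚ (X → ℚ)
  le : (U : Filter X) ≤ c
  one : (fun _ => 1) ∈ L
  congr : ∀ φ ∈ L, ∀ ψ : X → ℚ, (∀ᶠ x in c, ψ x = φ x) → ψ ∈ L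
  r1 : ∀ φ ∈ L, (∀ᶠ x in (U : Filter X), φ x = 0) → ∀ᶠ x in c, φ x = 0
  r2 : ∀ m : X → ℤ, (fun x => (m x : ℚ)) ∈ L → ∀ τ : ℕ, 0 < τ →
    ∃ r : ℤ, ∀ᶠ x in c, (τ : ℤ) ∣ m x - r

/-- group valued functions of exponential type -/
def ExpT {X G : Type} [CommGroup G] (C : Ctx X) (u : X → G) : Prop :=
  ∃ (B : Type) (_ : Fintype B) (g : B → G) (m : B → X → ℤ),
    (∀ b, (fun x => (m b x : ℚ)) ∈ C.L) ∧ ∀ᶠ x in C.c, u x = ∏ b, g b ^ m b x

/-- rigid families -/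
def RigE {X J K : Type} [Field K] (C : Ctx X) (y : J → X → K) : Prop :=
  ∀ (S : Type) [Fintype S] (q : S → MvPolynomial J K) (Y : S → X → Kˣ), (∀ s, ExpT C (Y s)) →
    (∀ᶠ n in (C.U : Filter X), ∑ s, MvPolynomial.eval (fun j => y j n) (q s) * (Y s n : K) = 0) →
    ∀ᶠ n in C.c, ∑ s, MvPolynomial.eval (fun j => y j n) (q s) * (Y s n : K) = 0

/-- the calculus of functions of exponential type -/
def ExpS : Prop :=
  ∀ (X G : Type) [CommGroup G] (C : Ctx X),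
    (∀ g : G, ExpT C fun _ => g) ∧
    (∀ u v : X → G, ExpT C u → ExpT C v → ExpT C fun x => u x * v x) ∧
    (∀ (u : X → G) (k : ℤ), ExpT C u → ExpT C fun x => u x ^ k) ∧
    (∀ (A : Type) (T : Finset A) (u : A → X → G), (∀ a ∈ T, ExpT C (u a)) →
      ExpT C fun x => ∏ a ∈ T, u a x) ∧
    (∀ u v : X → G, ExpT C u → (∀ᶠ x in C.c, v x = u x) → ExpT C v) ∧
    (∀ (G' : Type) [CommGroup G'] (j : G →* G') (u : X → G), ExpT C u →
      ExpT C fun x => j (u x)) ∧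
    (∀ (A : Type) [Fintype A] (u : A → X → G), (∀ a, ExpT C (u a)) →
      ∃ Γ : Subgroup G, Γ.FG ∧ ∀ᶠ x in C.c, ∀ a, u a x ∈ Γ) ∧
    (∀ (u : X → G) (H : Subgroup G), ExpT C u → (∀ᶠ x in (C.U : Filter X), u x ∈ H) →
      ∀ᶠ x in C.c, u x ∈ H) ∧
    ∀ (G' : Type) [CommGroup G'] (j : G' →* G) (u : X → G), Function.Injective j → ExpT C u →
      (∀ᶠ x in C.c, u x ∈ j.range) → ∃ u' : X → G', ExpT C u' ∧ ∀ᶠ x in C.c, j (u' x) = u x

/-- the empty family is rigid -/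
def BaseS : Prop :=
  ∀ (X J K : Type) [Field K] [CharZero K] [IsEmpty J] (C : Ctx X) (y : J → X → K), RigE C y

/-- one set for all relations -/
def UniS : Prop :=
  ∀ (X J A K : Type) [Field K] [Fintype J] [Fintype A] (C : Ctx X) (y : J → X → K)
    (u : A → X → Kˣ), RigE C y → (∀ a, ExpT C (u a)) →
    ∃ W ∈ C.c, ∀ q : MvPolynomial (J ⊕ A) K,
      (∀ᶠ n in (C.U : Filter X),
        MvPolynomial.eval (Sum.elim (fun j => y j n) fun a => (u a n : K)) q = 0) →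
      ∀ n ∈ W, MvPolynomial.eval (Sum.elim (fun j => y j n) fun a => (u a n : K)) q = 0

/-- constant Laurent series -/
noncomputable def cs (κ : Type) [Field κ] : κ →+* LS κ := HahnSeries.C

/-- a transcendental element of a finitely generated field has a pole -/
def PlaceS : Prop :=
  ∀ (k K : Type) [Field k] [CharZero k] [Field K] [Algebra k K] (S : Finset K)
    (g : IntermediateField.adjoin k (S : Set K)), Transcendental k (g : K) →
    ∃ (κ : Type) (_ : Field κ) (_ : CharZero κ) (φ : k →+* κ)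
      (ι : IntermediateField.adjoin k (S : Set K) →+* LS κ), 1 < ‖ι g‖ ∧
      ∀ c : k, ι (algebraMap k _ c) = cs κ (φ c)

/-- unit equations with moving coefficients from a relatively algebraically closed subfield -/
def UerS : Prop :=
  ∀ (k F X A : Type) [Field k] [CharZero k] [Field F] [Algebra k F] [Fintype A],
    (∀ z : F, IsAlgebraic k z → z ∈ (algebraMap k F).range) →
    ∀ (Γ : Subgroup Fˣ) (E : Submodule k F), Γ.FG → E.FG →
    ∀ (U : Ultrafilter X) (Y : A → X → Fˣ) (e : A → X → F),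
      (∀ᶠ x in (U : Filter X), ∀ a, Y a x ∈ Γ ∧ e a x ∈ E) →
      (∀ a b, a ≠ b → ∀ t : F,
        ¬ ∀ᶠ x in (U : Filter X), ∃ z : k, (Y a x : F) = algebraMap k F z * t * Y b x) →
      (∀ᶠ x in (U : Filter X), ∑ a, e a x * (Y a x : F) = 0) →
      ∀ a, ∀ᶠ x in (U : Filter X), e a x = 0

/-- rigidity passes to a regular extension -/
def DownS : Prop :=
  ∀ (X J k F : Type) [Field k] [CharZero k] [Field F] [Algebra k F],
    (∀ z : F, IsAlgebraic k z → z ∈ (algebraMap k F).range) →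
    ∀ (C : Ctx X) (y : J → X → k), RigE C y → RigE C fun j n => algebraMap k F (y j n)

/-- differential rings of functions that vanish or have bounded order along `U` -/
def Tame {X F : Type} [NormedField F] (U : Ultrafilter X) (δ : Derivation ℤ F F)
    (E : Subring (X → F)) : Prop :=
  (∀ c : F, (fun _ => c) ∈ E) ∧ (∀ e ∈ E, (fun x => δ (e x)) ∈ E) ∧
  (∀ e ∈ E, ∀ e' : X → F, (∀ᶠ x in (U : Filter X), e' x = e x) → e' ∈ E) ∧
  ∀ e ∈ E, (∃ B : ℝ, ∀ᶠ x in (U : Filter X), ‖e x‖ ≤ B) ∧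
    ((∀ᶠ x in (U : Filter X), e x = 0) ∨ ∃ ε : ℝ, 0 < ε ∧ ∀ᶠ x in (U : Filter X), ε ≤ ‖e x‖)

/-- no excessive cancellation, with moving coefficients -/
def GapS : Prop :=
  ∀ (X F A : Type) [NormedField F] [IsUltrametricDist F] [Fintype A] (δ : Derivation ℤ F F)
    (D : ℝ), (∀ x, ‖δ x‖ ≤ D * ‖x‖) → (∀ x, δ x = 0 → ‖x‖ ≤ 1) →
    ∀ (U : Ultrafilter X) (E : Subring (X → F)), Tame U δ E →
    ∀ (Y : A → X → Fˣ) (e : A → X → F), (∀ a, e a ∈ E) →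
      (∀ a, (fun x => δ (Y a x : F) / Y a x) ∈ E) →
      (∀ᶠ x in (U : Filter X), ∑ a, e a x * (Y a x : F) = 0) ∨
      ∃ ε : ℝ, 0 < ε ∧ ∀ᶠ x in (U : Filter X),
        ∃ a, ε * ‖(Y a x : F)‖ ≤ ‖∑ a, e a x * (Y a x : F)‖

/-- the leading term principle, with finitely many arbitrary multipliers -/
def VanS : Prop :=
  ∀ (X F B : Type) (m : ℕ) [NormedField F] [CompleteSpace F] [Fintype B] (U : Ultrafilter X)
    (W : Set X), W ∈ U → ∀ (y : B → X → F) (w : X → Fin m → F) (c : B × (Fin m → ℕ) → F),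
    Summable (fun s => ‖c s‖) → (∀ x ∈ W, ∀ b, y b x ≠ 0) →
    (∀ x ∈ W, ∀ i, w x i ≠ 0 ∧ ‖w x i‖ ≤ 1) → (∀ i, Tendsto (fun x => w x i) U (𝓝 0)) →
    (∀ E : Finset (B × (Fin m → ℕ)),
      (∀ x ∈ W, ∑ s ∈ E, c s * (y s.1 x * mon s.2 (w x)) = 0) ∨
      ∃ ε : ℝ, 0 < ε ∧ ∀ᶠ x in (U : Filter X), ∃ s ∈ E,
        ε * ‖y s.1 x * mon s.2 (w x)‖ ≤ ‖∑ s ∈ E, c s * (y s.1 x * mon s.2 (w x))‖) →
    (∀ᶠ x in (U : Filter X), ∑' s, c s * (y s.1 x * mon s.2 (w x)) = 0) →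
    ∀ x ∈ W, ∑' s, c s * (y s.1 x * mon s.2 (w x)) = 0

/-- meromorphic functions of a small parameter of exponential type -/
def Mer {X F : Type} [NormedField F] (C : Ctx X) (x : X → F) : Prop :=
  ∃ (w : X → Fˣ) (c : ℕ → F), ExpT C w ∧ Summable (fun k => ‖c k‖) ∧
    Tendsto (fun n => (w n : F)) (C.U : Filter X) (𝓝 0) ∧
    ∀ᶠ n in C.c, ‖(w n : F)‖ ≤ 1 ∧ HasSum (fun k => c k * (w n : F) ^ k) (x n * w n)

/-- elimination of the meromorphic coordinates -/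
def StepS : Prop :=
  ∀ (X F J : Type) (m : ℕ) [NormedField F] [IsUltrametricDist F] [CompleteSpace F] [CharZero F]
    [Fintype J] (δ : Derivation ℤ F F) (D : ℝ), (∀ x, ‖δ x‖ ≤ D * ‖x‖) →
    (∀ x, δ x = 0 → ‖x‖ ≤ 1) → ∀ (C : Ctx X) (x : Fin m → X → F) (y : J → X → F),
    (∀ i, Mer C (x i)) → (∀ j n, y j n ≠ 0) →
    (∀ (B : Type) [Fintype B] (φ : B → X → ℤ), (∀ b, (fun n => (φ b n : ℚ)) ∈ C.L) →
      ∃ E : Subring (X → F), Tame C.U δ E ∧ (∀ j, y j ∈ E) ∧ ∀ b, (fun n => (φ b n : F)) ∈ E) →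
    RigE C y → RigE C (Sum.elim x y)

/-- a Noetherian property of analytic functions of several `p`-adic variables -/
def NfS : Prop :=
  ∀ (F : Type) [NormedField F] [IsUltrametricDist F] [CharZero F] (p : ℕ), p.Prime →
    ‖(p : F)‖ < 1 → ∀ (N : ℕ) (V : Ultrafilter (Fin N → ℕ)), ∃ W ∈ V,
      ∀ φ ∈ Algebra.adjoin F {φ : (Fin N → ℕ) → F |
          ∃ (i : Fin N) (y : ℕ → F), Mah (‖(p : F)‖ ^ 2) y ∧ φ = fun k => y (k i)},
        (∀ᶠ k in (V : Filter (Fin N → ℕ)), φ k = 0) → ∀ k ∈ W, φ k = 0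

/-- the Taylor coefficients at `a` of the iterates of `f` -/
noncomputable def jet {R : Type} [CommRing R] (f : R[X]) (a : R) (n l : ℕ) : R :=
  (it (f.map C) n (X + C a)).coeff l

/-- interpolation of all jets of one orbit -/
def OneJS : Prop :=
  ∀ (R k F : Type) [CommRing R] [Field k] [Finite k] [NormedField F] [IsUltrametricDist F]
    [CharZero F] (p : ℕ) (ι : R →+* F) (ρ : R →+* k), p.Prime → ‖(p : F)‖ < 1 →
    (∀ y, ‖ι y‖ ≤ 1) → (∀ y, ρ y = 0 → ‖ι y‖ < 1) → ∀ (f : R[X]) (α : R),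
    (∀ᶠ n in atTop, ρ (f.derivative.eval (it f n α)) ≠ 0) →
    ∃ n0 P : ℕ, 0 < P ∧ ∀ a, n0 ≤ a → ∀ l,
      Mah (‖(p : F)‖ ^ 2) fun k => ι (jet f α (a + P * k) l)

/-- simultaneous interpolation of all jets of finitely many orbits -/
def JetS : Prop :=
  ∀ (κ J : Type) [Field κ] [CharZero κ] [IsAlgClosed κ] [Fintype J] (f : J → κ[X]) (a : J → κ),
    (∀ j, 0 < (f j).natDegree) →
    (∀ j, ∀ᶠ n in atTop, (f j).derivative.eval (it (f j) n (a j)) ≠ 0) →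
    ∃ (R F : Type) (_ : CommRing R) (_ : IsDomain R) (_ : NormedField F) (_ : IsUltrametricDist F)
      (_ : CharZero F) (p : ℕ) (e : R →+* κ) (ι : R →+* F) (t : J → ℕ → ℕ → R) (n0 P : ℕ),
      p.Prime ∧ ‖(p : F)‖ < 1 ∧ Function.Injective e ∧ Function.Injective ι ∧ 0 < P ∧
      (∀ j n l, e (t j n l) = jet (f j) (a j) n l) ∧
      ∀ j l b, n0 ≤ b → Mah (‖(p : F)‖ ^ 2) fun k => ι (t j (b + P * k) l)

/-- the Noetherian property of the algebra of jets -/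
def NoeS : Prop :=
  ∀ (κ J : Type) [Field κ] [CharZero κ] [Fintype J] (N : ℕ) (U : Ultrafilter (Fin N → ℕ))
    (f : J → κ[X]) (a : J → κ) (ix : J → Fin N) (d : J → ℕ), (∀ j, 0 < d j) →
    (∀ j, 0 < (f j).natDegree) →
    (∀ j, ∀ᶠ n in atTop, (f j).derivative.eval (it (f j) n (a j)) ≠ 0) →
    ∃ W ∈ U, ∀ φ ∈ Algebra.adjoin κ {φ : (Fin N → ℕ) → κ |
        ∃ j l, φ = fun n => jet (f j) (a j) (n (ix j) / d j) l},
      (∀ᶠ n in (U : Filter (Fin N → ℕ)), φ n = 0) → ∀ n ∈ W, φ n = 0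

/-- cosets -/
def Co {N : ℕ} (γ : Fin N → ℕ) (H : AddSubgroup (Fin N → ℤ)) : Set (Fin N → ℕ) :=
  {n | ∃ h ∈ H, (∀ i, 0 ≤ h i) ∧ ∀ i, (n i : ℤ) = (γ i : ℤ) + h i}

/-- the standard context of an ultrafilter on exponent tuples -/
structure Std {N : ℕ} (C : Ctx (Fin N → ℕ)) : Prop where
  co : ∀ S ∈ C.c, ∃ γ H, Co γ H ∈ C.U ∧ Co γ H ⊆ S
  cst : ∀ i b, (∀ᶠ n in (C.U : Filter (Fin N → ℕ)), n i = b) → ∀ᶠ n in C.c, n i = b
  big : ∀ i, Tendsto (fun n : Fin N → ℕ => n i) (C.U : Filter (Fin N → ℕ)) atTop →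
    Tendsto (fun n : Fin N → ℕ => n i) C.c atTop
  mod : ∀ i p, 0 < p → ∃ r, ∀ᶠ n in C.c, n i % p = r
  pow : ∀ (i : Fin N) (p e : ℕ), 0 < p → 2 ≤ e → (fun n => (e : ℚ) ^ (n i / p)) ∈ C.L
  form : ∀ φ ∈ C.L, ∃ (B : Type) (_ : Fintype B) (ix : B → Fin N) (p e : B → ℕ) (r : B → ℚ)
    (s : ℚ), (∀ b, 0 < p b ∧ 2 ≤ e b) ∧
      ∀ᶠ n in C.c, φ n = s + ∑ b, r b * (e b : ℚ) ^ (n (ix b) / p b)

def CtxS : Prop :=
  ∀ (N : ℕ) (U : Ultrafilter (Fin N → ℕ)), ∃ C : Ctx (Fin N → ℕ), C.U = U ∧ Std C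

/-- orbits of monomial maps are of exponential type -/
def SeqS : Prop :=
  ∀ (N : ℕ) (C : Ctx (Fin N → ℕ)), Std C → ∀ (G : Type) [CommGroup G] (w β : ℕ → G) (e : ℕ → ℕ)
    (M p : ℕ) (i : Fin N), 0 < p →
    Tendsto (fun n : Fin N → ℕ => n i) (C.U : Filter (Fin N → ℕ)) atTop →
    (∀ n, M ≤ n → 2 ≤ e n ∧ w (n + p) = β n * w n ^ e n ∧ β (n + p) = β n ∧ e (n + p) = e n) →
    ExpT C fun n => w (n i)

/-- integral orbits that avoid the critical residue classes generate a tame ring -/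
def TameS : Prop :=
  ∀ (κ J B : Type) [Field κ] [CharZero κ] [Fintype J] [Fintype B] (N : ℕ) (C : Ctx (Fin N → ℕ)),
    Std C → ∀ (f : J → κ[X]) (a : J → LS κ) (a0 : J → κ) (ix : J → Fin N)
      (φ : B → (Fin N → ℕ) → ℤ), (∀ j, 0 < (f j).natDegree) → (∀ j, ‖a j - cs κ (a0 j)‖ < 1) →
      (∀ j, ∀ᶠ n in atTop, (f j).derivative.eval (it (f j) n (a0 j)) ≠ 0) →
      (∀ b, (fun n => (φ b n : ℚ)) ∈ C.L) →
      ∃ E : Subring ((Fin N → ℕ) → LS κ), Tame C.U der E ∧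
        (∀ j, (fun n => it ((f j).map (cs κ)) (n (ix j)) (a j)) ∈ E) ∧
        ∀ b, (fun n => (φ b n : LS κ)) ∈ E

/-- sequences with a Boettcher parameter on every class modulo `p` -/
def Par2 {F : Type} [NormedField F] (x : ℕ → F) : Prop :=
  ∃ (w β : ℕ → F) (c : ℕ → ℕ → F) (e : ℕ → ℕ) (R : ℝ) (M p : ℕ), 0 < p ∧
    Tendsto w atTop (𝓝 0) ∧ ∀ n, M ≤ n → 2 ≤ e n ∧ w n ≠ 0 ∧ ‖w n‖ < 1 ∧
      w (n + p) = β n * w n ^ e n ∧ β (n + p) = β n ∧ e (n + p) = e n ∧ c (n + p) = c n ∧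
      (∀ k, ‖c n k‖ ≤ R) ∧ HasSum (fun k => c n k * w n ^ k) (x n * w n)

def ParS : Prop :=
  ∀ (N : ℕ) (C : Ctx (Fin N → ℕ)), Std C → ∀ (F : Type) [NormedField F] (x : ℕ → F) (i : Fin N),
    Tendsto (fun n : Fin N → ℕ => n i) (C.U : Filter (Fin N → ℕ)) atTop → Par2 x →
    Mer C fun n => x (n i)

/-- escaping orbits -/
def BinfS : Prop :=
  ∀ (κ : Type) [Field κ] [CharZero κ] (f : κ[X]) (a : LS κ), 1 < f.natDegree → 1 < ‖a‖ →
    Par2 fun n => it (f.map (cs κ)) n a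

/-- the Boettcher coordinate at a superattracting fixed point -/
def BloS : Prop :=
  ∀ (F : Type) [NormedField F] [IsUltrametricDist F] [CompleteSpace F],
    (∀ n : ℕ, n ≠ 0 → ‖(n : F)‖ = 1) → ∀ (h : F[X]) (e : ℕ), 2 ≤ e → (∀ k, ‖h.coeff k‖ ≤ 1) →
    ‖h.coeff 0‖ = 1 → ∀ y : ℕ → F, y 0 ≠ 0 → ‖y 0‖ < 1 →
    (∀ n, y (n + 1) = y n ^ e * h.eval (y n)) →
    ∃ c w : ℕ → F, (∀ k, ‖c k‖ ≤ 1) ∧ Tendsto w atTop (𝓝 0) ∧ ∀ n, w n ≠ 0 ∧ ‖w n‖ < 1 ∧
      w (n + 1) = h.coeff 0 * w n ^ e ∧ HasSum (fun k => c k * w n ^ k) (y n)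

/-- orbits that are attracted by a superattracting cycle -/
def BfinS : Prop :=
  ∀ (κ : Type) [Field κ] [CharZero κ] (f : κ[X]) (a : LS κ) (a0 : κ), 1 < f.natDegree →
    ‖a - cs κ a0‖ < 1 → (∃ᶠ n in atTop, f.derivative.eval (it f n a0) = 0) →
    (Set.range fun n => it (f.map (cs κ)) n a).Infinite → Par2 fun n => it (f.map (cs κ)) n a

def OfBase : Prop := ExpS → BaseS ∧ UniS
def OfUer : Prop := PlaceS → UerS
def OfDown : Prop := ExpS → UerS → DownS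
def OfStep : Prop := ExpS → UniS → GapS → VanS → StepS
def OfJet : Prop := OneJS → JetS
def OfNoe : Prop := JetS → NfS → NoeS
def OfTame : Prop := NoeS → TameS
def OfPar : Prop := ExpS → SeqS ∧ ParS
def OfBfin : Prop := BloS → BinfS ∧ BfinS

end Pool.Agent.MP_be2dd8_ag.H81
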